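import Pool.Agent.QCB.QI

/-!
# QCT, module GNil: group level versions of the reduction to matrix rings over orders

Compare `St_Nil`, `St_Pi`, `St_Mat` in `Pool/Agent/TQF/StN.lean` (same functors). `GNil`: restriction along `π` gives an
additive function on `L'`-modules, whose values lie in a finitely generated `H`; every finitely generated `L`-module `M` with
`J ^ k M = 0`, `J = ker π`, has value in `H` by induction on `k` (`0 → J M → M → M / J M → 0`).
`GProd`: a module over `L × L'` is `e M ⊕ (1 - e) M`. `GPi`: by induction on `n` or directly.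
`GMat`: `ψ'(N) = ψ(N ^ n)` is additive on `L`-modules; every module over `M_n(L)` is `N ^ n` up to isomorphism,
`N = E_11 M` (`n ≥ 1`; for `n = 0` all modules are zero).
-/

set_option autoImplicit false
set_option linter.style.haveILetI false

namespace Pool.Agent.QCT

open Pool.Agent.QCB Function

section basics

variable {L L' : Type} [Ring L] [Ring L'] {Γ : Type 1} [AddCommGroup Γ]

private theorem GNil_zero (ψ : NAdd L Γ) (N : Type) [AddCommGroup N] [Module L N]
    [Subsingleton N] : ψ.val N = 0 := by
  have h := ψ.add N N N (0 : N →ₗ[L] N) 0 (fun x y _ => Subsingleton.elim _ _)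
    (fun x => ⟨0, Subsingleton.elim _ _⟩)
    (fun x => ⟨fun _ => ⟨0, Subsingleton.elim _ _⟩, fun _ => Subsingleton.elim _ _⟩)
  have h1 : ψ.val N + 0 = ψ.val N + ψ.val N := by rw [add_zero, ← h]
  exact (add_left_cancel h1).symm

private theorem GNil_iso (ψ : NAdd L Γ) (N N' : Type) [AddCommGroup N] [Module L N]
    [AddCommGroup N'] [Module L N'] [Module.Finite L N] [Module.Finite L N'] (e : N ≃ₗ[L] N') :
    ψ.val N = ψ.val N' := by
  have h := ψ.add N N' PUnit e.toLinearMap 0 e.injective (fun x => ⟨0, Subsingleton.elim _ _⟩)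
    (fun x => ⟨fun _ => e.surjective x, fun _ => Subsingleton.elim _ _⟩)
  rw [GNil_zero ψ PUnit, add_zero] at h
  exact h.symm

private theorem GNil_sub (ψ : NAdd L Γ) (M : Type) [AddCommGroup M] [Module L M]
    [Module.Finite L M] (N : Submodule L M) [Module.Finite L N] :
    ψ.val M = ψ.val N + ψ.val (M ⧸ N) :=
  ψ.add N M (M ⧸ N) N.subtype N.mkQ N.subtype_injective N.mkQ_surjective
    (LinearMap.exact_subtype_mkQ N)

private theorem GNil_fin (π : L →+* L') (hπ : Surjective π) (N : Type) [AddCommGroup N]
    [Module L' N] [hfin : Module.Finite L' N] (i : Module L N)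
    (hi : ∀ (c : L) (x : N), i.smul c x = π c • x) : @Module.Finite L N _ _ i := by
  obtain ⟨S, hS⟩ := hfin.fg_top
  letI := i
  refine ⟨⟨S, ?_⟩⟩
  rw [eq_top_iff]
  intro m _
  have hm : m ∈ Submodule.span L' (S : Set N) := by rw [hS]; trivial
  refine Submodule.span_induction (p := fun m _ => m ∈ Submodule.span L (S : Set N)) ?_ ?_ ?_
    ?_ hm
  · intro x hx
    exact Submodule.subset_span hx
  · exact zero_mem _
  · intro x y _ _ hx hy
    exact add_mem hx hy
  · intro c x _ hx
    obtain ⟨c, rfl⟩ := hπ c
    have h1 : c • x = π c • x := hi c x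
    rw [← h1]
    exact Submodule.smul_mem _ _ hx

/-- restriction of modules along a surjection -/
private def GNil_res (π : L →+* L') (hπ : Surjective π) (ψ : NAdd L Γ) : NAdd L' Γ where
  val := fun N _ _ => letI : Module L N := Module.compHom N π; ψ.val N
  add := fun N' N N'' _ _ _ _ _ _ _ _ _ f g hf hg hfg => by
    letI i1 : Module L N' := Module.compHom N' π
    letI i2 : Module L N := Module.compHom N π
    letI i3 : Module L N'' := Module.compHom N'' π
    have f1 := GNil_fin π hπ N' i1 (fun _ _ => rfl)
    have f2 := GNil_fin π hπ N i2 (fun _ _ => rfl)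
    have f3 := GNil_fin π hπ N'' i3 (fun _ _ => rfl)
    exact ψ.add N' N N''
      { toFun := f, map_add' := map_add f, map_smul' := fun c x => f.map_smul (π c) x }
      { toFun := g, map_add' := map_add g, map_smul' := fun c x => g.map_smul (π c) x }
      hf hg hfg

private theorem GNil_mem (π : L →+* L') (hπ : Surjective π) (ψ : NAdd L Γ) (H : AddSubgroup Γ)
    (hH : ∀ (N : Type) [AddCommGroup N] [Module L' N] [Module.Finite L' N],
      (GNil_res π hπ ψ).val N ∈ H) (M : Type) [AddCommGroup M] [i : Module L M]
    [hfin : Module.Finite L M] (hJ : ∀ c, π c = 0 → ∀ m : M, c • m = 0) : ψ.val M ∈ H := by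
  have key : ∀ c c' : L, π c = π c' → ∀ m : M, c • m = c' • m := by
    intro c c' h m
    rw [← sub_eq_zero, ← sub_smul]
    exact hJ _ (by rw [map_sub, h, sub_self]) m
  have hg : ∀ x, π (surjInv hπ x) = x := surjInv_eq hπ
  letI i' : Module L' M :=
    { smul := fun x m => surjInv hπ x • m
      one_smul := fun m => (key (surjInv hπ 1) 1 (by rw [hg, map_one]) m).trans (one_smul L m)
      mul_smul := fun x y m => (key (surjInv hπ (x * y)) (surjInv hπ x * surjInv hπ y)
        (by rw [hg, map_mul, hg, hg]) m).trans (mul_smul _ _ _)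
      smul_zero := fun x => smul_zero (surjInv hπ x)
      smul_add := fun x m n => smul_add (surjInv hπ x) m n
      add_smul := fun x y m => (key (surjInv hπ (x + y)) (surjInv hπ x + surjInv hπ y)
        (by rw [hg, map_add, hg, hg]) m).trans (add_smul _ _ _)
      zero_smul := fun m => (key (surjInv hπ 0) 0 (by rw [hg, map_zero]) m).trans
        (zero_smul L m) }
  have hsm : ∀ (c : L) (m : M), π c • m = c • m := fun c m => key _ _ (hg _) m
  have hf' : Module.Finite L' M := by
    obtain ⟨S, hS⟩ := hfin.fg_top
    refine ⟨⟨S, ?_⟩⟩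
    rw [eq_top_iff]
    intro m _
    have hm : m ∈ Submodule.span L (S : Set M) := by rw [hS]; trivial
    refine Submodule.span_induction (p := fun m _ => m ∈ Submodule.span L' (S : Set M)) ?_ ?_
      ?_ ?_ hm
    · intro x hx
      exact Submodule.subset_span hx
    · exact zero_mem _
    · intro x y _ _ hx hy
      exact add_mem hx hy
    · intro c x _ hx
      rw [← hsm]
      exact Submodule.smul_mem _ _ hx
  have h2 := hH M
  have h3 : (GNil_res π hπ ψ).val M = ψ.val M := by
    show (letI : Module L M := Module.compHom M π; ψ.val M) = ψ.val M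
    have : (Module.compHom M π : Module L M) = i := by
      apply Module.ext
      funext c m
      exact hsm c m
    rw [this]
  rwa [h3] at h2

end basics

theorem GNil {L L' : Type} [Ring L] [Ring L'] [IsNoetherianRing L] (π : L →+* L')
    (hπ : Surjective π) (hn : IsNilpotent (RingHom.ker π)) (h : GFG L') : GFG L := by
  intro Γ _ ψ
  obtain ⟨H, hH, hN⟩ := h Γ (GNil_res π hπ ψ)
  refine ⟨H, hH, ?_⟩
  have key : ∀ k : ℕ, ∀ (M : Type) [AddCommGroup M] [Module L M] [Module.Finite L M],
      (∀ c ∈ (RingHom.ker π) ^ k, ∀ m : M, c • m = 0) → ψ.val M ∈ H := by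
    intro k
    induction k with
    | zero =>
      intro M _ _ _ hM
      have h0 : ∀ m : M, m = 0 := by
        intro m
        have h1 := hM 1 (by
          rw [Submodule.pow_zero, Submodule.one_eq_span]
          exact Submodule.mem_span_singleton_self 1) m
        rwa [one_smul] at h1
      exact GNil_mem π hπ ψ H hN M fun c _ m => h0 _
    | succ k ih =>
      intro M _ _ _ hM
      have := isNoetherian_of_isNoetherianRing_of_finite L M
      set N : Submodule L M := RingHom.ker π • (⊤ : Submodule L M) with hNdef
      rw [GNil_sub ψ M N]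
      refine add_mem ?_ ?_
      · refine ih N ?_
        rintro c hc ⟨m, hm⟩
        apply Subtype.ext
        show c • m = 0
        refine Submodule.smul_induction_on hm ?_ ?_
        · intro c' hc' m' _
          rw [← mul_smul]
          refine hM _ ?_ _
          rw [Submodule.pow_succ]
          exact Submodule.mul_mem_mul hc hc'
        · intro x y hx hy
          rw [smul_add, hx, hy, add_zero]
      · refine GNil_mem π hπ ψ H hN (M ⧸ N) ?_
        intro c hc m
        obtain ⟨m, rfl⟩ := N.mkQ_surjective m
        rw [← map_smul]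
        exact (Submodule.Quotient.mk_eq_zero N).2 (Submodule.smul_mem_smul hc trivial)
  obtain ⟨k, hk⟩ := hn
  intro N _ _ _
  refine key k N fun c hc m => ?_
  rw [hk] at hc
  rw [(Submodule.mem_bot L).1 hc, zero_smul]

theorem GProd {L L' : Type} [Ring L] [Ring L'] (h : GFG L) (h' : GFG L') : GFG (L × L') := by
  intro Γ _ ψ
  have s1 : Surjective (RingHom.fst L L') := fun x => ⟨(x, 0), rfl⟩
  have s2 : Surjective (RingHom.snd L L') := fun x => ⟨(0, x), rfl⟩
  obtain ⟨H, hH, hN⟩ := h Γ (GNil_res (RingHom.fst L L') s1 ψ)
  obtain ⟨H', hH', hN'⟩ := h' Γ (GNil_res (RingHom.snd L L') s2 ψ)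
  refine ⟨H ⊔ H', hH.sup hH', fun M _ _ _ => ?_⟩
  set e : L × L' := (1, 0) with he
  have hc : ∀ c : L × L', c * e = e * c := by
    intro c
    ext
    · simp [he]
    · simp [he]
  let f : M →ₗ[L × L'] M :=
    { toFun := fun m => e • m
      map_add' := fun x y => smul_add e x y
      map_smul' := fun c x => by
        show e • c • x = c • e • x
        rw [← mul_smul, ← mul_smul, hc] }
  have hfin : Module.Finite (L × L') (LinearMap.range f) := Module.Finite.range f
  rw [GNil_sub ψ M (LinearMap.range f)]
  refine add_mem (AddSubgroup.mem_sup_left ?_) (AddSubgroup.mem_sup_right ?_)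
  · refine GNil_mem (RingHom.fst L L') s1 ψ H hN _ ?_
    rintro c hc' ⟨m, hm⟩
    apply Subtype.ext
    obtain ⟨m', rfl⟩ := hm
    show c • e • m' = 0
    have h1 : c * e = 0 := by
      ext
      · have : c.1 = 0 := hc'
        simp [he, this]
      · simp [he]
    rw [← mul_smul, h1, zero_smul]
  · refine GNil_mem (RingHom.snd L L') s2 ψ H' hN' _ ?_
    intro c hc' m
    obtain ⟨m, rfl⟩ := (LinearMap.range f).mkQ_surjective m
    rw [← map_smul]
    refine (Submodule.Quotient.mk_eq_zero _).2 ⟨c • m, ?_⟩
    show e • c • m = c • m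
    have h1 : e * c = c := by
      ext
      · simp [he]
      · have : c.2 = 0 := hc'
        simp [he, this]
    rw [← mul_smul, h1]

private theorem GNil_triv {L : Type} [Ring L] (h : (1 : L) = 0) : GFG L := by
  intro Γ _ ψ
  refine ⟨⊥, ⟨∅, by simp⟩, fun N _ _ _ => ?_⟩
  have : Subsingleton N := ⟨fun x y => by
    rw [← one_smul L x, ← one_smul L y, h, zero_smul, zero_smul]⟩
  rw [GNil_zero ψ N]
  exact zero_mem _

theorem GPi (n : ℕ) (L : Fin n → Type) [∀ i, Ring (L i)] (h : ∀ i, GFG (L i)) :
    GFG (∀ i, L i) := by
  induction n with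
  | zero => exact GNil_triv (Subsingleton.elim _ _)
  | succ n ih =>
    have h1 := GProd (h 0) (ih (fun i => L i.succ) fun i => h i.succ)
    refine GFG.of_equiv ?_ h1
    exact
      { toFun := fun p => Fin.cons p.1 p.2
        invFun := fun f => (f 0, fun i => f i.succ)
        left_inv := fun p => by simp
        right_inv := fun f => by
          funext i
          refine Fin.cases ?_ (fun j => ?_) i <;> simp
        map_mul' := fun p q => by
          funext i
          refine Fin.cases ?_ (fun j => ?_) i <;> simp
        map_add' := fun p q => by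
          funext i
          refine Fin.cases ?_ (fun j => ?_) i <;> simp }

open Matrix.Module in
theorem GMat {L : Type} [Ring L] (n : ℕ) (h : GFG L) : GFG (Matrix (Fin n) (Fin n) L) := by
  rcases n with _ | n
  · exact GNil_triv (Subsingleton.elim _ _)
  intro Γ _ ψ
  have hfin : ∀ (N : Type) [AddCommGroup N] [Module L N] [Module.Finite L N],
      Module.Finite (Matrix (Fin (n + 1)) (Fin (n + 1)) L) (Fin (n + 1) → N) := by
    intro N _ _ _
    exact Module.Finite.of_restrictScalars_finite L _ _
  let ψ' : NAdd L Γ :=
    { val := fun N _ _ => ψ.val (Fin (n + 1) → N)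
      add := fun N' N N'' _ _ _ _ _ _ _ _ _ f g hf hg hfg => by
        have i1 := hfin N'
        have i2 := hfin N
        have i3 := hfin N''
        refine ψ.add (Fin (n + 1) → N') (Fin (n + 1) → N) (Fin (n + 1) → N'')
          (f.mapMatrixModule (Fin (n + 1))) (g.mapMatrixModule (Fin (n + 1))) ?_ ?_ ?_
        · intro x y hxy
          funext i
          exact hf (congrFun hxy i)
        · intro y
          choose x hx using fun i => hg (y i)
          exact ⟨x, funext hx⟩
        · intro y
          constructor
          · intro hy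
            choose x hx using fun i => (hfg (y i)).1 (congrFun hy i)
            exact ⟨x, funext hx⟩
          · rintro ⟨x, rfl⟩
            funext i
            exact (hfg _).2 ⟨x i, rfl⟩ }
  obtain ⟨H, hH, hN⟩ := h Γ ψ'
  refine ⟨H, hH, fun M _ _ _ => ?_⟩
  letI im : Module L M := Module.compHom M (Matrix.scalar (α := L) (Fin (n + 1)))
  have it := MatrixModCat.isScalarTower_toModuleCat L
    (ModuleCat.of (Matrix (Fin (n + 1)) (Fin (n + 1)) L) M)
  have it' : IsScalarTower L (Matrix (Fin (n + 1)) (Fin (n + 1)) L) M := it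
  have hf1 : Module.Finite L M := Module.Finite.trans (Matrix (Fin (n + 1)) (Fin (n + 1)) L) M
  have hf2 : Module.Finite L (MatrixModCat.toModuleCatObj L M (0 : Fin (n + 1))) := by
    unfold MatrixModCat.toModuleCatObj
    exact Module.Finite.range _
  have e := toModuleCatFromModuleCatLinearEquiv L
    (ModuleCat.of (Matrix (Fin (n + 1)) (Fin (n + 1)) L) M) (0 : Fin (n + 1))
  have hf3 := hfin (MatrixModCat.toModuleCatObj L M (0 : Fin (n + 1)))
  have h1 := GNil_iso ψ M (Fin (n + 1) → MatrixModCat.toModuleCatObj L M (0 : Fin (n + 1))) e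
  rw [h1]
  exact hN (MatrixModCat.toModuleCatObj L M (0 : Fin (n + 1)))

end Pool.Agent.QCT
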