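import Mathlib

/-!
# QCT: quadric bundles over arithmetic surfaces, definitions for the final statement
-/

set_option autoImplicit false

namespace Pool.Agent.QCT

open MvPolynomial Quaternion Function

/-- exponents of the homogeneous coordinates: `0 ↦ 1`, `i + 1 ↦ y_i` -/
noncomputable def expo (n : ℕ) : Fin (n + 1) → (Fin n →₀ ℕ) :=
  Fin.cons 0 (fun i => Finsupp.single i 1)

/-- the homogenised quadratic form `∑_{i ≤ j} c_ij v_i v_j` in `n + 1` variables of a polynomial
`∑_{i ≤ j} c_ij y_i y_j` (`y_0 = 1`) of degree at most two in `n` variables `y_1, …, y_n` -/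
noncomputable def hform {K : Type} [Field K] {n : ℕ} (f : MvPolynomial (Fin n) K) :
    QuadraticForm K (Fin (n + 1) → K) :=
  ∑ i, ∑ j, if i ≤ j then f.coeff (expo n i + expo n j) •
    QuadraticMap.linMulLin (LinearMap.proj i : (Fin (n + 1) → K) →ₗ[K] K)
      (LinearMap.proj j : (Fin (n + 1) → K) →ₗ[K] K) else 0

/-- `Λ` modulo a nilpotent ideal is a finite product of matrix rings over `K` and over quaternion
algebras `(a, b)_K`, `a b ≠ 0` -/
def QuatSplit (K : Type) [Field K] (Λ : Type) [Ring Λ] [Algebra K Λ] : Prop :=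
  ∃ (r : ℕ) (d : Fin r → ℕ) (a b : Fin r → K) (r' : ℕ) (d' : Fin r' → ℕ)
    (π : Λ →ₐ[K] (∀ i, Matrix (Fin (d i)) (Fin (d i)) ℍ[K,a i,b i]) ×
      (∀ i, Matrix (Fin (d' i)) (Fin (d' i)) K)),
    (∀ i, a i ≠ 0 ∧ b i ≠ 0) ∧ Surjective π ∧ IsNilpotent (RingHom.ker π)

end Pool.Agent.QCT
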