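import Pool.Agent.QCT.TOP
import Pool.Agent.TQF.All

/-!
# QCT: assembly
-/

set_option autoImplicit false

namespace Pool.Agent.QCT

open Pool.Agent.TQF Pool.Agent.QCB Function TensorProduct MvPolynomial Pool.Agent.Helper11
open Pool.Agent.Helper67.Bass Quaternion

theorem all_OrdH (R0 : Type) [CommRing R0] [IsDomain R0] [Algebra.FiniteType ℤ R0]
    (h : KroneckerLeOne (FractionRing R0)) : OrdH R0 (FractionRing R0) := by
  rcases thm_Glob R0 (FractionRing R0) h with h | h
  · exact thm_OrdF R0 (FractionRing R0) h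
  · exact thm_OrdG thm_Ord0 thm_Pig R0 (FractionRing R0) h

/-- the theorem -/
theorem ALL {S : Type} [CommRing S] [Algebra.FiniteType ℤ S] {n : ℕ} (f : MvPolynomial (Fin n) S)
    (hf : f.totalDegree ≤ 2)
    (h : ∀ (P : Ideal S) [P.IsPrime], KroneckerLeOne (FractionRing (S ⧸ P)) ∨
      ((2 : S) ∉ P ∧ (∃ (F : Subfield (FractionRing (S ⧸ P))) (t : FractionRing (S ⧸ P)),
        KroneckerLeOne F ∧ Transcendental F t ∧ IntermediateField.adjoin F {t} = ⊤) ∧
        (QuatSplit (FractionRing (S ⧸ P)) (CliffordAlgebra.even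
          (hform (MvPolynomial.map (toFrac P) f))) ∨
        (n = 2 ∧ (QuadraticMap.polarBilin (hform (MvPolynomial.map (toFrac P) f))).Nondegenerate)))) :
    AddGroup.FG (G0 (MvPolynomial (Fin n) S ⧸ Ideal.span {f})) := by
  haveI : IsNoetherianRing S := Algebra.FiniteType.isNoetherianRing ℤ S
  refine TOP_ind f ?_
  intro P _
  have hft : @Algebra.FiniteType ℤ (S ⧸ P) _ _ (Ring.toIntAlgebra (S ⧸ P)) := by
    have h : Algebra.FiniteType ℤ (S ⧸ P) :=
      Algebra.FiniteType.of_surjective (Ideal.Quotient.mkₐ ℤ P) Ideal.Quotient.mk_surjective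
    have e : (inferInstance : Algebra ℤ (S ⧸ P)) = Ring.toIntAlgebra (S ⧸ P) :=
      Subsingleton.elim _ _
    rw [← e]
    exact h
  have hdeg : (MvPolynomial.map (Ideal.Quotient.mk P) f).totalDegree ≤ 2 :=
    (TOPV_deg _ f).trans hf
  by_cases hkr : KroneckerLeOne (FractionRing (S ⧸ P))
  · obtain ⟨x, V, i1, i2, hx, hloc, hfg⟩ := @all_Gen (S ⧸ P) (FractionRing (S ⧸ P)) _ _ hft _ _ _
      hkr n _ hdeg
    exact ⟨x, V, i1, i2, hx, hloc, hfg.fg⟩
  · obtain ⟨h2, ⟨F, t, hF, ht, htop⟩, hS⟩ := (h P).resolve_left hkr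
    have h2' : (2 : S ⧸ P) ≠ 0 := by
      intro h0
      apply h2
      rw [← Ideal.Quotient.eq_zero_iff_mem, map_ofNat]
      exact h0
    have h3 : MvPolynomial.map (algebraMap (S ⧸ P) (FractionRing (S ⧸ P)))
        (MvPolynomial.map (Ideal.Quotient.mk P) f) = MvPolynomial.map (toFrac P) f := by
      rw [MvPolynomial.map_map]
      rfl
    have hS' : QuatSplit (FractionRing (S ⧸ P)) (CliffordAlgebra.even
        (hform (MvPolynomial.map (algebraMap (S ⧸ P) (FractionRing (S ⧸ P)))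
          (MvPolynomial.map (Ideal.Quotient.mk P) f)))) := by
      rw [h3]
      rcases hS with hS | ⟨rfl, hS⟩
      · exact hS
      · refine TER ?_ _ hS
        intro h0
        apply h2'
        apply IsFractionRing.injective (S ⧸ P) (FractionRing (S ⧸ P))
        rw [map_ofNat, map_zero]
        exact h0
    obtain ⟨x, V, i1, i2, hx, hloc, hfg⟩ := @TOPK thm_LocK thm_LocC all_Gm thm_LamF thm_Lin thm_Kt
      all_OrdH (S ⧸ P) (FractionRing (S ⧸ P)) _ _ hft _ _ _ h2' F hF t ht htop hkr n _ hdeg hS'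
    exact ⟨x, V, i1, i2, hx, hloc, hfg⟩

end Pool.Agent.QCT
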