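import Pool.Agent.TQF.Basic
import Pool.Agent.QCB.Defs

/-!
# QCT, module EFG: finite generation at the level of groups

Proofs. `of_finG`: let `U` be a finite generating set and `H` the closure of `ψ '' U`; `P X := ψ X ∈ H` is a
two out of three class. `modC_iff`: an additive function on `LMod L` is the same as an `NAdd`
(`val N = ψ (LMod.of L N)` for finite `N`; `val` must be defined on all modules: use
`open Classical in if h : Module.Finite L N then … else 0`).
-/

set_option autoImplicit false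

namespace Pool.Agent.QCT

open Pool.Agent.TQF Pool.Agent.QCB Function

/-- the values of every additive function lie in a finitely generated subgroup -/
def EGFG (C : EC) : Prop :=
  ∀ (Γ : Type 1) [AddCommGroup Γ] (ψ : C.Ob → Γ), (∀ X, C.zero X → ψ X = 0) →
    (∀ X Y Z, C.ses X Y Z → ψ Y = ψ X + ψ Z) → ∃ H : AddSubgroup Γ, H.FG ∧ ∀ X, ψ X ∈ H

theorem EGFG.of_finG (C : EC) (h : C.FinG) : EGFG C := by
  obtain ⟨U, hU, hgen⟩ := h
  intro Γ _ ψ h0 hs
  refine ⟨AddSubgroup.closure (ψ '' U), ?_, ?_⟩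
  · rw [AddSubgroup.fg_iff]
    exact ⟨ψ '' U, rfl, hU.image ψ⟩
  · apply hgen (fun X => ψ X ∈ AddSubgroup.closure (ψ '' U))
    · refine ⟨fun X hX => ?_, fun X Y Z h hX hZ => ?_, fun X Y Z h hX hY => ?_,
        fun X Y Z h hY hZ => ?_⟩
      · rw [h0 X hX]
        exact zero_mem _
      · rw [hs X Y Z h]
        exact add_mem hX hZ
      · have h1 : ψ Z = ψ Y - ψ X := by rw [hs X Y Z h]; abel
        rw [h1]
        exact sub_mem hY hX
      · have h1 : ψ X = ψ Y - ψ Z := by rw [hs X Y Z h]; abel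
        rw [h1]
        exact sub_mem hY hZ
    · intro X hX
      exact AddSubgroup.subset_closure ⟨X, hX, rfl⟩

open Classical in
/-- the additive function on modules defined by one on bundled modules -/
private noncomputable def EFG_nadd (L : Type) [Ring L] (Γ : Type 1) [AddCommGroup Γ]
    (ψ : LMod L → Γ) (hs : ∀ X Y Z, LMod.Ses X Y Z → ψ Y = ψ X + ψ Z) : NAdd L Γ where
  val N _ _ := if h : Module.Finite L N then ψ (@LMod.of L _ N _ _ h) else 0
  add N' N N'' _ _ _ _ _ _ i1 i2 i3 f g hf hg hfg := by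
    rw [dif_pos i1, dif_pos i2, dif_pos i3]
    exact hs _ _ _ ⟨f, g, hf, hg, hfg⟩

theorem EGFG.modC_iff (L : Type) [Ring L] : EGFG (modC L) ↔ GFG L := by
  constructor
  · intro h Γ _ ψ
    obtain ⟨H, hH, h1⟩ := h Γ (fun X : LMod L => ψ.val X.carrier) (fun X hX => by
      have : Subsingleton X.carrier := hX
      have h2 := ψ.add X.carrier X.carrier X.carrier 0 0 (fun x y _ => Subsingleton.elim x y)
        (fun x => ⟨0, Subsingleton.elim _ _⟩)
        (fun x => ⟨fun _ => ⟨0, Subsingleton.elim _ _⟩, fun _ => Subsingleton.elim _ _⟩)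
      exact left_eq_add.1 h2) (fun X Y Z hXYZ => by
      obtain ⟨f, g, hf, hg, hfg⟩ := hXYZ
      exact ψ.add _ _ _ f g hf hg hfg)
    exact ⟨H, hH, fun N _ _ _ => h1 (LMod.of L N)⟩
  · intro h Γ _ ψ h0 hs
    obtain ⟨H, hH, h1⟩ := h Γ (EFG_nadd L Γ ψ hs)
    refine ⟨H, hH, fun X => ?_⟩
    have h2 := h1 X.carrier
    unfold EFG_nadd at h2
    dsimp only at h2
    rw [dif_pos X.fin] at h2
    exact h2

end Pool.Agent.QCT
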