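import Pool.Agent.TQF.Defs

/-!
# QCT, module EvC: the algebra `Lam q` is an even Clifford algebra

Proof of `EvC`. Write `B` for the polar form, `v_i w = B(w,v_i) - w v_i` in the Clifford algebra. `e_i ↦ -u⁻¹ w v_i` satisfies the
relations of `Lam q`: `(u⁻¹ w v_i)² = u⁻² w (B_i - w v_i) v_i = u⁻¹ (λ_i w v_i - Q(v_i))`, and the polarised computation. The
inverse is `CliffordAlgebra.even.lift` of the even homomorphism `(x, y) ↦ u • (φ' x * φ y)`, `φ, φ' : M → Lam q` linear with
`φ w = 1`, `φ v_i = -e_i`, `φ' w = 1`, `φ' v_i = λ_i + e_i`; `φ' x * φ x = φ x * φ' x = Q(x)/u` (expand `x` in the basis `w, v_i`; the mixed terms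
are the relations of `Lam q`). The compositions are the identity on generators (`even.algHom_ext`, `RingQuot` ext;
`v_i v_j = u⁻¹ (v_i w)(w v_j)`).
`LamBC`: both algebras have the same universal property.
-/

set_option autoImplicit false

namespace Pool.Agent.QCT

open Pool.Agent.TQF Function TensorProduct

section gen

variable {A : Type} [CommRing A] {m : ℕ} (q : QD A m)

/-- the generators -/
noncomputable def evc_e (i : Fin (m + 1)) : Lam q :=
  RingQuot.mkAlgHom A (LRel q) (FreeAlgebra.ι A i)

theorem evc_sq (i : Fin (m + 1)) : evc_e q i * evc_e q i + q.lam i • evc_e q i +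
    algebraMap A (Lam q) (q.gam i i) = 0 := by
  have h := RingQuot.mkAlgHom_rel A (LRel.sq (q := q) i)
  rw [map_add, map_add, map_mul, map_smul, map_zero, AlgHom.commutes] at h
  exact h

theorem evc_mul (i j : Fin (m + 1)) (hij : i ≠ j) : evc_e q i * evc_e q j +
    evc_e q j * evc_e q i + q.lam i • evc_e q j + q.lam j • evc_e q i +
    algebraMap A (Lam q) (q.gam i j + q.gam j i) = 0 := by
  have h := RingQuot.mkAlgHom_rel A (LRel.mul (q := q) i j hij)
  rw [map_add, map_add, map_add, map_add, map_mul, map_mul, map_smul, map_smul, map_zero,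
    AlgHom.commutes] at h
  exact h

variable {q} {B : Type} [Ring B] [Algebra A B]

/-- the universal property -/
noncomputable def evc_lift (f : Fin (m + 1) → B)
    (h1 : ∀ i, f i * f i + q.lam i • f i + algebraMap A B (q.gam i i) = 0)
    (h2 : ∀ i j, i ≠ j → f i * f j + f j * f i + q.lam i • f j + q.lam j • f i +
      algebraMap A B (q.gam i j + q.gam j i) = 0) : Lam q →ₐ[A] B :=
  RingQuot.liftAlgHom A ⟨FreeAlgebra.lift A f, by
    intro x y hxy
    cases hxy with
    | sq i =>
      rw [map_add, map_add, map_mul, map_smul, map_zero, AlgHom.commutes,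
        FreeAlgebra.lift_ι_apply]
      exact h1 i
    | mul i j hij =>
      rw [map_add, map_add, map_add, map_add, map_mul, map_mul, map_smul, map_smul, map_zero,
        AlgHom.commutes, FreeAlgebra.lift_ι_apply, FreeAlgebra.lift_ι_apply]
      exact h2 i j hij⟩

theorem evc_lift_e (f : Fin (m + 1) → B)
    (h1 : ∀ i, f i * f i + q.lam i • f i + algebraMap A B (q.gam i i) = 0)
    (h2 : ∀ i j, i ≠ j → f i * f j + f j * f i + q.lam i • f j + q.lam j • f i +
      algebraMap A B (q.gam i j + q.gam j i) = 0) (i : Fin (m + 1)) :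
    evc_lift f h1 h2 (evc_e q i) = f i := by
  unfold evc_lift evc_e
  rw [RingQuot.liftAlgHom_mkAlgHom_apply, FreeAlgebra.lift_ι_apply]

theorem evc_ext (F G : Lam q →ₐ[A] B) (h : ∀ i, F (evc_e q i) = G (evc_e q i)) : F = G := by
  refine RingQuot.ringQuot_ext' (S := A) _ _ (FreeAlgebra.hom_ext (funext fun i => ?_))
  exact h i

end gen

/-- a bilinear map which is a quadratic form on a basis -/
private theorem evc_quad {K M B ι : Type} [Field K] [AddCommGroup M] [Module K M] [Ring B]
    [Algebra K B] (Q : QuadraticForm K M) (b : Module.Basis ι K M) (β : M →ₗ[K] M →ₗ[K] B)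
    (h1 : ∀ i, β (b i) (b i) = algebraMap K B (Q (b i)))
    (h2 : ∀ i j, i ≠ j → β (b i) (b j) + β (b j) (b i) =
      algebraMap K B (QuadraticMap.polar Q (b i) (b j))) (y : M) :
    β y y = algebraMap K B (Q y) := by
  have hD : ∀ x y, β x y + β y x = algebraMap K B (QuadraticMap.polar Q x y) := by
    have h3 : β + β.flip = (QuadraticMap.polarBilin Q).compr₂ (Algebra.linearMap K B) := by
      refine b.ext fun i => b.ext fun j => ?_
      show β (b i) (b j) + β (b j) (b i) = algebraMap K B (QuadraticMap.polar Q (b i) (b j))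
      by_cases hij : i = j
      · subst hij
        rw [h1, QuadraticMap.polar_self, ← map_add, two_nsmul]
      · exact h2 i j hij
    intro x y
    exact LinearMap.congr_fun (LinearMap.congr_fun h3 x) y
  have hy : y ∈ Submodule.span K (Set.range b) := by
    rw [b.span_eq]
    trivial
  induction hy using Submodule.span_induction with
  | mem x hx =>
    obtain ⟨i, rfl⟩ := hx
    exact h1 i
  | zero => simp
  | add x y _ _ hx hy =>
    have h4 : Q (x + y) = Q x + Q y + QuadraticMap.polar Q x y := by
      unfold QuadraticMap.polar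
      ring
    rw [h4, map_add (algebraMap K B), map_add (algebraMap K B), ← hD x y, ← hx, ← hy,
      LinearMap.map_add₂, map_add, map_add]
    abel
  | smul c x _ hx =>
    rw [LinearMap.map_smul₂, map_smul, hx, QuadraticMap.map_smul, smul_smul,
      smul_eq_mul, map_mul, Algebra.smul_def]

/-- identities for an even homomorphism -/
private theorem evc_pol {K M B : Type} [Field K] [AddCommGroup M] [Module K M] [Ring B]
    [Algebra K B] {Q : QuadraticForm K M} (f : CliffordAlgebra.EvenHom Q B) (x y : M) :
    f.bilin x y + f.bilin y x = algebraMap K B (QuadraticMap.polar Q x y) := by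
  have h1 := f.contract (x + y)
  rw [LinearMap.map_add₂, map_add, map_add, f.contract x, f.contract y] at h1
  unfold QuadraticMap.polar
  rw [map_sub, map_sub, ← h1]
  abel

private theorem evc_rel {K M B : Type} [Field K] [AddCommGroup M] [Module K M] [Ring B]
    [Algebra K B] {Q : QuadraticForm K M} (f : CliffordAlgebra.EvenHom Q B) (w v v' : M) (u : K)
    (hu : u ≠ 0) (hw : Q w = u) (l : K) (hl : u * l = QuadraticMap.polar Q w v) :
    (-(u⁻¹ • f.bilin w v)) * (-(u⁻¹ • f.bilin w v')) + l • (-(u⁻¹ • f.bilin w v')) =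
      -(u⁻¹ • f.bilin v v') := by
  have h1 := evc_pol f w v
  have h2 : f.bilin w v = algebraMap K B (u * l) - f.bilin v w := by
    rw [hl, ← h1]
    abel
  have h3 : f.bilin w v * f.bilin w v' = (u * l) • f.bilin w v' - u • f.bilin v v' := by
    rw [h2, sub_mul, f.contract_mid, hw, ← Algebra.smul_def]
  rw [neg_mul_neg, smul_mul_smul_comm, h3, smul_sub, smul_smul, smul_smul, smul_neg, smul_smul]
  have e1 : u⁻¹ * u⁻¹ * (u * l) = l * u⁻¹ := by field_simp
  have e2 : u⁻¹ * u⁻¹ * u = u⁻¹ := by field_simp
  rw [e1, e2]
  abel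

/-- the even homomorphism given by elements satisfying the relations -/
private theorem evc_even {K M B : Type} [Field K] [AddCommGroup M] [Module K M] [Ring B]
    [Algebra K B] (Q : QuadraticForm K M) (m : ℕ)
    (b : Module.Basis (Option (Fin (m + 1))) K M) (u : K) (hw : Q (b none) = u)
    (q : QD K m) (h1 : ∀ i, u * q.lam i = QuadraticMap.polar Q (b none) (b (some i)))
    (h2 : ∀ i, u * q.gam i i = Q (b (some i)))
    (h3 : ∀ i j, i ≠ j →
      u * (q.gam i j + q.gam j i) = QuadraticMap.polar Q (b (some i)) (b (some j)))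
    (e : Fin (m + 1) → B)
    (he1 : ∀ i, e i * e i + q.lam i • e i + algebraMap K B (q.gam i i) = 0)
    (he2 : ∀ i j, i ≠ j → e i * e j + e j * e i + q.lam i • e j + q.lam j • e i +
      algebraMap K B (q.gam i j + q.gam j i) = 0) :
    ∃ (φ φ' : M →ₗ[K] B) (f : CliffordAlgebra.EvenHom Q B), φ (b none) = 1 ∧
      (∀ i, φ (b (some i)) = -e i) ∧ φ' (b none) = 1 ∧
      (∀ i, φ' (b (some i)) = algebraMap K B (q.lam i) + e i) ∧
      ∀ x y, f.bilin x y = u • (φ' x * φ y) := by
  -- the two linear maps
  set φ : M →ₗ[K] B := b.constr K (fun o => o.elim 1 fun i => -e i) with hφ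
  set φ' : M →ₗ[K] B := b.constr K (fun o => o.elim 1 fun i =>
    algebraMap K B (q.lam i) + e i) with hφ'
  have hφn : φ (b none) = 1 := b.constr_basis K _ none
  have hφs : ∀ i, φ (b (some i)) = -e i := fun i => b.constr_basis K _ (some i)
  have hφn' : φ' (b none) = 1 := b.constr_basis K _ none
  have hφs' : ∀ i, φ' (b (some i)) = algebraMap K B (q.lam i) + e i := fun i =>
    b.constr_basis K _ (some i)
  have esq : ∀ i, e i * e i = -(q.lam i • e i) - algebraMap K B (q.gam i i) := by
    intro i
    have h := he1 i
    rw [← sub_eq_zero, ← h]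
    abel
  have emul : ∀ i j, i ≠ j → e i * e j = -(e j * e i) - q.lam i • e j - q.lam j • e i -
      algebraMap K B (q.gam i j + q.gam j i) := by
    intro i j hij
    have h := he2 i j hij
    rw [← sub_eq_zero, ← h]
    abel
  -- the first product
  have hA : ∀ y, u • (φ y * φ' y) = algebraMap K B (Q y) := by
    intro y
    refine evc_quad Q b (u • (LinearMap.mul K B).compl₁₂ φ φ') ?_ ?_ y
    · intro o
      show u • (φ (b o) * φ' (b o)) = _
      cases o with
      | none => rw [hφn, hφn', mul_one, hw, Algebra.algebraMap_eq_smul_one]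
      | some i =>
        rw [hφs, hφs', ← h2 i, neg_mul, mul_add, esq, ← Algebra.commutes, ← Algebra.smul_def,
          map_mul, ← Algebra.smul_def]
        congr 1
        abel
    · intro o o' hoo
      show u • (φ (b o) * φ' (b o')) + u • (φ (b o') * φ' (b o)) = _
      cases o with
      | none =>
        cases o' with
        | none => exact absurd rfl hoo
        | some i =>
          rw [hφn, hφn', hφs, hφs', ← h1 i, map_mul, ← Algebra.smul_def, ← smul_add]
          congr 1
          rw [one_mul, mul_one]
          abel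
      | some i =>
        cases o' with
        | none =>
          rw [hφn, hφn', hφs, hφs', QuadraticMap.polar_comm, ← h1 i, map_mul, ← Algebra.smul_def,
            ← smul_add]
          congr 1
          rw [one_mul, mul_one]
          abel
        | some j =>
          have hij : i ≠ j := fun h => hoo (congrArg some h)
          rw [hφs, hφs, hφs', hφs', ← h3 i j hij, map_mul, ← Algebra.smul_def, ← smul_add]
          congr 1
          rw [neg_mul, neg_mul, mul_add, mul_add, emul i j hij, ← Algebra.commutes,
            ← Algebra.smul_def, ← Algebra.commutes, ← Algebra.smul_def]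
          abel
  have hB : ∀ y, u • (φ' y * φ y) = algebraMap K B (Q y) := by
    intro y
    refine evc_quad Q b (u • (LinearMap.mul K B).compl₁₂ φ' φ) ?_ ?_ y
    · intro o
      show u • (φ' (b o) * φ (b o)) = _
      cases o with
      | none => rw [hφn, hφn', mul_one, hw, Algebra.algebraMap_eq_smul_one]
      | some i =>
        rw [hφs, hφs', ← h2 i, mul_neg, add_mul, esq, ← Algebra.smul_def,
          map_mul, ← Algebra.smul_def]
        congr 1
        abel
    · intro o o' hoo
      show u • (φ' (b o) * φ (b o')) + u • (φ' (b o') * φ (b o)) = _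
      cases o with
      | none =>
        cases o' with
        | none => exact absurd rfl hoo
        | some i =>
          rw [hφn, hφn', hφs, hφs', ← h1 i, map_mul, ← Algebra.smul_def, ← smul_add]
          congr 1
          rw [one_mul, mul_one]
          abel
      | some i =>
        cases o' with
        | none =>
          rw [hφn, hφn', hφs, hφs', QuadraticMap.polar_comm, ← h1 i, map_mul, ← Algebra.smul_def,
            ← smul_add]
          congr 1
          rw [one_mul, mul_one]
          abel
        | some j =>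
          have hij : i ≠ j := fun h => hoo (congrArg some h)
          rw [hφs, hφs, hφs', hφs', ← h3 i j hij, map_mul, ← Algebra.smul_def, ← smul_add]
          congr 1
          rw [mul_neg, mul_neg, add_mul, add_mul, emul i j hij,
            ← Algebra.smul_def, ← Algebra.smul_def]
          abel
  refine ⟨φ, φ', { bilin := u • (LinearMap.mul K B).compl₁₂ φ' φ
                   contract := hB
                   contract_mid := ?_ }, hφn, hφs, hφn', hφs', fun x y => rfl⟩
  intro x y z
  show (u • (φ' x * φ y)) * (u • (φ' y * φ z)) = Q y • (u • (φ' x * φ z))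
  have h4 : (u • (φ' x * φ y)) * (u • (φ' y * φ z)) =
      u • (φ' x * ((u • (φ y * φ' y)) * φ z)) := by
    simp only [smul_mul_assoc, mul_smul_comm, mul_assoc]
  rw [h4, hA, ← Algebra.smul_def, mul_smul_comm, smul_comm]

theorem EvC {K M : Type} [Field K] [AddCommGroup M] [Module K M] (Q : QuadraticForm K M) (m : ℕ)
    (b : Module.Basis (Option (Fin (m + 1))) K M) (u : K) (hu : u ≠ 0) (hw : Q (b none) = u)
    (q : QD K m) (h1 : ∀ i, u * q.lam i = QuadraticMap.polar Q (b none) (b (some i)))
    (h2 : ∀ i, u * q.gam i i = Q (b (some i)))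
    (h3 : ∀ i j, i ≠ j →
      u * (q.gam i j + q.gam j i) = QuadraticMap.polar Q (b (some i)) (b (some j))) :
    Nonempty (CliffordAlgebra.even Q ≃ₐ[K] Lam q) := by
  set e := evc_e q with he
  obtain ⟨φ, φ', f, hφn, hφs, hφn', hφs', hf⟩ := evc_even Q m b u hw q h1 h2 h3 e (evc_sq q)
    (evc_mul q)
  let F : CliffordAlgebra.even Q →ₐ[K] Lam q := CliffordAlgebra.even.lift Q f
  have hF : ∀ x y, F ((CliffordAlgebra.even.ι Q).bilin x y) = u • (φ' x * φ y) := fun x y =>
    (CliffordAlgebra.even.lift_ι Q f x y).trans (hf x y)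
  -- the other homomorphism
  set β := CliffordAlgebra.even.ι Q with hβ
  set E : Fin (m + 1) → CliffordAlgebra.even Q := fun i =>
    -(u⁻¹ • β.bilin (b none) (b (some i))) with hE
  have hrel : ∀ i j, E i * E j + q.lam i • E j = -(u⁻¹ • β.bilin (b (some i)) (b (some j))) :=
    fun i j => evc_rel β (b none) (b (some i)) (b (some j)) u hu hw (q.lam i) (h1 i)
  let G : Lam q →ₐ[K] CliffordAlgebra.even Q := evc_lift E (by
      intro i
      rw [hrel, β.contract, ← h2 i, map_mul, ← Algebra.smul_def, inv_smul_smul₀ hu]
      abel) (by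
      intro i j hij
      have h4 : E i * E j + E j * E i + q.lam i • E j + q.lam j • E i =
          (E i * E j + q.lam i • E j) + (E j * E i + q.lam j • E i) := by abel
      rw [h4, hrel, hrel, ← neg_add, ← smul_add, evc_pol, ← h3 i j hij, map_mul,
        ← Algebra.smul_def, inv_smul_smul₀ hu]
      abel)
  have hG : ∀ i, G (e i) = E i := fun i => evc_lift_e E _ _ i
  refine ⟨AlgEquiv.ofAlgHom F G ?_ ?_⟩
  · refine evc_ext _ _ fun i => ?_
    show F (G (e i)) = e i
    rw [hG]
    show F (-(u⁻¹ • β.bilin (b none) (b (some i)))) = e i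
    rw [map_neg, map_smul, hF, hφn', hφs, one_mul, inv_smul_smul₀ hu, neg_neg]
  · refine CliffordAlgebra.even.algHom_ext Q (CliffordAlgebra.EvenHom.ext ?_)
    refine b.ext fun o => b.ext fun o' => ?_
    show G (F (β.bilin (b o) (b o'))) = β.bilin (b o) (b o')
    rw [hF, map_smul, map_mul]
    have hGn : ∀ i, G (φ (b (some i))) = u⁻¹ • β.bilin (b none) (b (some i)) := by
      intro i
      rw [hφs, map_neg, hG]
      exact neg_neg _
    have hGn' : ∀ i, G (φ' (b (some i))) = u⁻¹ • β.bilin (b (some i)) (b none) := by
      intro i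
      rw [hφs', map_add, AlgHom.commutes, hG]
      have h5 := evc_pol β (b none) (b (some i))
      rw [← h1 i] at h5
      have h6 : β.bilin (b (some i)) (b none) = algebraMap K _ (u * q.lam i) -
          β.bilin (b none) (b (some i)) := by
        rw [← h5]
        abel
      rw [h6, smul_sub, map_mul, ← Algebra.smul_def, inv_smul_smul₀ hu]
      show _ + -(u⁻¹ • β.bilin (b none) (b (some i))) = _
      abel
    cases o with
    | none =>
      cases o' with
      | none =>
        rw [hφn, hφn', map_one, mul_one, β.contract, hw, Algebra.algebraMap_eq_smul_one]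
      | some j =>
        rw [hφn', hGn, map_one, one_mul, smul_inv_smul₀ hu]
    | some i =>
      cases o' with
      | none =>
        rw [hφn, hGn', map_one, mul_one, smul_inv_smul₀ hu]
      | some j =>
        rw [hGn, hGn', smul_mul_smul_comm, β.contract_mid, hw, smul_smul, smul_smul]
        have e1 : u * (u⁻¹ * u⁻¹) * u = 1 := by field_simp
        rw [e1, one_smul]

theorem LamBC {A K : Type} [CommRing A] [CommRing K] [Algebra A K] (m : ℕ) (q : QD A m) :
    Nonempty (K ⊗[A] Lam q ≃ₐ[K] Lam (q.map (algebraMap A K))) := by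
  set q' := q.map (algebraMap A K) with hq'
  have hl : ∀ i, q'.lam i = algebraMap A K (q.lam i) := fun _ => rfl
  have hg : ∀ i j, q'.gam i j = algebraMap A K (q.gam i j) := fun _ _ => rfl
  haveI : IsScalarTower A K (Lam q') := inferInstance
  let g : Lam q →ₐ[A] Lam q' := evc_lift (evc_e q') (by
      intro i
      have h := evc_sq q' i
      rw [hl, hg, ← IsScalarTower.algebraMap_apply, algebraMap_smul] at h
      exact h) (by
      intro i j hij
      have h := evc_mul q' i j hij
      rw [hl, hl, hg, hg, ← map_add, ← IsScalarTower.algebraMap_apply, algebraMap_smul,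
        algebraMap_smul] at h
      exact h)
  have hgE : ∀ i, g (evc_e q i) = evc_e q' i := fun i => evc_lift_e _ _ _ i
  let F : K ⊗[A] Lam q →ₐ[K] Lam q' := Algebra.TensorProduct.lift (Algebra.ofId K (Lam q')) g
    (fun x y => Algebra.commutes _ _)
  let G : Lam q' →ₐ[K] K ⊗[A] Lam q := evc_lift (fun i => 1 ⊗ₜ[A] evc_e q i) (by
      intro i
      have h := congrArg (fun z => (1 : K) ⊗ₜ[A] z) (evc_sq q i)
      simp only [TensorProduct.tmul_add, TensorProduct.tmul_zero] at h
      rw [hl, hg, Algebra.TensorProduct.tmul_mul_tmul, mul_one, ← h]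
      congr 1
      · congr 1
        rw [algebraMap_smul, TensorProduct.tmul_smul]
      · rw [← IsScalarTower.algebraMap_apply]
        exact Algebra.TensorProduct.tmul_one_eq_one_tmul _) (by
      intro i j hij
      have h := congrArg (fun z => (1 : K) ⊗ₜ[A] z) (evc_mul q i j hij)
      simp only [TensorProduct.tmul_add, TensorProduct.tmul_zero] at h
      rw [hl, hl, hg, hg, ← map_add, Algebra.TensorProduct.tmul_mul_tmul,
        Algebra.TensorProduct.tmul_mul_tmul, mul_one, ← h]
      congr 1
      · congr 1
        · congr 1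
          rw [algebraMap_smul, TensorProduct.tmul_smul]
        · rw [algebraMap_smul, TensorProduct.tmul_smul]
      · rw [← IsScalarTower.algebraMap_apply]
        exact Algebra.TensorProduct.tmul_one_eq_one_tmul _)
  have hGE : ∀ i, G (evc_e q' i) = 1 ⊗ₜ[A] evc_e q i := fun i => evc_lift_e _ _ _ i
  refine ⟨AlgEquiv.ofAlgHom F G ?_ ?_⟩
  · refine evc_ext _ _ fun i => ?_
    show F (G (evc_e q' i)) = evc_e q' i
    rw [hGE]
    show Algebra.TensorProduct.lift _ _ _ _ = _
    rw [Algebra.TensorProduct.lift_tmul, map_one, one_mul, hgE]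
  · refine Algebra.TensorProduct.ext (Algebra.ext_id_iff.2 trivial) (evc_ext _ _ fun i => ?_)
    show G (F (1 ⊗ₜ[A] evc_e q i)) = 1 ⊗ₜ[A] evc_e q i
    have h5 : F (1 ⊗ₜ[A] evc_e q i) = evc_e q' i := by
      show Algebra.TensorProduct.lift _ _ _ _ = _
      rw [Algebra.TensorProduct.lift_tmul, map_one, one_mul, hgE]
    rw [h5, hGE]

end Pool.Agent.QCT
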