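import Pool.Agent.QCB.KLA
import Pool.Agent.Helper68.KronFin

/-!
# QCT, module KR: residue fields of `R[X]` at nonzero primes

Proof. If `P ∩ R = 0` then `P` contains a nonconstant polynomial, so `Frac (R[X]/P)` is generated over `Frac R` by an
algebraic element: `KLA`. Otherwise `p = P ∩ R ≠ 0`, and `R / p` is a finite field: a nonzero element `x ∈ p` forces every
`y ∈ R / p` to be algebraic over a finite prime field. A finitely generated domain algebraic over a finite field is a
finite field. Then `Frac(R[X]/P)` is generated by a finite field and one element (`Helper68.kron_of_gen`).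
-/

set_option autoImplicit false
set_option linter.style.haveILetI false

namespace Pool.Agent.QCT

open Pool.Agent.QCB Pool.Agent.Helper67.Bass Polynomial

theorem KR_ae {L : Type} [CommRing L] (inst : Algebra ℤ L) (y : L) (f : ℤ[X]) :
    aeval y f = eval₂ (Int.castRingHom L) y f := by
  rw [aeval_def]
  congr 1
  exact RingHom.ext_int _ _

theorem KR_mae {L : Type} [CommRing L] (inst : Algebra ℤ L) (v : Fin 2 → L)
    (f : MvPolynomial (Fin 2) ℤ) :
    MvPolynomial.aeval v f = MvPolynomial.eval₂ (Int.castRingHom L) v f := by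
  rw [MvPolynomial.aeval_def]
  congr 1
  exact RingHom.ext_int _ _

/-- a relation for a nonzero element gives a relation modulo this element -/
theorem KR_rel {A R : Type} [CommRing A] [CommRing R] [IsDomain R] (φ : A →+* R) (x : R)
    (hx : x ≠ 0) (n : ℕ) : ∀ G : A[X], G.natDegree ≤ n → G ≠ 0 → eval₂ φ x G = 0 →
    ∃ c : A, c ≠ 0 ∧ φ c ∈ Ideal.span {x} := by
  have key : ∀ G : A[X], G.coeff 0 ≠ 0 → eval₂ φ x G = 0 →
      ∃ c : A, c ≠ 0 ∧ φ c ∈ Ideal.span {x} := by
    intro G h0 hG
    refine ⟨G.coeff 0, h0, ?_⟩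
    have h1 := congrArg (eval₂ φ x) (divX_mul_X_add G)
    rw [eval₂_add, eval₂_mul, eval₂_X, eval₂_C, hG] at h1
    rw [Ideal.mem_span_singleton]
    refine ⟨-eval₂ φ x G.divX, ?_⟩
    linear_combination h1
  induction n with
  | zero =>
    intro G hd hG0 hG
    by_cases h0 : G.coeff 0 = 0
    · exfalso
      apply hG0
      rw [eq_C_of_natDegree_le_zero hd, h0, C_0]
    · exact key G h0 hG
  | succ n ih =>
    intro G hd hG0 hG
    by_cases h0 : G.coeff 0 = 0
    · have h2 : G = G.divX * X := by
        have h3 := divX_mul_X_add G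
        rw [h0, C_0, add_zero] at h3
        exact h3.symm
      refine ih G.divX ?_ ?_ ?_
      · rw [natDegree_divX_eq_natDegree_tsub_one]
        omega
      · intro h3
        apply hG0
        rw [h2, h3, zero_mul]
      · rw [h2, eval₂_mul, eval₂_X] at hG
        rcases mul_eq_zero.1 hG with h4 | h4
        · exact h4
        · exact absurd h4 hx
    · exact key G h0 hG

/-- a finitely generated domain which is algebraic over a prime field is finite -/
theorem KR_fin {S : Type} [CommRing S] (q : ℕ) [Fact q.Prime] [Algebra (ZMod q) S]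
    (hft : (Int.castRingHom S).FiniteType) [Algebra.IsAlgebraic (ZMod q) S] :
    Finite S := by
  have h1 : Algebra.FiniteType (ZMod q) S := by
    rw [← RingHom.finiteType_algebraMap]
    refine RingHom.FiniteType.of_comp_finiteType (f := Int.castRingHom (ZMod q)) ?_
    rw [RingHom.ext_int ((algebraMap (ZMod q) S).comp (Int.castRingHom (ZMod q)))
      (Int.castRingHom S)]
    exact hft
  have : Algebra.IsIntegral (ZMod q) S := Algebra.IsAlgebraic.isIntegral
  have : Module.Finite (ZMod q) S := Algebra.IsIntegral.finite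
  exact Module.finite_of_finite (ZMod q)

/-- the residue rings at nonzero primes are finite -/
theorem KR_res {R : Type} [CommRing R] [IsDomain R] [Algebra.FiniteType ℤ R]
    (hR : KroneckerLeOne (FractionRing R)) (p : Ideal R) [p.IsPrime] (hp : p ≠ ⊥) :
    Finite (R ⧸ p) := by
  obtain ⟨x, hxp, hx⟩ := Submodule.exists_mem_ne_zero_of_ne_bot hp
  have hinj : Function.Injective (algebraMap R (FractionRing R)) := IsFractionRing.injective _ _
  have hft : (Int.castRingHom (R ⧸ p)).FiniteType := by
    have h1 : (Int.castRingHom R).FiniteType := by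
      rw [← algebraMap_int_eq, RingHom.finiteType_algebraMap]
      infer_instance
    have h2 := h1.comp_surjective (g := Ideal.Quotient.mk p) Ideal.Quotient.mk_surjective
    rw [RingHom.ext_int ((Ideal.Quotient.mk p).comp (Int.castRingHom R))
      (Int.castRingHom (R ⧸ p))] at h2
    exact h2
  have hspan : ∀ z : R, z ∈ Ideal.span {x} → (Ideal.Quotient.mk p z) = 0 := by
    intro z hz
    rw [Ideal.Quotient.eq_zero_iff_mem]
    exact (Ideal.span_le.2 (by
      rintro _ rfl
      exact hxp) : Ideal.span {x} ≤ p) hz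
  rcases hR with hR | ⟨q, hq, hq0, hR⟩
  · -- a nonzero integer is zero in `R / p`
    have hR' : ∀ y : R, ∃ f : ℤ[X], f.IsPrimitive ∧ eval₂ (Int.castRingHom R) y f = 0 := by
      intro y
      obtain ⟨f, hf, hf0⟩ := hR (algebraMap R (FractionRing R) y)
      refine ⟨f, hf, hinj ?_⟩
      have e1 : eval₂ (Int.castRingHom (FractionRing R)) (algebraMap R (FractionRing R) y) f = 0 :=
        (KR_ae _ _ f).symm.trans hf0
      rw [map_zero, hom_eval₂, ← e1]
      congr 1
      exact RingHom.ext_int _ _
    obtain ⟨f, hf, hf0⟩ := hR' x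
    obtain ⟨N, hN, hNx⟩ := KR_rel (Int.castRingHom R) x hx _ f le_rfl hf.ne_zero hf0
    have hN0 : ((N : ℤ) : R ⧸ p) = 0 := by
      have h1 := hspan _ hNx
      rw [eq_intCast, map_intCast] at h1
      exact h1
    obtain ⟨q, hqc⟩ := CharP.exists (R ⧸ p)
    have : CharP (R ⧸ p) q := hqc
    have hq : q.Prime := by
      rcases CharP.char_is_prime_or_zero (R ⧸ p) q with h | h
      · exact h
      · exfalso
        subst h
        have h1 := (CharP.intCast_eq_zero_iff (R ⧸ p) 0 N).1 hN0
        rw [Nat.cast_zero, zero_dvd_iff] at h1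
        exact hN h1
    have : Fact q.Prime := ⟨hq⟩
    letI : Algebra (ZMod q) (R ⧸ p) := ZMod.algebra (R ⧸ p) q
    have : Algebra.IsAlgebraic (ZMod q) (R ⧸ p) := ⟨fun y => by
      obtain ⟨z, rfl⟩ := Ideal.Quotient.mk_surjective y
      obtain ⟨f, hf, hf0⟩ := hR' z
      refine ⟨f.map (Int.castRingHom (ZMod q)), ?_, ?_⟩
      · intro h1
        have h2 : C (q : ℤ) ∣ f := by
          rw [C_dvd_iff_dvd_coeff]
          intro i
          have h3 := congrArg (fun g => g.coeff i) h1
          simp only [coeff_map, coeff_zero, eq_intCast] at h3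
          exact (ZMod.intCast_zmod_eq_zero_iff_dvd _ _).1 h3
        exact (Nat.prime_iff_prime_int.1 hq).not_isUnit (hf _ h2)
      · have h1 := congrArg (Ideal.Quotient.mk p) hf0
        rw [map_zero, hom_eval₂] at h1
        rw [aeval_def, eval₂_map, ← h1]
        congr 1
        exact RingHom.ext_int _ _⟩
    exact KR_fin q hft
  · have hqR : (q : R) = 0 := by
      apply hinj
      rw [map_natCast, map_zero]
      exact hq0
    have : Fact q.Prime := ⟨hq⟩
    have : CharP R q := (CharP.charP_iff_prime_eq_zero hq).2 hqR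
    have : CharP (R ⧸ p) q := (CharP.charP_iff_prime_eq_zero hq).2 (by
      rw [← map_natCast (Ideal.Quotient.mk p), hqR, map_zero])
    letI : Algebra (ZMod q) R := ZMod.algebra R q
    letI : Algebra (ZMod q) (R ⧸ p) := ZMod.algebra (R ⧸ p) q
    have : Algebra.IsAlgebraic (ZMod q) (R ⧸ p) := ⟨fun y => by
      obtain ⟨z, rfl⟩ := Ideal.Quotient.mk_surjective y
      obtain ⟨F, hF, hF0⟩ := hR (algebraMap R (FractionRing R) x) (algebraMap R (FractionRing R) z)
      obtain ⟨F', hF'⟩ : ∃ F', F' = MvPolynomial.map (Int.castRingHom (ZMod q)) F := ⟨_, rfl⟩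
      have hF'0 : F' ≠ 0 := by
        intro h1
        apply hF
        rw [MvPolynomial.C_dvd_iff_map_hom_eq_zero (Int.castRingHom (ZMod q)) (q : ℤ)]
        · rw [← hF', h1]
        · intro a
          rw [eq_intCast]
          exact ZMod.intCast_zmod_eq_zero_iff_dvd a q
      have hev : MvPolynomial.eval₂ (algebraMap (ZMod q) R) ![x, z] F' = 0 := by
        apply hinj
        rw [hF', MvPolynomial.eval₂_map, map_zero]
        have h1 : algebraMap R (FractionRing R) (MvPolynomial.eval₂
            ((algebraMap (ZMod q) R).comp (Int.castRingHom (ZMod q))) ![x, z] F) =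
            MvPolynomial.eval₂ ((algebraMap R (FractionRing R)).comp
              ((algebraMap (ZMod q) R).comp (Int.castRingHom (ZMod q))))
              (algebraMap R (FractionRing R) ∘ ![x, z]) F := MvPolynomial.eval₂_comp_left _ _ _ _
        have e1 : MvPolynomial.eval₂ (Int.castRingHom (FractionRing R))
            ![algebraMap R (FractionRing R) x, algebraMap R (FractionRing R) z] F = 0 :=
          (KR_mae _ _ F).symm.trans hF0
        have h2 : algebraMap R (FractionRing R) ∘ ![x, z] =
            ![algebraMap R (FractionRing R) x, algebraMap R (FractionRing R) z] := by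
          funext i
          fin_cases i <;> rfl
        rw [h1, h2, ← e1]
        congr 1
        exact RingHom.ext_int _ _
      obtain ⟨φ, hφ⟩ : ∃ φ : MvPolynomial (Fin 1) (ZMod q) →+* R,
          φ = MvPolynomial.eval₂Hom (algebraMap (ZMod q) R) ![z] := ⟨_, rfl⟩
      have hcomp : ((Polynomial.eval₂RingHom φ x).comp
          (MvPolynomial.finSuccEquiv (ZMod q) 1 : MvPolynomial (Fin 2) (ZMod q) →+*
            (MvPolynomial (Fin 1) (ZMod q))[X])) =
          MvPolynomial.eval₂Hom (algebraMap (ZMod q) R) ![x, z] := by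
        apply MvPolynomial.ringHom_ext
        · intro a
          show eval₂ φ x (MvPolynomial.finSuccEquiv (ZMod q) 1 (MvPolynomial.C a)) =
            MvPolynomial.eval₂ (algebraMap (ZMod q) R) ![x, z] (MvPolynomial.C a)
          have h1 : MvPolynomial.finSuccEquiv (ZMod q) 1 (MvPolynomial.C a) =
            C (MvPolynomial.C a) := (MvPolynomial.finSuccEquiv (ZMod q) 1).commutes a
          rw [h1, eval₂_C, hφ, MvPolynomial.eval₂_C]
          exact MvPolynomial.eval₂_C _ _ _
        · intro i
          fin_cases i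
          · show eval₂ φ x (MvPolynomial.finSuccEquiv (ZMod q) 1 (MvPolynomial.X 0)) =
              MvPolynomial.eval₂ (algebraMap (ZMod q) R) ![x, z] (MvPolynomial.X 0)
            rw [MvPolynomial.finSuccEquiv_X_zero, eval₂_X, MvPolynomial.eval₂_X]
            rfl
          · show eval₂ φ x (MvPolynomial.finSuccEquiv (ZMod q) 1 (MvPolynomial.X (Fin.succ 0))) =
              MvPolynomial.eval₂ (algebraMap (ZMod q) R) ![x, z] (MvPolynomial.X 1)
            rw [MvPolynomial.finSuccEquiv_X_succ, eval₂_C, hφ, MvPolynomial.eval₂_X]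
            exact MvPolynomial.eval₂_X _ _ _
      have hG : eval₂ φ x (MvPolynomial.finSuccEquiv (ZMod q) 1 F') = 0 := by
        have h1 := congrArg (fun h => h F') hcomp
        exact h1.trans hev
      have hG0 : MvPolynomial.finSuccEquiv (ZMod q) 1 F' ≠ 0 := by
        intro h1
        exact hF'0 ((MvPolynomial.finSuccEquiv (ZMod q) 1).injective (by rw [h1, map_zero]))
      obtain ⟨c, hc0, hc⟩ := KR_rel φ x hx _ _ le_rfl hG0 hG
      have h2 := hspan _ hc
      by_contra htr
      have h3 : AlgebraicIndependent (ZMod q) ![Ideal.Quotient.mk p z] :=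
        algebraicIndependent_unique_type_iff.2 htr
      apply hc0
      apply (injective_iff_map_eq_zero _).1 h3 c
      rw [← h2, hφ]
      have h4 : Ideal.Quotient.mk p (MvPolynomial.eval₂ (algebraMap (ZMod q) R) ![z] c) =
            MvPolynomial.eval₂ ((Ideal.Quotient.mk p).comp (algebraMap (ZMod q) R))
              (Ideal.Quotient.mk p ∘ ![z]) c := MvPolynomial.eval₂_comp_left _ _ _ _
      have h5 : Ideal.Quotient.mk p ∘ ![z] = ![Ideal.Quotient.mk p z] := by
        funext i
        fin_cases i
        rfl
      have h6 : (Ideal.Quotient.mk p).comp (algebraMap (ZMod q) R) =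
          algebraMap (ZMod q) (R ⧸ p) := RingHom.ext_zmod _ _
      rw [h5, h6] at h4
      exact h4.symm⟩
    exact KR_fin q hft

theorem KR {R : Type} [CommRing R] [IsDomain R] [Algebra.FiniteType ℤ R]
    (hR : KroneckerLeOne (FractionRing R)) (P : Ideal R[X]) [P.IsPrime] (hP : P ≠ ⊥) :
    KroneckerLeOne (FractionRing (R[X] ⧸ P)) := by
  obtain ⟨p, hp⟩ : ∃ p : Ideal R, p = P.comap C := ⟨_, rfl⟩
  have hpp : p.IsPrime := by rw [hp]; exact Ideal.IsPrime.comap C
  by_cases hp0 : p = ⊥
  · -- algebraic over the fraction field of `R`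
    have hker : ∀ a : R, algebraMap R (R[X] ⧸ P) a = 0 → a = 0 := by
      intro a ha
      have h1 : a ∈ p := by
        rw [hp, Ideal.mem_comap]
        exact Ideal.Quotient.eq_zero_iff_mem.1 ha
      rw [hp0] at h1
      exact h1
    have hinj : Function.Injective (algebraMap R (FractionRing (R[X] ⧸ P))) := by
      rw [injective_iff_map_eq_zero]
      intro a ha
      apply hker
      apply IsFractionRing.injective (R[X] ⧸ P) (FractionRing (R[X] ⧸ P))
      rw [map_zero, ← ha]
      exact (IsScalarTower.algebraMap_apply R (R[X] ⧸ P) (FractionRing (R[X] ⧸ P)) a).symm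
    have : FaithfulSMul R (FractionRing (R[X] ⧸ P)) :=
      (faithfulSMul_iff_algebraMap_injective _ _).2 hinj
    letI : Algebra (FractionRing R) (FractionRing (R[X] ⧸ P)) := FractionRing.liftAlgebra R _
    have : IsScalarTower R (FractionRing R) (FractionRing (R[X] ⧸ P)) :=
      FractionRing.isScalarTower_liftAlgebra R _
    obtain ⟨t, ht⟩ : ∃ t : FractionRing (R[X] ⧸ P), t =
        algebraMap (R[X] ⧸ P) (FractionRing (R[X] ⧸ P)) (Ideal.Quotient.mk P X) := ⟨_, rfl⟩
    have hev : ∀ f : R[X], aeval t f =
        algebraMap (R[X] ⧸ P) (FractionRing (R[X] ⧸ P)) (Ideal.Quotient.mk P f) := by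
      intro f
      rw [ht, aeval_algebraMap_apply]
      congr 1
      have h1 := aeval_algHom_apply (Ideal.Quotient.mkₐ R P) X f
      rw [aeval_X_left_apply] at h1
      exact h1
    have halg : IsAlgebraic (FractionRing R) t := by
      obtain ⟨f, hf, hf0⟩ := Submodule.exists_mem_ne_zero_of_ne_bot hP
      refine ⟨f.map (algebraMap R (FractionRing R)), ?_, ?_⟩
      · intro h1
        exact hf0 (map_injective _ (IsFractionRing.injective R (FractionRing R))
          (by rw [h1, Polynomial.map_zero]))
      · rw [aeval_map_algebraMap, hev, Ideal.Quotient.eq_zero_iff_mem.2 hf, map_zero]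
    have : Algebra.IsAlgebraic (FractionRing R) (FractionRing (R[X] ⧸ P)) := ⟨fun z => by
      obtain ⟨u, v, hv, rfl⟩ := IsFractionRing.div_surjective (A := R[X] ⧸ P) z
      obtain ⟨f, rfl⟩ := Ideal.Quotient.mk_surjective u
      obtain ⟨g, rfl⟩ := Ideal.Quotient.mk_surjective v
      rw [← hev, ← hev]
      have hmem : ∀ f : R[X], aeval t f ∈
          algebraicClosure (FractionRing R) (FractionRing (R[X] ⧸ P)) := by
        intro f
        have h1 : aeval t f = aeval t (f.map (algebraMap R (FractionRing R))) := by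
          rw [aeval_map_algebraMap]
        rw [h1]
        have h2 := aeval_algHom_apply
          (algebraicClosure (FractionRing R) (FractionRing (R[X] ⧸ P))).val
          ⟨t, mem_algebraicClosure_iff.2 halg⟩ (f.map (algebraMap R (FractionRing R)))
        have h3 : (algebraicClosure (FractionRing R) (FractionRing (R[X] ⧸ P))).val
          ⟨t, mem_algebraicClosure_iff.2 halg⟩ = t := rfl
        rw [h3] at h2
        rw [h2]
        exact Subtype.property _
      exact mem_algebraicClosure_iff.1 (div_mem (hmem f) (hmem g))⟩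
    exact KLA hR
  · have hfin := KR_res hR p hp0
    have hfield : IsField (R ⧸ p) := Finite.isField_of_domain (R ⧸ p)
    have hmax : p.IsMaximal := Ideal.Quotient.maximal_of_isField p hfield
    letI := Ideal.Quotient.field p
    obtain ⟨ψ, hψ⟩ : ∃ ψ : R ⧸ p →+* R[X] ⧸ P, ∀ a, ψ (Ideal.Quotient.mk p a) =
        Ideal.Quotient.mk P (C a) :=
      ⟨Ideal.quotientMap P C (le_of_eq hp), fun a => Ideal.quotientMap_mk⟩
    letI : Algebra (R ⧸ p) (R[X] ⧸ P) := ψ.toAlgebra
    refine Helper68.kron_of_gen (R ⧸ p) (R[X] ⧸ P) (Ideal.Quotient.mk P X) fun y => ?_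
    obtain ⟨f, rfl⟩ := Ideal.Quotient.mk_surjective y
    refine ⟨f.map (Ideal.Quotient.mk p), ?_⟩
    rw [aeval_def, eval₂_map]
    have h1 : (algebraMap (R ⧸ p) (R[X] ⧸ P)).comp (Ideal.Quotient.mk p) =
        (Ideal.Quotient.mk P).comp C := RingHom.ext fun a => hψ a
    rw [h1, ← hom_eval₂, eval₂_C_X]

end Pool.Agent.QCT
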