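import Pool.Agent.TQF.StN
import Pool.Agent.QCB.DXS
import Pool.Agent.QCB.GLOC

/-!
# QCT, module LPID: quaternion orders over curves become left principal ideal rings

Proof. `K = FractionRing R`; if `R` is finite it is a field, and `ℍ[R,a,b]` with anisotropic norm is a division ring. Otherwise
`D = ℍ[K,a,b]` with anisotropic norm (clear denominators) is a division ring (`star x / nrm x`), finite dimensional over `K`. `OrdH R K`
(`St_OrdG` with `St_Glob`, or `St_OrdF`) gives an order `Δ` and `s`. `Γ ⊆ D`, the elements with all coordinates in `R`, is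
another order: `St_LocC` gives `t` with `locA Γ s' = locA Δ s'` for multiples of `t`; for `s'` a multiple of `s t` every left ideal of
`locA Δ s'` is principal (proof of `St_LocP`), and `locA Γ s' ≅ ℍ[R_s',a,b]`.
-/

set_option autoImplicit false

namespace Pool.Agent.QCT

open Pool.Agent.TQF Pool.Agent.QCB Function Quaternion Pool.Agent.Helper67.Bass

/-- `OrdH` for a ring all of whose nonzero elements are units -/
theorem LPID_ord {A K : Type} [CommRing A] [Field K] [Algebra A K] (hO : OrdH A K) (D : Type)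
    [iR : Ring D] [Nontrivial D] [Algebra A D] [Algebra K D] [IsScalarTower A K D]
    [FiniteDimensional K D] (hD : ∀ x : D, IsUnit x ∨ x = 0) :
    ∃ Δ : Subalgebra A D, (Subalgebra.toSubmodule Δ).FG ∧ (∀ x : D, ∃ a : A, a ≠ 0 ∧ a • x ∈ Δ) ∧
      ∃ s : A, s ≠ 0 ∧ ∀ I : Ideal Δ, ∃ a ∈ I, ∀ b ∈ I, ∃ n : ℕ, s ^ n • b ∈ Ideal.span {a} := by
  let _ : DivisionRing D := DivisionRing.ofIsUnitOrEqZero hD
  exact hO D

/-- an order becomes a principal left ideal ring -/
theorem LPID_pid {A D : Type} [CommRing A] [Ring D] [Algebra A D] (Δ : Subalgebra A D) (s r : A)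
    (hsr : s ∣ r) (hr : IsUnit (algebraMap A D r))
    (hI : ∀ I : Ideal Δ, ∃ a ∈ I, ∀ b ∈ I, ∃ n : ℕ, s ^ n • b ∈ Ideal.span {a})
    {Λ : Type} [Ring Λ] (ψ : Λ →+* D) (hψ : Injective ψ)
    (hran : ∀ x : D, (∃ y, ψ y = x) ↔ x ∈ locA Δ r) : IsPrincipalIdealRing Λ := by
  refine ⟨fun J => ?_⟩
  let I : Ideal Δ :=
    { carrier := {x | ∃ y ∈ J, ψ y = x}
      zero_mem' := ⟨0, J.zero_mem, by simp⟩
      add_mem' := by
        rintro x x' ⟨y, hy, h⟩ ⟨y', hy', h'⟩
        exact ⟨y + y', J.add_mem hy hy', by rw [map_add, h, h']; rfl⟩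
      smul_mem' := by
        rintro c x ⟨y, hy, h⟩
        obtain ⟨z, hz⟩ := (hran (c : D)).2 ⟨0, by rw [pow_zero, one_smul]; exact c.2⟩
        exact ⟨z * y, J.mul_mem_left z hy, by rw [map_mul, h, hz]; rfl⟩ }
  obtain ⟨a, ⟨α, hα, ha⟩, hmul⟩ := hI I
  refine ⟨α, le_antisymm ?_ ?_⟩
  · intro x hx
    -- x ∈ J
    obtain ⟨n, hn⟩ := (hran (ψ x)).1 ⟨x, rfl⟩
    -- r ^ n • ψ x ∈ Δ; it is the image of an element of J
    obtain ⟨ρ, hρ⟩ := (hran (algebraMap A D r)).2 ⟨0, by
      rw [pow_zero, one_smul]; exact Δ.algebraMap_mem r⟩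
    have hb : (⟨r ^ n • ψ x, hn⟩ : Δ) ∈ I := ⟨ρ ^ n * x, J.mul_mem_left _ hx, by
      rw [map_mul, map_pow, hρ, ← map_pow, ← Algebra.smul_def]⟩
    obtain ⟨m, hm⟩ := hmul _ hb
    obtain ⟨c, hc⟩ := Ideal.mem_span_singleton'.1 hm
    -- c * a = s ^ m • (r ^ n • ψ x)
    have hc' : (c : D) * ψ α = s ^ m • (r ^ n • ψ x) := by
      rw [ha]
      exact congrArg Subtype.val hc
    obtain ⟨k, rfl⟩ := hsr
    -- multiply by k ^ m
    have h2 : (s * k) ^ (m + n) • ψ x = (k ^ m • (c : D)) * ψ α := by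
      rw [smul_mul_assoc, hc', smul_smul, smul_smul]
      congr 1
      ring
    obtain ⟨u, hu⟩ := hr
    have hinv : ∃ y, ψ y = ((u⁻¹ ^ (m + n) : Dˣ) : D) * (k ^ m • (c : D)) := by
      rw [hran]
      refine ⟨m + n, ?_⟩
      have : (s * k) ^ (m + n) • (((u⁻¹ ^ (m + n) : Dˣ) : D) * (k ^ m • (c : D))) =
          k ^ m • (c : D) := by
        rw [Algebra.smul_def, ← mul_assoc, map_pow, ← hu, ← Units.val_pow_eq_pow_val,
          ← Units.val_mul, inv_pow, mul_inv_cancel, Units.val_one, one_mul]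
      rw [this]
      exact Δ.smul_mem c.2 _
    obtain ⟨y, hy⟩ := hinv
    refine Submodule.mem_span_singleton.2 ⟨y, ?_⟩
    apply hψ
    rw [smul_eq_mul, map_mul, hy, mul_assoc, ← h2, Algebra.smul_def, ← mul_assoc, map_pow, ← hu,
      ← Units.val_pow_eq_pow_val, ← Units.val_mul, inv_pow, inv_mul_cancel, Units.val_one,
      one_mul]
  · rw [Submodule.span_singleton_le_iff_mem]
    exact hα


/-- the homomorphism of quaternion algebras along a ring homomorphism -/
def LPIDmap {S K : Type} [CommRing S] [CommRing K] (f : S →+* K) {a b : S} {a' b' : K}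
    (ha : f a = a') (hb : f b = b') : ℍ[S,a,b] →+* ℍ[K,a',b'] where
  toFun x := ⟨f x.re, f x.imI, f x.imJ, f x.imK⟩
  map_one' := by ext <;> simp
  map_mul' x y := by subst ha hb; ext <;> simp
  map_zero' := by ext <;> simp
  map_add' x y := by ext <;> simp

theorem LPIDmap_apply {S K : Type} [CommRing S] [CommRing K] (f : S →+* K) {a b : S} {a' b' : K}
    (ha : f a = a') (hb : f b = b') (x : ℍ[S,a,b]) :
    LPIDmap f ha hb x = ⟨f x.re, f x.imI, f x.imJ, f x.imK⟩ := rfl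

theorem LPIDmap_inj {S K : Type} [CommRing S] [CommRing K] (f : S →+* K) {a b : S} {a' b' : K}
    (ha : f a = a') (hb : f b = b') (hf : Injective f) : Injective (LPIDmap f ha hb) := by
  intro x y h
  rw [LPIDmap_apply, LPIDmap_apply] at h
  ext
  · exact hf (congrArg QuaternionAlgebra.re h)
  · exact hf (congrArg QuaternionAlgebra.imI h)
  · exact hf (congrArg QuaternionAlgebra.imJ h)
  · exact hf (congrArg QuaternionAlgebra.imK h)

section clear

variable {R K : Type} [CommRing R] [IsDomain R] [Field K] [Algebra R K] [IsFractionRing R K]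
  (a b : R)

/-- denominators -/
theorem LPID_den (x : ℍ[K,algebraMap R K a,algebraMap R K b]) :
    ∃ d : R, d ≠ 0 ∧ ∃ z : ℍ[R,a,b], GLOCphi K a b z = d • x := by
  have h : ∀ c : K, ∃ d : R, d ≠ 0 ∧ ∃ z : R, algebraMap R K z = d • c := by
    intro c
    obtain ⟨⟨z, d⟩, h⟩ := IsLocalization.surj (nonZeroDivisors R) c
    refine ⟨d, nonZeroDivisors.ne_zero d.2, z, ?_⟩
    rw [Algebra.smul_def, mul_comm]
    exact h.symm
  obtain ⟨d0, hd0, z0, h0⟩ := h x.re
  obtain ⟨d1, hd1, z1, h1⟩ := h x.imI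
  obtain ⟨d2, hd2, z2, h2⟩ := h x.imJ
  obtain ⟨d3, hd3, z3, h3⟩ := h x.imK
  refine ⟨d0 * d1 * d2 * d3, by simp [hd0, hd1, hd2, hd3],
    ⟨d1 * d2 * d3 * z0, d0 * d2 * d3 * z1, d0 * d1 * d3 * z2, d0 * d1 * d2 * z3⟩, ?_⟩
  rw [GLOCphi_apply]
  rw [Algebra.smul_def] at h0 h1 h2 h3
  ext
  · rw [QuaternionAlgebra.re_smul, Algebra.smul_def]; simp only [map_mul, h0]; ring
  · rw [QuaternionAlgebra.imI_smul, Algebra.smul_def]; simp only [map_mul, h1]; ring
  · rw [QuaternionAlgebra.imJ_smul, Algebra.smul_def]; simp only [map_mul, h2]; ring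
  · rw [QuaternionAlgebra.imK_smul, Algebra.smul_def]; simp only [map_mul, h3]; ring

omit [IsDomain R] [IsFractionRing R K] in
theorem LPID_nrm (z : ℍ[R,a,b]) : nrm (GLOCphi K a b z) = algebraMap R K (nrm z) := by
  rw [GLOCphi_apply]
  simp [nrm]

omit [IsDomain R] [IsFractionRing R K] in
theorem LPID_smul (d : R) (x : ℍ[K,algebraMap R K a,algebraMap R K b]) :
    d • x = (algebraMap R K d) • x := (algebraMap_smul K d x).symm

theorem LPID_aniso (h : ∀ z : ℍ[R,a,b], nrm z = 0 → z = 0)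
    (x : ℍ[K,algebraMap R K a,algebraMap R K b]) (hx : nrm x = 0) : x = 0 := by
  obtain ⟨d, hd, z, hz⟩ := LPID_den (K := K) a b x
  have h1 : algebraMap R K (nrm z) = 0 := by
    rw [← LPID_nrm, hz, LPID_smul, nrm_smul, hx, mul_zero]
  have h2 : nrm z = 0 := (map_eq_zero_iff _ (IsFractionRing.injective R K)).1 h1
  rw [h z h2, map_zero, LPID_smul] at hz
  have h3 : algebraMap R K d ≠ 0 := by
    rw [Ne, map_eq_zero_iff _ (IsFractionRing.injective R K)]; exact hd
  exact ((smul_eq_zero_iff_right h3).1 hz.symm)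

theorem LPID_unit (h : ∀ z : ℍ[R,a,b], nrm z = 0 → z = 0)
    (x : ℍ[K,algebraMap R K a,algebraMap R K b]) : IsUnit x ∨ x = 0 := by
  by_cases hx : nrm x = 0
  · right; exact LPID_aniso a b h x hx
  · left
    refine ⟨⟨x, (nrm x)⁻¹ • star x, ?_, ?_⟩, rfl⟩
    · rw [mul_smul_comm, mul_star_self', Algebra.algebraMap_eq_smul_one (nrm x), smul_smul,
        inv_mul_cancel₀ hx, one_smul]
    · rw [smul_mul_assoc, star_mul_self', Algebra.algebraMap_eq_smul_one (nrm x), smul_smul,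
        inv_mul_cancel₀ hx, one_smul]


omit [IsDomain R] in
/-- coordinates in a localization -/
theorem LPID_coord (r : R) (S : Type) [CommRing S] [Algebra R S] [IsLocalization.Away r S]
    (σ : S →+* K) (hσ : ∀ x, σ (algebraMap R S x) = algebraMap R K x) (hr : r ≠ 0) (c : K) :
    (∃ y, σ y = c) ↔ ∃ (n : ℕ) (z : R), algebraMap R K z = r ^ n • c := by
  have hr' : algebraMap R K r ≠ 0 := by
    rw [Ne, map_eq_zero_iff _ (IsFractionRing.injective R K)]; exact hr
  constructor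
  · rintro ⟨y, rfl⟩
    obtain ⟨n, z, hz⟩ := IsLocalization.Away.surj r y
    refine ⟨n, z, ?_⟩
    rw [← hσ, ← hz, map_mul, map_pow, hσ, Algebra.smul_def, map_pow, mul_comm]
  · rintro ⟨n, z, hz⟩
    obtain ⟨u, hu⟩ := IsLocalization.Away.algebraMap_isUnit (S := S) r
    refine ⟨algebraMap R S z * ((u⁻¹ ^ n : Sˣ) : S), ?_⟩
    have h1 : σ ((u⁻¹ ^ n : Sˣ) : S) * algebraMap R K r ^ n = 1 := by
      rw [← hσ, ← map_pow, ← map_mul, ← hu, ← Units.val_pow_eq_pow_val, ← Units.val_mul, inv_pow,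
        inv_mul_cancel, Units.val_one, map_one]
    rw [map_mul, hσ, hz, Algebra.smul_def, map_pow]
    calc algebraMap R K r ^ n * c * σ ((u⁻¹ ^ n : Sˣ) : S)
        = (σ ((u⁻¹ ^ n : Sˣ) : S) * algebraMap R K r ^ n) * c := by ring
      _ = c := by rw [h1, one_mul]

omit [IsDomain R] in
theorem LPID_loc (r : R) (S : Type) [CommRing S] [Algebra R S] [IsLocalization.Away r S]
    (σ : S →+* K) (hσ : ∀ x, σ (algebraMap R S x) = algebraMap R K x) (hr : r ≠ 0)
    (x : ℍ[K,algebraMap R K a,algebraMap R K b]) :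
    (∃ y, LPIDmap σ (hσ a) (hσ b) y = x) ↔ x ∈ locA (GLOCphi K a b).range r := by
  constructor
  · rintro ⟨y, rfl⟩
    obtain ⟨n0, z0, h0⟩ := (LPID_coord r S σ hσ hr (σ y.re)).1 ⟨_, rfl⟩
    obtain ⟨n1, z1, h1⟩ := (LPID_coord r S σ hσ hr (σ y.imI)).1 ⟨_, rfl⟩
    obtain ⟨n2, z2, h2⟩ := (LPID_coord r S σ hσ hr (σ y.imJ)).1 ⟨_, rfl⟩
    obtain ⟨n3, z3, h3⟩ := (LPID_coord r S σ hσ hr (σ y.imK)).1 ⟨_, rfl⟩
    refine ⟨n0 + n1 + n2 + n3, ⟨r ^ (n1 + n2 + n3) * z0, r ^ (n0 + n2 + n3) * z1,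
      r ^ (n0 + n1 + n3) * z2, r ^ (n0 + n1 + n2) * z3⟩, ?_⟩
    show GLOCphi K a b _ = _
    rw [GLOCphi_apply, LPIDmap_apply]
    rw [Algebra.smul_def] at h0 h1 h2 h3
    ext
    · rw [QuaternionAlgebra.re_smul, Algebra.smul_def]; simp only [map_mul, map_pow, h0]; ring
    · rw [QuaternionAlgebra.imI_smul, Algebra.smul_def]; simp only [map_mul, map_pow, h1]; ring
    · rw [QuaternionAlgebra.imJ_smul, Algebra.smul_def]; simp only [map_mul, map_pow, h2]; ring
    · rw [QuaternionAlgebra.imK_smul, Algebra.smul_def]; simp only [map_mul, map_pow, h3]; ring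
  · rintro ⟨n, z, hz⟩
    have hz' : GLOCphi K a b z = r ^ n • x := hz
    rw [GLOCphi_apply] at hz'
    obtain ⟨y0, h0⟩ := (LPID_coord r S σ hσ hr x.re).2 ⟨n, z.re, by
      have := congrArg QuaternionAlgebra.re hz'
      rwa [QuaternionAlgebra.re_smul] at this⟩
    obtain ⟨y1, h1⟩ := (LPID_coord r S σ hσ hr x.imI).2 ⟨n, z.imI, by
      have := congrArg QuaternionAlgebra.imI hz'
      rwa [QuaternionAlgebra.imI_smul] at this⟩
    obtain ⟨y2, h2⟩ := (LPID_coord r S σ hσ hr x.imJ).2 ⟨n, z.imJ, by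
      have := congrArg QuaternionAlgebra.imJ hz'
      rwa [QuaternionAlgebra.imJ_smul] at this⟩
    obtain ⟨y3, h3⟩ := (LPID_coord r S σ hσ hr x.imK).2 ⟨n, z.imK, by
      have := congrArg QuaternionAlgebra.imK hz'
      rwa [QuaternionAlgebra.imK_smul] at this⟩
    refine ⟨⟨y0, y1, y2, y3⟩, ?_⟩
    rw [LPIDmap_apply]
    ext
    · exact h0
    · exact h1
    · exact h2
    · exact h3

end clear

theorem LPID (hC : St_LocC) (R : Type) [CommRing R] [IsDomain R] [Algebra.FiniteType ℤ R]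
    (hO : OrdH R (FractionRing R)) (h2 : (2 : R) ≠ 0) : LeftPID R := by
  have _ := h2
  intro a b _ _ haniso
  obtain ⟨Δ, hΔ, hΔd, s, hs, hI⟩ := LPID_ord hO
    ℍ[FractionRing R,algebraMap R (FractionRing R) a,algebraMap R (FractionRing R) b]
    (LPID_unit a b haniso)
  have hΓ : (Subalgebra.toSubmodule (GLOCphi (FractionRing R) a b).range).FG := by
    have : Module.Finite R ℍ[R,a,b] := inferInstance
    have h := Module.Finite.fg_top (R := R) (M := ℍ[R,a,b])
    have h' := h.map (GLOCphi (FractionRing R) a b).toLinearMap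
    rw [Submodule.map_top] at h'
    exact h'
  have hΓd : ∀ x : ℍ[FractionRing R,algebraMap R (FractionRing R) a,
      algebraMap R (FractionRing R) b], ∃ c : R, c ≠ 0 ∧
        c • x ∈ (GLOCphi (FractionRing R) a b).range := by
    intro x
    obtain ⟨d, hd, z, hz⟩ := LPID_den a b x
    exact ⟨d, hd, z, hz⟩
  obtain ⟨t, ht, hst⟩ := hC R _ (GLOCphi (FractionRing R) a b).range Δ hΓ hΔ hΓd hΔd
  refine ⟨s * t, mul_ne_zero hs ht, fun r' hr' hdvd => ?_⟩
  have hru : IsUnit (algebraMap R (FractionRing R) r') := by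
    rw [isUnit_iff_ne_zero, Ne, map_eq_zero_iff _ (IsFractionRing.injective R _)]
    exact hr'
  have hσ : ∀ x, IsLocalization.Away.lift (S := Localization.Away r') r' hru
      (algebraMap R (Localization.Away r') x) = algebraMap R (FractionRing R) x :=
    fun x => IsLocalization.Away.lift_eq r' hru x
  refine LPID_pid Δ s r' ((Dvd.intro _ rfl).trans hdvd) ?_ hI
    (LPIDmap (IsLocalization.Away.lift r' hru) (hσ a) (hσ b)) (LPIDmap_inj _ _ _ ?_) ?_
  · rw [IsScalarTower.algebraMap_apply R (FractionRing R)]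
    exact hru.map (algebraMap (FractionRing R) _)
  · rw [injective_iff_map_eq_zero]
    intro y hy
    obtain ⟨n, z, hz⟩ := IsLocalization.Away.surj r' y
    have h1 : algebraMap R (FractionRing R) z = 0 := by
      rw [← hσ, ← hz, map_mul, hy, zero_mul]
    have h2 : z = 0 := (map_eq_zero_iff _ (IsFractionRing.injective R _)).1 h1
    rw [h2, map_zero] at hz
    have h3 := (IsLocalization.Away.algebraMap_isUnit (S := Localization.Away r') r').pow n
    exact (h3.mul_left_eq_zero).1 hz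
  · intro x
    rw [← hst r' ((Dvd.intro_left _ rfl).trans hdvd)]
    exact LPID_loc a b r' (Localization.Away r') _ hσ hr' x

end Pool.Agent.QCT
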