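import Pool.Agent.QCT.TOPV
import Pool.Agent.QCT.KR
import Pool.Agent.QCT.LPID
import Pool.Agent.HPow.Loc

/-!
# QCT, module FIN: the theorem

Proof. `R` finite: `R` is a finite field (`Kt` of `TQF/StT.lean`) and `St_Ta` applies to `R[X]`. `R` infinite: let `x`, `V` be as in `TOPV`
(`hL` from `LPID`). `B = R[X][y]/(f)`. `GoodP.of_away` (`HPow/Loc.lean`, with `p = 1`; `GoodP 1 B` is `AddGroup.FG (G0 B)`) for the class of
`C x`: the localisation of `B` is `V[y]/(f)` (as in `St_Loc`); `B / (C x) ≅ (R[X]/(x))[y]/(f)` is `FinGn` by `St_Ta` for the ring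
`R[X]/(x)`, all of whose residue fields have Kronecker dimension at most one by `KR` (`x ≠ 0`;
`(R[X]/(x))/P' ≅ R[X]/P`). In the ternary case the hypothesis follows from `TER`.
-/

set_option autoImplicit false
set_option linter.style.haveILetI false

namespace Pool.Agent.QCT

open Pool.Agent.TQF Pool.Agent.QCB Function TensorProduct MvPolynomial Pool.Agent.Helper11
open Pool.Agent.Helper67.Bass

theorem FIN_fg {B : Type} [CommRing B] : Pool.Agent.HPow.GoodP 1 B ↔ AddGroup.FG (G0 B) := by
  constructor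
  · rintro ⟨Γ, hΓ, e, he⟩
    have h1 : Γ = ⊤ := by
      rw [eq_top_iff]
      intro x _
      have := he x
      rwa [one_pow, one_smul] at this
    rw [h1] at hΓ
    exact ⟨hΓ⟩
  · rintro ⟨h⟩
    exact ⟨⊤, h, 0, fun x => AddSubgroup.mem_top _⟩

section general

variable {A : Type} [CommRing A]

attribute [local instance] MvPolynomial.algebraMvPolynomial in
/-- localisation of a hypersurface -/
theorem FIN_loc {V : Type} [CommRing V] [Algebra A V] (x : A) [IsLocalization.Away x V] (n : ℕ)
    (f : MvPolynomial (Fin n) A) :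
    ∃ _ : Algebra (MvPolynomial (Fin n) A ⧸ Ideal.span {f})
      (MvPolynomial (Fin n) V ⧸ Ideal.span {MvPolynomial.map (algebraMap A V) f}),
      IsLocalization.Away (Ideal.Quotient.mk (Ideal.span {f}) (C x))
        (MvPolynomial (Fin n) V ⧸ Ideal.span {MvPolynomial.map (algebraMap A V) f}) := by
  have hle : Ideal.span {f} ≤ (Ideal.span {MvPolynomial.map (algebraMap A V) f}).comap
      (MvPolynomial.map (algebraMap A V)) := by
    rw [Ideal.span_singleton_le_iff_mem, Ideal.mem_comap]
    exact Ideal.mem_span_singleton_self _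
  letI alg : Algebra (MvPolynomial (Fin n) A ⧸ Ideal.span {f})
      (MvPolynomial (Fin n) V ⧸ Ideal.span {MvPolynomial.map (algebraMap A V) f}) :=
    (Ideal.quotientMap _ (MvPolynomial.map (algebraMap A V)) hle).toAlgebra
  refine ⟨alg, ?_⟩
  haveI h1 : IsLocalization ((Submonoid.powers x).map (C : A →+* MvPolynomial (Fin n) A))
      (MvPolynomial (Fin n) V) := MvPolynomial.isLocalization (Submonoid.powers x) V
  have h2 := IsLocalization.of_surjective
    (M := (Submonoid.powers x).map (C : A →+* MvPolynomial (Fin n) A))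
    (S := MvPolynomial (Fin n) V) (Ideal.Quotient.mk (Ideal.span {f}))
    Ideal.Quotient.mk_surjective
    (Ideal.Quotient.mk (Ideal.span {MvPolynomial.map (algebraMap A V) f}))
    Ideal.Quotient.mk_surjective rfl (by
      rw [Ideal.mk_ker, Ideal.mk_ker, Ideal.map_span, Set.image_singleton]
      exact le_refl _)
  rw [Submonoid.map_powers, Submonoid.map_powers] at h2
  exact h2
theorem FIN_E (I : Ideal A) (n : ℕ) (f : MvPolynomial (Fin n) A) :
    (MvPolynomial.quotientEquivQuotientMvPolynomial (σ := Fin n) I).symm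
      (Ideal.Quotient.mk (I.map C) f) = MvPolynomial.map (Ideal.Quotient.mk I) f := by
  rw [AlgEquiv.symm_apply_eq]
  induction f using MvPolynomial.induction_on with
  | C a =>
    rw [map_C]
    simp [quotientEquivQuotientMvPolynomial]
  | add p q hp hq => rw [map_add, map_add, map_add, hp, hq]
  | mul_X p i hp =>
    rw [map_mul, map_mul, map_mul, hp, map_X]
    congr 1
    simp [quotientEquivQuotientMvPolynomial]

/-- quotient of a hypersurface -/
theorem FIN_quot (x : A) (n : ℕ) (f : MvPolynomial (Fin n) A) :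
    Nonempty ((MvPolynomial (Fin n) (A ⧸ Ideal.span {x}) ⧸
        Ideal.span {MvPolynomial.map (Ideal.Quotient.mk (Ideal.span {x})) f}) ≃+*
      ((MvPolynomial (Fin n) A ⧸ Ideal.span {f}) ⧸
        Ideal.span {Ideal.Quotient.mk (Ideal.span {f}) (C x)})) := by
  let I : Ideal (MvPolynomial (Fin n) A) := Ideal.span {f}
  let J : Ideal (MvPolynomial (Fin n) A) := (Ideal.span {x}).map C
  let E : (MvPolynomial (Fin n) A ⧸ J) ≃+* MvPolynomial (Fin n) (A ⧸ Ideal.span {x}) :=
    (MvPolynomial.quotientEquivQuotientMvPolynomial (σ := Fin n)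
      (Ideal.span {x})).symm.toRingEquiv
  have hE : E (Ideal.Quotient.mk J f) = MvPolynomial.map (Ideal.Quotient.mk (Ideal.span {x})) f :=
    FIN_E (Ideal.span {x}) n f
  let e1 : ((MvPolynomial (Fin n) A ⧸ J) ⧸ I.map (Ideal.Quotient.mk J)) ≃+*
      (MvPolynomial (Fin n) (A ⧸ Ideal.span {x}) ⧸
        Ideal.span {MvPolynomial.map (Ideal.Quotient.mk (Ideal.span {x})) f}) :=
    Ideal.quotientEquiv _ _ E (by
      rw [Ideal.map_map, Ideal.map_span, Set.image_singleton]
      exact congrArg (fun t => Ideal.span {t}) hE.symm)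
  let e2 := DoubleQuot.quotQuotEquivComm J I
  have h3 : J.map (Ideal.Quotient.mk I) = Ideal.span {Ideal.Quotient.mk I (C x)} := by
    rw [Ideal.map_map, Ideal.map_span, Set.image_singleton]
    rfl
  exact ⟨(e1.symm.trans e2).trans (Ideal.quotEquivOfEq h3)⟩

theorem FIN_quot_kr
    (hA : ∀ (P : Ideal A) [P.IsPrime], P ≠ ⊥ → KroneckerLeOne (FractionRing (A ⧸ P)))
    {x : A} (hx : x ≠ 0) (P' : Ideal (A ⧸ Ideal.span {x})) [P'.IsPrime] :
    KroneckerLeOne (FractionRing ((A ⧸ Ideal.span {x}) ⧸ P')) := by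
  let φ : A →+* ((A ⧸ Ideal.span {x}) ⧸ P') :=
    (Ideal.Quotient.mk P').comp (Ideal.Quotient.mk (Ideal.span {x}))
  have hφ : Surjective φ := Ideal.Quotient.mk_surjective.comp Ideal.Quotient.mk_surjective
  haveI hpr : (RingHom.ker φ).IsPrime := RingHom.ker_isPrime φ
  have hx' : x ∈ RingHom.ker φ := by
    rw [RingHom.mem_ker]
    show Ideal.Quotient.mk P' (Ideal.Quotient.mk (Ideal.span {x}) x) = 0
    rw [Ideal.Quotient.eq_zero_iff_mem.2 (Ideal.mem_span_singleton_self x), map_zero]
  have hne : RingHom.ker φ ≠ ⊥ := by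
    intro h
    rw [h, Ideal.mem_bot] at hx'
    exact hx hx'
  let e : (A ⧸ RingHom.ker φ) ≃+* ((A ⧸ Ideal.span {x}) ⧸ P') :=
    RingHom.quotientKerEquivOfSurjective hφ
  have h1 := hA (RingHom.ker φ) hne
  let θ := IsFractionRing.ringEquivOfRingEquiv
    (A := (A ⧸ Ideal.span {x}) ⧸ P') (B := A ⧸ RingHom.ker φ)
    (K := FractionRing ((A ⧸ Ideal.span {x}) ⧸ P'))
    (L := FractionRing (A ⧸ RingHom.ker φ)) e.symm
  exact KroneckerLeOne.of_hom (θ : FractionRing ((A ⧸ Ideal.span {x}) ⧸ P') →+*
    FractionRing (A ⧸ RingHom.ker φ)) h1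

theorem FIN_step [Algebra.FiniteType ℤ A] (hTa : St_Ta)
    (hA : ∀ (P : Ideal A) [P.IsPrime], P ≠ ⊥ → KroneckerLeOne (FractionRing (A ⧸ P)))
    {V : Type} [CommRing V] [Algebra A V] (x : A) (hx : x ≠ 0) [IsLocalization.Away x V] (n : ℕ)
    (f : MvPolynomial (Fin n) A) (hf : f.totalDegree ≤ 2)
    (hfg : AddGroup.FG (G0 (MvPolynomial (Fin n) V ⧸
      Ideal.span {MvPolynomial.map (algebraMap A V) f}))) :
    AddGroup.FG (G0 (MvPolynomial (Fin n) A ⧸ Ideal.span {f})) := by
  haveI : IsNoetherianRing A := Algebra.FiniteType.isNoetherianRing ℤ A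
  obtain ⟨alg, hl⟩ := FIN_loc x n f (V := V)
  have hq : FinGn (MvPolynomial (Fin n) (A ⧸ Ideal.span {x}) ⧸
      Ideal.span {MvPolynomial.map (Ideal.Quotient.mk (Ideal.span {x})) f}) := by
    have hft : @Algebra.FiniteType ℤ (A ⧸ Ideal.span {x}) _ _
        (Ring.toIntAlgebra (A ⧸ Ideal.span {x})) := by
      have h : Algebra.FiniteType ℤ (A ⧸ Ideal.span {x}) :=
        Algebra.FiniteType.of_surjective (Ideal.Quotient.mkₐ ℤ (Ideal.span {x}))
          Ideal.Quotient.mk_surjective
      have e : (inferInstance : Algebra ℤ (A ⧸ Ideal.span {x})) =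
          Ring.toIntAlgebra (A ⧸ Ideal.span {x}) := Subsingleton.elim _ _
      rw [← e]
      exact h
    refine @hTa (A ⧸ Ideal.span {x}) _ hft (fun P _ => FIN_quot_kr hA hx P) n _ ?_
    exact (Finset.sup_mono (MvPolynomial.support_map_subset _ _)).trans hf
  obtain ⟨e⟩ := FIN_quot x n f
  have hq' := (FinGn.of_equiv (S := (MvPolynomial (Fin n) A ⧸ Ideal.span {f}) ⧸
    Ideal.span {Ideal.Quotient.mk (Ideal.span {f}) (C x)}) e hq).fg
  rw [← FIN_fg] at hq' hfg ⊢
  exact Pool.Agent.HPow.GoodP.of_away (V := MvPolynomial (Fin n) V ⧸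
    Ideal.span {MvPolynomial.map (algebraMap A V) f})
    (Ideal.Quotient.mk (Ideal.span {f}) (C x)) hq' hfg

end general

theorem FIN (hK : St_LocK) (hC : St_LocC) (hGm : St_Gm) (hF : St_LamF) (hLin : St_Lin)
    (hTa : St_Ta) (hKt : St_Kt) {R : Type} [CommRing R] [IsDomain R] [Algebra.FiniteType ℤ R]
    (hR : KroneckerLeOne (FractionRing R)) (hO : OrdH R (FractionRing R)) (h2 : (2 : R) ≠ 0)
    (n : ℕ) (f : MvPolynomial (Fin n) (Polynomial R)) (hf : f.totalDegree ≤ 2)
    (hS : QuatSplit (FractionRing (Polynomial R)) (CliffordAlgebra.even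
      (hform (MvPolynomial.map (algebraMap (Polynomial R) (FractionRing (Polynomial R))) f))) ∨
      (n = 2 ∧ (QuadraticMap.polarBilin (hform (MvPolynomial.map
        (algebraMap (Polynomial R) (FractionRing (Polynomial R))) f))).Nondegenerate)) :
    AddGroup.FG (G0 (MvPolynomial (Fin n) (Polynomial R) ⧸ Ideal.span {f})) := by
  haveI : IsNoetherianRing R := Algebra.FiniteType.isNoetherianRing ℤ R
  have hft : @Algebra.FiniteType ℤ (Polynomial R) _ _ (Ring.toIntAlgebra (Polynomial R)) := by
    have h : Algebra.FiniteType ℤ (Polynomial R) :=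
      Algebra.FiniteType.trans (S := R) inferInstance inferInstance
    have e : (inferInstance : Algebra ℤ (Polynomial R)) = Ring.toIntAlgebra (Polynomial R) :=
      Subsingleton.elim _ _
    rw [← e]
    exact h
  rcases finite_or_infinite R with hfin | hinf
  · have hfield : IsField R := Finite.isField_of_domain R
    have h1 : ∀ (P : Ideal (Polynomial R)) [P.IsPrime],
        KroneckerLeOne (FractionRing (Polynomial R ⧸ P)) := by
      letI := hfield.toField
      exact (hKt R).1
    exact (@hTa (Polynomial R) _ hft h1 n f hf).fg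
  · have hS' : QuatSplit (FractionRing (Polynomial R)) (CliffordAlgebra.even
        (hform (MvPolynomial.map (algebraMap (Polynomial R)
          (FractionRing (Polynomial R))) f))) := by
      rcases hS with hS | ⟨rfl, hS⟩
      · exact hS
      · refine TER ?_ _ hS
        intro h
        apply h2
        have hinj : Injective (algebraMap R (FractionRing (Polynomial R))) := by
          rw [IsScalarTower.algebraMap_eq R (Polynomial R) (FractionRing (Polynomial R))]
          exact (IsFractionRing.injective (Polynomial R) (FractionRing (Polynomial R))).comp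
            Polynomial.C_injective
        apply hinj
        rw [map_ofNat, map_zero]
        exact h
    obtain ⟨x, V, iV, aV, hx, hloc, hfg⟩ := TOPV hK hC hGm hF hLin hR h2 (LPID hC R hO h2) n f hf
      hS'
    exact @FIN_step (Polynomial R) _ hft hTa (fun P _ hne => KR hR P hne) V iV aV x hx hloc n f hf
      hfg

end Pool.Agent.QCT
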