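import Pool.Agent.TQF.StN
import Pool.Agent.QCT.GNil
import Pool.Agent.QCT.Defs

/-!
# QCT, module GNC: algebras which are generically products of matrix rings over quaternion algebras

Proof. Scaling by squares (`ℍ[K,u² a,b] ≅ ℍ[K,a,b]`) let all `a_i, b_i` lie in `A`. `E` = the product ring, `Γ ⊆ E` the
`A`-subalgebra of elements all of whose coordinates lie in `A`; it is finitely generated as a module and every element of
`E` has a nonzero `A`-multiple in it. `St_LocK` gives `Γ'`, `t` and for multiples `s'` a surjection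
`A_s' ⊗ Λ → locA Γ' s'` with nilpotent kernel; `St_LocC`: `locA Γ s' = locA Γ' s'` for multiples of some `t'`;
`locA Γ s'` is isomorphic to the product of the `M_{d_i}(ℍ[A_s',a_i,b_i])` and the `M_{d'_i}(A_s')` (coordinatewise, `A_s' → K` is
injective with image the elements `x` with `s'^n x ∈ A`). Now `GNil` (`A_s' ⊗ Λ` is a finite `A_s'`-module, so noetherian),
`GProd`, `GPi`, `GMat`, `hQ`, `hA`.
-/

set_option autoImplicit false

namespace Pool.Agent.QCT

open Pool.Agent.TQF Pool.Agent.QCB Function TensorProduct Quaternion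

section GNCaux

/-- change of scalars for quaternion algebras -/
private def GNC_q {A B C : Type} [CommRing A] [CommRing B] [CommRing C] [Algebra A B] [Algebra A C]
    (f : B →ₐ[A] C) {a b : B} {a' b' : C} (ha : f a = a') (hb : f b = b') :
    ℍ[B,a,b] →ₐ[A] ℍ[C,a',b'] where
  toFun x := ⟨f x.re, f x.imI, f x.imJ, f x.imK⟩
  map_one' := by ext <;> simp
  map_zero' := by ext <;> simp
  map_mul' x y := by subst ha hb; ext <;> simp
  map_add' x y := by ext <;> simp
  commutes' x := by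
    ext <;> simp [Algebra.algebraMap_eq_smul_one]

variable {A : Type} [CommRing A] {r r' : ℕ} (d : Fin r → ℕ) (d' : Fin r' → ℕ) (α β : Fin r → A)

private abbrev GNC_E (B : Type) [CommRing B] [Algebra A B] : Type :=
  (∀ i, Matrix (Fin (d i)) (Fin (d i)) ℍ[B,algebraMap A B (α i),algebraMap A B (β i)]) ×
    (∀ i, Matrix (Fin (d' i)) (Fin (d' i)) B)

private abbrev GNC_J : Type :=
  (Σ i : Fin r, Fin (d i) × Fin (d i) × Fin 4) ⊕ (Σ i : Fin r', Fin (d' i) × Fin (d' i))

variable {d d' α β}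

private def GNC_c {B : Type} [CommRing B] [Algebra A B] (x : GNC_E d d' α β B) : GNC_J d d' → B
  | Sum.inl ⟨i, j, k, l⟩ => ![(x.1 i j k).re, (x.1 i j k).imI, (x.1 i j k).imJ, (x.1 i j k).imK] l
  | Sum.inr ⟨i, j, k⟩ => x.2 i j k

private def GNC_m {B : Type} [CommRing B] [Algebra A B] (c : GNC_J d d' → B) :
    GNC_E d d' α β B :=
  (fun i => Matrix.of fun j k => ⟨c (Sum.inl ⟨i, j, k, 0⟩), c (Sum.inl ⟨i, j, k, 1⟩),
    c (Sum.inl ⟨i, j, k, 2⟩), c (Sum.inl ⟨i, j, k, 3⟩)⟩,
   fun i => Matrix.of fun j k => c (Sum.inr ⟨i, j, k⟩))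

private theorem GNC_mc {B : Type} [CommRing B] [Algebra A B] (x : GNC_E d d' α β B) :
    GNC_m (GNC_c x) = x := rfl

private theorem GNC_cm {B : Type} [CommRing B] [Algebra A B] (c : GNC_J d d' → B) :
    GNC_c (GNC_m c : GNC_E d d' α β B) = c := by
  funext j
  rcases j with ⟨i, j, k, l⟩ | ⟨i, j, k⟩
  · fin_cases l <;> rfl
  · rfl

private theorem GNC_inj {B : Type} [CommRing B] [Algebra A B] (x y : GNC_E d d' α β B)
    (h : ∀ j, GNC_c x j = GNC_c y j) : x = y := by
  rw [← GNC_mc x, ← GNC_mc y, funext h]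

private theorem GNC_smul {B : Type} [CommRing B] [Algebra A B] (a : A) (x : GNC_E d d' α β B)
    (j : GNC_J d d') : GNC_c (a • x) j = a • GNC_c x j := by
  rcases j with ⟨i, j, k, l⟩ | ⟨i, j, k⟩
  · fin_cases l <;> rfl
  · rfl

private theorem GNC_smulB {B : Type} [CommRing B] [Algebra A B] (a : B) (x : GNC_E d d' α β B)
    (j : GNC_J d d') : GNC_c (a • x) j = a * GNC_c x j := by
  rcases j with ⟨i, j, k, l⟩ | ⟨i, j, k⟩
  · fin_cases l <;> rfl
  · rfl

/-- change of scalars -/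
private def GNC_map {B C : Type} [CommRing B] [Algebra A B] [CommRing C] [Algebra A C]
    (f : B →ₐ[A] C) : GNC_E d d' α β B →ₐ[A] GNC_E d d' α β C :=
  AlgHom.prodMap
    (AlgHom.pi (R := A) fun i => (AlgHom.mapMatrix (GNC_q f (f.commutes (α i)) (f.commutes (β i)))).comp
      (Pi.evalAlgHom A _ i))
    (AlgHom.pi (R := A) fun i => (AlgHom.mapMatrix f).comp (Pi.evalAlgHom A _ i))

private theorem GNC_cmap {B C : Type} [CommRing B] [Algebra A B] [CommRing C] [Algebra A C]
    (f : B →ₐ[A] C) (x : GNC_E d d' α β B) (j : GNC_J d d') :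
    GNC_c (GNC_map f x) j = f (GNC_c x j) := by
  rcases j with ⟨i, j, k, l⟩ | ⟨i, j, k⟩
  · fin_cases l <;> rfl
  · rfl

private theorem GNC_den {B : Type} [CommRing B] [Algebra A B] (M : Submonoid A)
    [IsLocalization M B] (y : GNC_E d d' α β B) :
    ∃ b : M, ∃ z : GNC_E d d' α β A, (b : A) • y = GNC_map (Algebra.ofId A B) z := by
  obtain ⟨b, hb⟩ := IsLocalization.exist_integer_multiples_of_finite (S := B) M (GNC_c y)
  choose w hw using hb
  refine ⟨b, GNC_m w, GNC_inj _ _ fun j => ?_⟩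
  rw [GNC_smul, GNC_cmap, GNC_cm, ← hw j]
  rfl

private theorem GNC_mapinj {B C : Type} [CommRing B] [Algebra A B] [CommRing C] [Algebra A C]
    (f : B →ₐ[A] C) (hf : Injective f) :
    Injective (GNC_map f : GNC_E d d' α β B →ₐ[A] GNC_E d d' α β C) := by
  intro x y h
  refine GNC_inj _ _ fun j => hf ?_
  rw [← GNC_cmap, ← GNC_cmap, h]

private theorem GNC_mapcomp {B C D : Type} [CommRing B] [Algebra A B] [CommRing C] [Algebra A C]
    [CommRing D] [Algebra A D] (f : B →ₐ[A] C) (g : C →ₐ[A] D) (x : GNC_E d d' α β B) :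
    GNC_map g (GNC_map f x) = GNC_map (g.comp f) x := by
  refine GNC_inj _ _ fun j => ?_
  rw [GNC_cmap, GNC_cmap, GNC_cmap]
  rfl

/-- the localised standard order is the standard order over the localised ring -/
private theorem GNC_loc {K : Type} [IsDomain A] [Field K] [Algebra A K] [IsFractionRing A K]
    (s : A) (hs : s ≠ 0) :
    Nonempty (GNC_E d d' α β (Localization.Away s) ≃+*
      locA (GNC_map (d := d) (d' := d') (α := α) (β := β) (Algebra.ofId A K)).range s) := by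
  have hu : ∀ y : Submonoid.powers s, IsUnit (algebraMap A K y) := by
    rintro ⟨_, n, rfl⟩
    refine IsUnit.mk0 _ ?_
    rw [Ne, FaithfulSMul.algebraMap_eq_zero_iff]
    exact pow_ne_zero n hs
  let f : Localization.Away s →ₐ[A] K := IsLocalization.liftAlgHom (M := Submonoid.powers s)
    (f := Algebra.ofId A K) hu
  have hf : Injective f := by
    rw [injective_iff_map_eq_zero]
    intro x hx
    obtain ⟨⟨a, b⟩, hab⟩ := IsLocalization.surj (Submonoid.powers s) x
    have hab' : x * algebraMap A (Localization.Away s) b = algebraMap A _ a := hab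
    have h1 : algebraMap A K a = 0 := by
      rw [← f.commutes a, ← hab', map_mul, hx, zero_mul]
    rw [FaithfulSMul.algebraMap_eq_zero_iff] at h1
    rw [h1, map_zero] at hab'
    exact (IsLocalization.map_units (Localization.Away s) b).mul_left_eq_zero.1 hab'
  have hfA : f.comp (Algebra.ofId A (Localization.Away s)) = Algebra.ofId A K :=
    Subsingleton.elim _ _
  let Φ := GNC_map (d := d) (d' := d') (α := α) (β := β) f
  have hΦ : ∀ y, Φ y ∈ locA (GNC_map (d := d) (d' := d') (α := α) (β := β)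
      (Algebra.ofId A K)).range s := by
    intro y
    obtain ⟨⟨_, n, rfl⟩, z, hz⟩ := GNC_den (Submonoid.powers s) y
    refine ⟨n, z, ?_⟩
    have h1 : Φ (s ^ n • y) = s ^ n • Φ y := map_smul _ _ _
    rw [← h1]
    have h2 : s ^ n • y = GNC_map (Algebra.ofId A (Localization.Away s)) z := hz
    rw [h2]
    show _ = GNC_map f (GNC_map (Algebra.ofId A (Localization.Away s)) z)
    rw [GNC_mapcomp, hfA]
    rfl
  let Ψ : GNC_E d d' α β (Localization.Away s) →+* locA (GNC_map (d := d) (d' := d') (α := α)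
    (β := β) (Algebra.ofId A K)).range s := (Φ.codRestrict _ hΦ : _ →ₐ[A] _)
  refine ⟨RingEquiv.ofBijective Ψ ⟨?_, ?_⟩⟩
  · intro x y h
    exact GNC_mapinj f hf (congrArg Subtype.val h)
  · rintro ⟨x, n, z, hz⟩
    obtain ⟨v, hv⟩ := (IsLocalization.map_units (Localization.Away s)
      (⟨s ^ n, n, rfl⟩ : Submonoid.powers s)).exists_right_inv
    have hv' : algebraMap A (Localization.Away s) (s ^ n) * v = 1 := hv
    refine ⟨v • GNC_map (Algebra.ofId A (Localization.Away s)) z, Subtype.ext ?_⟩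
    show GNC_map f (v • GNC_map (Algebra.ofId A (Localization.Away s)) z) = x
    have hz' : GNC_map (Algebra.ofId A K) z = s ^ n • x := hz
    refine GNC_inj _ _ fun j => ?_
    have h1 : f v * algebraMap A K (s ^ n) = 1 := by
      rw [← f.commutes, ← map_mul, mul_comm, hv', map_one]
    have h2 : GNC_c (GNC_map (Algebra.ofId A K) z) j = algebraMap A K (s ^ n) * GNC_c x j := by
      rw [hz', GNC_smul, Algebra.smul_def]
    rw [GNC_cmap, GNC_smulB, map_mul, ← GNC_cmap, GNC_mapcomp, hfA, h2, ← mul_assoc, h1, one_mul]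

end GNCaux

/-- scaling by squares -/
private def GNC_sc {K : Type} [Field K] (a b u v : K) (hu : u ≠ 0) (hv : v ≠ 0) (a' b' : K)
    (ha : a' = u ^ 2 * a) (hb : b' = v ^ 2 * b) : ℍ[K,a,b] ≃ₐ[K] ℍ[K,a',b'] where
  toFun x := ⟨x.re, u⁻¹ * x.imI, v⁻¹ * x.imJ, u⁻¹ * v⁻¹ * x.imK⟩
  invFun x := ⟨x.re, u * x.imI, v * x.imJ, u * v * x.imK⟩
  left_inv x := by
    ext
    · rfl
    · show u * (u⁻¹ * x.imI) = x.imI
      field_simp
    · show v * (v⁻¹ * x.imJ) = x.imJ
      field_simp
    · show u * v * (u⁻¹ * v⁻¹ * x.imK) = x.imK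
      field_simp
  right_inv x := by
    ext
    · rfl
    · show u⁻¹ * (u * x.imI) = x.imI
      field_simp
    · show v⁻¹ * (v * x.imJ) = x.imJ
      field_simp
    · show u⁻¹ * v⁻¹ * (u * v * x.imK) = x.imK
      field_simp
  map_mul' x y := by
    subst ha hb
    ext <;> simp <;> field_simp
  map_add' x y := by ext <;> simp [mul_add]
  commutes' x := by ext <;> simp [Algebra.algebraMap_eq_smul_one]

/-- generic form -/
private theorem GNC_num {A K : Type} [CommRing A] [IsDomain A] [Field K] [Algebra A K]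
    [IsFractionRing A K] (a : K) (ha : a ≠ 0) :
    ∃ (α : A) (u : K), α ≠ 0 ∧ u ≠ 0 ∧ algebraMap A K α = u ^ 2 * a := by
  obtain ⟨x, y, hy, rfl⟩ := IsFractionRing.div_surjective (A := A) a
  have hy0 : algebraMap A K y ≠ 0 := by
    rw [Ne, FaithfulSMul.algebraMap_eq_zero_iff]
    exact nonZeroDivisors.ne_zero hy
  have hx0 : x ≠ 0 := by
    rintro rfl
    simp at ha
  refine ⟨x * y, algebraMap A K y, mul_ne_zero hx0 (nonZeroDivisors.ne_zero hy), hy0, ?_⟩
  rw [map_mul]
  field_simp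

theorem GNC (hK : St_LocK) (hC : St_LocC) {A K : Type} [CommRing A] [IsDomain A]
    [IsNoetherianRing A] [Field K] [Algebra A K] [IsFractionRing A K]
    (hA : ∃ s : A, s ≠ 0 ∧ ∀ s' : A, s' ≠ 0 → s ∣ s' → GFG (Localization.Away s'))
    (hQ : ∀ a b : A, a ≠ 0 → b ≠ 0 → ∃ s : A, s ≠ 0 ∧ ∀ s' : A, s' ≠ 0 → s ∣ s' →
      GFG ℍ[Localization.Away s',algebraMap A (Localization.Away s') a,
        algebraMap A (Localization.Away s') b])
    (Λ : Type) [Ring Λ] [Algebra A Λ] [Module.Finite A Λ] (h : QuatSplit K (K ⊗[A] Λ)) :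
    ∃ s : A, s ≠ 0 ∧ ∀ s' : A, s' ≠ 0 → s ∣ s' → GFG (Localization.Away s' ⊗[A] Λ) := by
  obtain ⟨r, d, a, b, r', d', π0, hab, hπ0, hnil0⟩ := h
  choose α u hα hu hαu using fun i => GNC_num (A := A) (a i) (hab i).1
  choose β v hβ hv hβv using fun i => GNC_num (A := A) (b i) (hab i).2
  let e : ((∀ i, Matrix (Fin (d i)) (Fin (d i)) ℍ[K,a i,b i]) ×
      (∀ i, Matrix (Fin (d' i)) (Fin (d' i)) K)) ≃ₐ[K] GNC_E d d' α β K :=
    AlgEquiv.prodCongr (AlgEquiv.piCongrRight fun i => AlgEquiv.mapMatrix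
      (GNC_sc (a i) (b i) (u i) (v i) (hu i) (hv i) _ _ (hαu i) (hβv i))) AlgEquiv.refl
  let π : K ⊗[A] Λ →ₐ[K] GNC_E d d' α β K := (e : _ →ₐ[K] _).comp π0
  have hπ : Surjective π := e.surjective.comp hπ0
  have hker : RingHom.ker π = RingHom.ker π0 := by
    ext x
    rw [RingHom.mem_ker, RingHom.mem_ker]
    show e (π0 x) = 0 ↔ _
    rw [map_eq_zero_iff e e.injective]
  obtain ⟨Γ', hΓ', hΓ'2, t, ht, hloc⟩ := hK A K Λ (GNC_E d d' α β K) π hπ (hker ▸ hnil0)
  let Γ : Subalgebra A (GNC_E d d' α β K) :=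
    (GNC_map (d := d) (d' := d') (α := α) (β := β) (Algebra.ofId A K)).range
  have hΓ : (Subalgebra.toSubmodule Γ).FG := by
    have h1 : Subalgebra.toSubmodule Γ = LinearMap.range
        (GNC_map (d := d) (d' := d') (α := α) (β := β) (Algebra.ofId A K)).toLinearMap := by
      ext x
      rfl
    have h2 : Module.Finite A (GNC_E d d' α β A) := inferInstance
    rw [h1, ← Module.Finite.iff_fg]
    infer_instance
  have hΓ2 : ∀ x : GNC_E d d' α β K, ∃ a : A, a ≠ 0 ∧ a • x ∈ Γ := by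
    intro x
    obtain ⟨b, z, hz⟩ := GNC_den (nonZeroDivisors A) x
    exact ⟨b, nonZeroDivisors.coe_ne_zero b, z, hz.symm⟩
  obtain ⟨t', ht', hΓΓ⟩ := hC A _ Γ Γ' hΓ hΓ' hΓ2 hΓ'2
  obtain ⟨sA, hsA, hGA⟩ := hA
  choose sQ hsQ hGQ using fun i => hQ (α i) (β i) (hα i) (hβ i)
  refine ⟨t * t' * sA * ∏ i, sQ i, ?_, ?_⟩
  · exact mul_ne_zero (mul_ne_zero (mul_ne_zero ht ht') hsA)
      (Finset.prod_ne_zero_iff.2 fun i _ => hsQ i)
  intro s' hs' hdvd
  have d1 : t ∣ s' := dvd_trans ⟨t' * sA * ∏ i, sQ i, by ring⟩ hdvd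
  have d2 : t' ∣ s' := dvd_trans ⟨t * sA * ∏ i, sQ i, by ring⟩ hdvd
  have d3 : sA ∣ s' := dvd_trans ⟨t * t' * ∏ i, sQ i, by ring⟩ hdvd
  have d4 : ∀ i, sQ i ∣ s' := fun i =>
    dvd_trans ((Finset.dvd_prod_of_mem sQ (Finset.mem_univ i)).mul_left _) hdvd
  obtain ⟨ρ, hρ, hρn⟩ := hloc s' hs' d1
  have hG1 : GFG (GNC_E d d' α β (Localization.Away s')) :=
    GProd (GPi _ _ fun i => GMat _ (hGQ i s' hs' (d4 i))) (GPi _ _ fun i => GMat _ (hGA s' hs' d3))
  obtain ⟨e1⟩ := GNC_loc (d := d) (d' := d') (α := α) (β := β) (K := K) s' hs'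
  have hG2 : GFG (locA Γ s') := hG1.of_equiv e1
  rw [hΓΓ s' d2] at hG2
  have : IsNoetherianRing (Localization.Away s') :=
    IsLocalization.isNoetherianRing (Submonoid.powers s') _ inferInstance
  have : IsNoetherian (Localization.Away s') (Localization.Away s' ⊗[A] Λ) := inferInstance
  have : IsNoetherianRing (Localization.Away s' ⊗[A] Λ) :=
    isNoetherian_of_tower (Localization.Away s') inferInstance
  exact GNil ρ hρ hρn hG2

end Pool.Agent.QCT
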