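import Pool.Agent.TQF.StN
import Pool.Agent.TQF.StG
import Pool.Agent.TQF.StT
import Pool.Agent.TQF.GFinQ
import Pool.Agent.TQF.T1
import Pool.Agent.TQF.NLamC
import Pool.Agent.QCT.EFG

/-!
# QCT, module GQ: quadric hypersurfaces, group level

Proofs. `GQ`: let `ψ` be additive on `QM q.l q.g`. `M ↦ ψ (QM.ind (S ⊗ M))` is additive on `LMod A` (`S = A[X_1..X_m]` is
free over `A`), `N ↦ ψ N.phi` is additive on `CMod q` (see `St_FinQ` in `TQF/StG.lean` for the exactness of the two functors); let `H` be the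
sum of the two finitely generated subgroups; the class `P X := ψ X ∈ H` is two out of three: `St_Gm`.
`GT`: for `B = S[X] / (X² + l X + g)` the function `ψ M = [G M] ∈ G0 B` on `QM l g` (`G M` as in `St_T1` of
`TQF/StT.lean`) is additive, and every class `[N]` is a value, so `G0 B` is the subgroup of a finitely
generated group which it generates: `H = ⊤`.
`GLam`: the functor `G : LMod (A' ⊗ Lam q) → CMod (q.map _)` of `St_LamC` (`TQF/StN.lean`) is exact and essentially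
surjective.
-/

set_option autoImplicit false

namespace Pool.Agent.QCT

open Pool.Agent.TQF Pool.Agent.QCB Function TensorProduct Pool.Agent.Helper11

/-- an additive function defines two out of three classes -/
theorem GQ_t3 {C : EC} {Γ : Type 1} [AddCommGroup Γ] {ψ : C.Ob → Γ}
    (hz : ∀ X, C.zero X → ψ X = 0) (ha : ∀ X Y Z, C.ses X Y Z → ψ Y = ψ X + ψ Z)
    (H : AddSubgroup Γ) : C.T3 (fun X => ψ X ∈ H) where
  zero X hX := by
    rw [hz X hX]
    exact zero_mem H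
  ext X Y Z h h1 h2 := by
    rw [ha X Y Z h]
    exact add_mem h1 h2
  coker X Y Z h h1 h2 := by
    have h3 : ψ Z = ψ Y - ψ X := by
      rw [ha X Y Z h]
      abel
    rw [h3]
    exact sub_mem h2 h1
  ker X Y Z h h1 h2 := by
    have h3 : ψ X = ψ Y - ψ Z := by
      rw [ha X Y Z h]
      abel
    rw [h3]
    exact sub_mem h1 h2

theorem GQ (hGm : St_Gm) (A : Type) [CommRing A] [IsNoetherianRing A] (m : ℕ) (q : QD A m)
    (hA : (modC A).FinG) (hC : EGFG (cC q)) : EGFG (qC q.l q.g) := by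
  intro Γ _ ψ hz ha
  obtain ⟨H1, hf1, h1⟩ := EGFG.of_finG (modC A) hA Γ (fun M => ψ (GFinQ_F q M))
    (fun X hX => hz _ (GFinQ_F_zero q X hX)) (fun X Y Z h => ha _ _ _ (GFinQ_F_ses q X Y Z h))
  obtain ⟨H2, hf2, h2⟩ := hC Γ (fun N => ψ N.phi)
    (fun X hX => hz _ (GFinQ_phi_zero X hX)) (fun X Y Z h => ha _ _ _ (GFinQ_phi_ses X Y Z h))
  refine ⟨H1 ⊔ H2, hf1.sup hf2, ?_⟩
  refine hGm A m q (fun X => ψ X ∈ H1 ⊔ H2) (GQ_t3 (C := qC q.l q.g) hz ha _) ?_ ?_
  · intro M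
    exact (le_sup_left : H1 ≤ H1 ⊔ H2) (h1 M)
  · intro N
    exact (le_sup_right : H2 ≤ H1 ⊔ H2) (h2 N)

theorem GT (S : Type) [CommRing S] (l g : S) (h : EGFG (qC l g)) :
    AddGroup.FG (G0 (Polynomial S ⧸ Ideal.span {(Polynomial.X ^ 2 + Polynomial.C l * Polynomial.X +
      Polynomial.C g : Polynomial S)})) := by
  obtain ⟨H, hf, hH⟩ := h (G0 (T1_B l g)) (fun M => G0.mk (T1_G M))
    (fun X hX => by
      have : Subsingleton (T1_G X).carrier := hX
      exact (G0.isAdd_mk (R := T1_B l g)).zero (T1_G X) (G0.killedBy_bot (T1_G X)))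
    (fun X Y Z h => by
      obtain ⟨f, h, hf, hh, he, hfz, hhz⟩ := h
      exact G0.mk_add (T1_G X) (T1_G Y) (T1_G Z) (T1_map f hfz) (T1_map h hhz) hf hh he)
  have h1 : H = ⊤ := by
    rw [eq_top_iff, ← G0.closure_mk, AddSubgroup.closure_le]
    rintro _ ⟨N, rfl⟩
    have h2 : G0.mk (T1_G (T1_O N)) = G0.mk N :=
      Pool.Agent.Helper67.Bass.mk_eq_of_iso (T1_iso N)
    rw [← h2]
    exact hH (T1_O N)
  rw [h1] at hf
  exact ⟨hf⟩

theorem GLam (hF : St_LamF) (A A' : Type) [CommRing A] [CommRing A'] [Algebra A A'] (m : ℕ)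
    (q : QD A m) (h : GFG (A' ⊗[A] Lam q)) : EGFG (cC (q.map (algebraMap A A'))) := by
  intro Γ _ ψ hz ha
  obtain ⟨H, hf, hH⟩ := (EGFG.modC_iff (A' ⊗[A] Lam q)).2 h Γ (fun N => ψ (NLamC_G hF N))
    (fun X hX => hz _ hX) (fun X Y Z h => ha _ _ _ (NLamC_ses hF X Y Z h))
  refine ⟨H, hf, fun M => ?_⟩
  have h1 : ψ M = ψ (NLamC_G hF (NLamC_O M)) + ψ (CMod.zer (q.map (algebraMap A A'))) :=
    ha _ _ _ (CMod.ses_iso (NLamC_iso hF M) (NLamC_iso_e hF M))
  have h2 : ψ (CMod.zer (q.map (algebraMap A A'))) = 0 :=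
    hz _ (inferInstance : Subsingleton (CMod.zer (q.map (algebraMap A A'))).carrier)
  rw [h1, h2, add_zero]
  exact hH (NLamC_O M)

end Pool.Agent.QCT
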