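import Pool.Agent.QCT.EvC
import Pool.Agent.QCT.Defs

/-!
# QCT, module MonX: a quadric with a unit value, and its even Clifford algebra

Proof. `n = m + 1`. Case 1, `u = coeff (2 e_i) f` a unit: `w = e_i`, the other variables (`Fin.succAbove i`) are `X_1, …, X_m`; case 2,
`u = coeff (2 e_i) f + coeff (2 e_j) f + coeff (e_i + e_j) f`: `w = e_i + e_j`, i.e. substitute `y_j ↦ y_j + y_i` first (an
automorphism), then as case 1 for `i`. `u⁻¹ f = Z² + l Z + g` with `Z = y_i`, explicit `λ`, `γ` (`γ` upper triangular with the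
coefficients of `u⁻¹ f`); the formulas commute with base change to `V`. The isomorphism of rings as in `St_Mon`
(`TQF/StT.lean`). For the second claim use `EvC` for `Q = hform f`, with the basis `none ↦` the vector of `w`, `some 0 ↦` the homogenising
vector `e_0`, `some (k+1) ↦` the vector of `X_(k+1)`; `Q(w) = u`; the values and polar values of `hform` on basis vectors are the
coefficients of `f` (evaluate the finite sum).
-/

set_option autoImplicit false

namespace Pool.Agent.QCT

open Pool.Agent.TQF Function TensorProduct MvPolynomial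

/-! ### exponents -/

private theorem MonX_expo (n : ℕ) (a : Fin (n + 1)) (i : Fin n) :
    expo n a i = if a = i.succ then 1 else 0 := by
  refine Fin.cases ?_ (fun j => ?_) a
  · rw [if_neg (Fin.succ_ne_zero i).symm]
    rfl
  · unfold expo
    rw [Fin.cons_succ, Finsupp.single_apply]
    simp [Fin.succ_inj]

private theorem MonX_inj (n : ℕ) {a b a' b' : Fin (n + 1)} (h1 : a ≤ b) (h2 : a' ≤ b')
    (h : expo n a + expo n b = expo n a' + expo n b') : a = a' ∧ b = b' := by
  have key : ∀ k : Fin (n + 1), k ≠ 0 → ((if a = k then 1 else 0) + (if b = k then 1 else 0) : ℕ) =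
      (if a' = k then 1 else 0) + (if b' = k then 1 else 0) := by
    intro k hk
    obtain ⟨i, rfl⟩ := Fin.exists_succ_eq.2 hk
    have := DFunLike.congr_fun h i
    simpa [MonX_expo] using this
  have key' : ∀ k : ℕ, k ≠ 0 → k ≤ n →
      ((if a.val = k then 1 else 0) + (if b.val = k then 1 else 0) : ℕ) =
      (if a'.val = k then 1 else 0) + (if b'.val = k then 1 else 0) := by
    intro k hk hkn
    have h3 := key ⟨k, by omega⟩ fun h4 => hk (congrArg Fin.val h4)
    simpa only [Fin.ext_iff] using h3
  rw [Fin.ext_iff, Fin.ext_iff]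
  rw [Fin.le_def] at h1 h2
  have hb := b.isLt
  have hb' := b'.isLt
  by_cases c1 : b.val = 0
  · by_cases c2 : b'.val = 0
    · omega
    · have k1 := key' b'.val c2 (by omega)
      rw [if_pos rfl] at k1
      split_ifs at k1 <;> omega
  · by_cases c2 : b'.val = 0
    · have k1 := key' b.val c1 (by omega)
      rw [if_pos rfl] at k1
      split_ifs at k1 <;> omega
    · by_cases c3 : b.val = b'.val
      · refine ⟨?_, c3⟩
        by_cases c4 : a.val = 0
        · by_contra c5
          have k1 := key' a'.val (by omega) (by omega)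
          split_ifs at k1 <;> omega
        · have k1 := key' a.val c4 (by omega)
          split_ifs at k1 <;> omega
      · have k1 := key' b.val c1 (by omega)
        have k2 := key' b'.val c2 (by omega)
        split_ifs at k1 k2 <;> omega

private theorem MonX_surj1 (n : ℕ) (m : Fin n →₀ ℕ) (hm : ∑ i, m i ≤ 1) :
    ∃ a : Fin (n + 1), expo n a = m := by
  by_cases h : ∃ i, m i ≠ 0
  · obtain ⟨i, hi⟩ := h
    refine ⟨i.succ, ?_⟩
    ext k
    rw [MonX_expo]
    have h1 : m i + ∑ x ∈ Finset.univ.erase i, m x = ∑ x, m x :=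
      Finset.add_sum_erase Finset.univ (fun i => m i) (Finset.mem_univ i)
    by_cases hk : i = k
    · subst hk
      rw [if_pos rfl]
      omega
    · rw [if_neg fun h => hk (Fin.succ_injective _ h)]
      have h2 : m k ≤ ∑ x ∈ Finset.univ.erase i, m x :=
        Finset.single_le_sum (f := fun x => m x) (fun _ _ => Nat.zero_le _)
          (Finset.mem_erase.2 ⟨fun h => hk h.symm, Finset.mem_univ k⟩)
      omega
  · refine ⟨0, ?_⟩
    ext k
    rw [MonX_expo, if_neg (Fin.succ_ne_zero k).symm]
    by_contra h1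
    exact h ⟨k, fun h2 => h1 h2.symm⟩

private theorem MonX_surj (n : ℕ) (m : Fin n →₀ ℕ) (hm : ∑ i, m i ≤ 2) :
    ∃ a b : Fin (n + 1), a ≤ b ∧ expo n a + expo n b = m := by
  classical
  by_cases h : ∃ i, m i ≠ 0
  · obtain ⟨i, hi⟩ := h
    have h3 : m = expo n i.succ + (m - Finsupp.single i 1) := by
      have h4 : Finsupp.single i 1 ≤ m := by
        rw [Finsupp.single_le_iff]
        omega
      have h5 : expo n i.succ = Finsupp.single i 1 := rfl
      rw [h5, add_tsub_cancel_of_le h4]
    have h4 : ∑ k, (m - Finsupp.single i 1 : Fin n →₀ ℕ) k ≤ 1 := by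
      have h1 : m i + ∑ x ∈ Finset.univ.erase i, m x = ∑ x, m x :=
        Finset.add_sum_erase Finset.univ (fun i => m i) (Finset.mem_univ i)
      have h2 : (m - Finsupp.single i 1 : Fin n →₀ ℕ) i +
          ∑ x ∈ Finset.univ.erase i, (m - Finsupp.single i 1 : Fin n →₀ ℕ) x =
          ∑ x, (m - Finsupp.single i 1 : Fin n →₀ ℕ) x := Finset.add_sum_erase Finset.univ
        (fun k => (m - Finsupp.single i 1 : Fin n →₀ ℕ) k) (Finset.mem_univ i)
      have h5 : ∑ x ∈ Finset.univ.erase i, (m - Finsupp.single i 1 : Fin n →₀ ℕ) x =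
          ∑ x ∈ Finset.univ.erase i, m x := by
        refine Finset.sum_congr rfl fun x hx => ?_
        rw [Finsupp.tsub_apply, Finsupp.single_eq_of_ne (Finset.ne_of_mem_erase hx), tsub_zero]
      have h6 : (m - Finsupp.single i 1 : Fin n →₀ ℕ) i = m i - 1 := by
        rw [Finsupp.tsub_apply, Finsupp.single_eq_same]
      omega
    obtain ⟨b, hb⟩ := MonX_surj1 n _ h4
    rcases le_total i.succ b with h5 | h5
    · exact ⟨i.succ, b, h5, by rw [hb, ← h3]⟩
    · exact ⟨b, i.succ, h5, by rw [hb, add_comm, ← h3]⟩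
  · refine ⟨0, 0, le_refl _, ?_⟩
    ext k
    rw [Finsupp.add_apply, MonX_expo, if_neg (Fin.succ_ne_zero k).symm]
    by_contra h1
    exact h ⟨k, fun h2 => h1 h2.symm⟩

/-! ### the bilinear form -/

section bil

variable {A : Type} [CommRing A] {n : ℕ}

/-- the matrix of coefficients -/
private noncomputable def MonX_c (f : MvPolynomial (Fin n) A) (a b : Fin (n + 1)) : A :=
  if a ≤ b then f.coeff (expo n a + expo n b) else 0

/-- the bilinear form -/
private noncomputable def MonX_B (f : MvPolynomial (Fin n) A) (R : Type) [CommRing R]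
    [Algebra A R] : LinearMap.BilinForm R (Fin (n + 1) → R) :=
  Matrix.toBilin' (Matrix.of fun a b => algebraMap A R (MonX_c f a b))

private theorem MonX_B_apply (f : MvPolynomial (Fin n) A) (R : Type) [CommRing R] [Algebra A R]
    (x y : Fin (n + 1) → R) : MonX_B f R x y =
      ∑ a, ∑ b, x a * algebraMap A R (MonX_c f a b) * y b :=
  Matrix.toBilin'_apply _ _ _

private theorem MonX_B_map (f : MvPolynomial (Fin n) A) {R S : Type} [CommRing R] [Algebra A R]
    [CommRing S] [Algebra A S] (φ : R →ₐ[A] S) (x y : Fin (n + 1) → R) :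
    MonX_B f S (fun a => φ (x a)) (fun a => φ (y a)) = φ (MonX_B f R x y) := by
  rw [MonX_B_apply, MonX_B_apply, map_sum]
  refine Finset.sum_congr rfl fun a _ => ?_
  rw [map_sum]
  refine Finset.sum_congr rfl fun b _ => ?_
  rw [map_mul, map_mul, φ.commutes]

private theorem MonX_B_single (f : MvPolynomial (Fin n) A) (R : Type) [CommRing R] [Algebra A R]
    (a b : Fin (n + 1)) : MonX_B f R (Pi.single a 1) (Pi.single b 1) =
      algebraMap A R (MonX_c f a b) :=
  Matrix.toBilin'_single _ _ _

private theorem MonX_prod {R : Type} [CommRing R] (y : Fin n → R) (a : Fin (n + 1)) :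
    ∏ i, y i ^ (expo n a i) = (Fin.cons 1 y : Fin (n + 1) → R) a := by
  refine Fin.cases ?_ (fun j => ?_) a
  · rw [Fin.cons_zero]
    exact Finset.prod_eq_one fun i _ => pow_zero _
  · rw [Fin.cons_succ, Finset.prod_eq_single j]
    · rw [MonX_expo, if_pos rfl, pow_one]
    · intro i _ hi
      rw [MonX_expo, if_neg fun h => hi (Fin.succ_injective _ h).symm, pow_zero]
    · intro h
      exact absurd (Finset.mem_univ j) h

private theorem MonX_aeval (f : MvPolynomial (Fin n) A) (hf : f.totalDegree ≤ 2) {R : Type}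
    [CommRing R] [Algebra A R] (y : Fin n → R) :
    aeval y f = MonX_B f R (Fin.cons 1 y) (Fin.cons 1 y) := by
  classical
  let S : Finset (Fin (n + 1) × Fin (n + 1)) := Finset.univ.filter fun p => p.1 ≤ p.2
  have hinj : Set.InjOn (fun p : Fin (n + 1) × Fin (n + 1) => expo n p.1 + expo n p.2) S := by
    rintro ⟨a, b⟩ hp ⟨a', b'⟩ hp' h
    obtain ⟨h1, h2⟩ := MonX_inj n (Finset.mem_filter.1 hp).2 (Finset.mem_filter.1 hp').2 h
    exact Prod.ext h1 h2
  have hsub : f.support ⊆ S.image fun p => expo n p.1 + expo n p.2 := by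
    intro m hm
    have h1 : ∑ i, m i ≤ 2 := by
      have h2 := le_totalDegree hm
      rw [Finsupp.sum_fintype _ _ fun _ => rfl] at h2
      exact h2.trans hf
    obtain ⟨a, b, hab, h⟩ := MonX_surj n m h1
    exact Finset.mem_image.2 ⟨(a, b), Finset.mem_filter.2 ⟨Finset.mem_univ _, hab⟩, h⟩
  rw [aeval_def, eval₂_eq', Finset.sum_subset hsub, Finset.sum_image hinj, MonX_B_apply]
  · rw [← Finset.sum_product', Finset.univ_product_univ, Finset.sum_filter]
    refine Finset.sum_congr rfl fun p _ => ?_
    unfold MonX_c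
    split_ifs with h
    · simp only [Finsupp.add_apply, pow_add, Finset.prod_mul_distrib, MonX_prod]
      ring
    · rw [map_zero, mul_zero, zero_mul]
  · intro m _ hm
    rw [notMem_support_iff.1 hm, map_zero, zero_mul]

private theorem MonX_add (f : MvPolynomial (Fin n) A) {R : Type} [CommRing R] [Algebra A R]
    (x y : Fin (n + 1) → R) : MonX_B f R (x + y) (x + y) =
      MonX_B f R x x + MonX_B f R x y + (MonX_B f R y x + MonX_B f R y y) := by
  have h1 : ∀ z, MonX_B f R (x + y) z = MonX_B f R x z + MonX_B f R y z := fun z => by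
    rw [map_add, LinearMap.add_apply]
  rw [h1, map_add, map_add]

/-- expansion of the form -/
private theorem MonX_expand (f : MvPolynomial (Fin n) A) {R : Type} [CommRing R] [Algebra A R]
    {ι : Type} [Fintype ι] (X : R) (w : Fin (n + 1) → R) (c : ι → R) (v : ι → Fin (n + 1) → R) :
    MonX_B f R (X • w + ∑ k, c k • v k) (X • w + ∑ k, c k • v k) =
      X ^ 2 * MonX_B f R w w + X * ∑ k, c k * (MonX_B f R w (v k) + MonX_B f R (v k) w) +
        ∑ k, ∑ k', c k * c k' * MonX_B f R (v k) (v k') := by
  have h1 : ∀ x y z, MonX_B f R (x + y) z = MonX_B f R x z + MonX_B f R y z := fun x y z => by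
    rw [map_add, LinearMap.add_apply]
  have h2 : ∀ x y z, MonX_B f R x (y + z) = MonX_B f R x y + MonX_B f R x z := fun x y z =>
    map_add _ _ _
  have h3 : ∀ (r : R) x y, MonX_B f R (r • x) y = r * MonX_B f R x y := fun r x y => by
    rw [map_smul, LinearMap.smul_apply, smul_eq_mul]
  have h4 : ∀ (r : R) x y, MonX_B f R x (r • y) = r * MonX_B f R x y := fun r x y => by
    rw [map_smul, smul_eq_mul]
  have h5 : ∀ y, MonX_B f R (∑ k, c k • v k) y = ∑ k, c k * MonX_B f R (v k) y := fun y => by
    rw [map_sum, LinearMap.sum_apply]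
    exact Finset.sum_congr rfl fun k _ => h3 _ _ _
  have h6 : ∀ y, MonX_B f R y (∑ k, c k • v k) = ∑ k, c k * MonX_B f R y (v k) := fun y => by
    rw [map_sum]
    exact Finset.sum_congr rfl fun k _ => h4 _ _ _
  rw [h1, h2, h2, h3, h4, h4, h3, h6, h5, h6]
  have h7 : ∑ k, c k * (MonX_B f R w (v k) + MonX_B f R (v k) w) =
      ∑ k, c k * MonX_B f R w (v k) + ∑ k, c k * MonX_B f R (v k) w := by
    rw [← Finset.sum_add_distrib]
    exact Finset.sum_congr rfl fun k _ => mul_add _ _ _
  have h8 : ∑ k, c k * MonX_B f R (∑ k, c k • v k) (v k) =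
      ∑ k, ∑ k', c k * c k' * MonX_B f R (v k) (v k') := by
    rw [Finset.sum_comm]
    refine Finset.sum_congr rfl fun k _ => ?_
    rw [h5, Finset.mul_sum]
    exact Finset.sum_congr rfl fun k' _ => by ring
  rw [h7, h8]
  ring

end bil

/-! ### the coordinates -/

section crd

/-- the vector with a unit value -/
private def MonX_w {A : Type} [CommRing A] {m : ℕ} (i : Fin (m + 1)) (ε : Fin m → A) :
    Fin (m + 1 + 1) → A := Fin.cons 0 (i.insertNth 1 ε : Fin (m + 1) → A)

/-- the other vectors -/
private def MonX_v (A : Type) [CommRing A] {m : ℕ} (i : Fin (m + 1)) :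
    Fin (m + 1) → Fin (m + 1 + 1) → A :=
  Fin.cons (α := fun _ => Fin (m + 1 + 1) → A) (Pi.single 0 1)
    fun k => Pi.single (i.succAbove k).succ 1

private theorem MonX_v_zero (A : Type) [CommRing A] {m : ℕ} (i : Fin (m + 1)) :
    MonX_v A i 0 = Pi.single 0 1 := rfl

private theorem MonX_v_succ (A : Type) [CommRing A] {m : ℕ} (i : Fin (m + 1)) (k : Fin m) :
    MonX_v A i k.succ = Pi.single (i.succAbove k).succ 1 := rfl

private theorem MonX_w_zero {A : Type} [CommRing A] {m : ℕ} (i : Fin (m + 1)) (ε : Fin m → A) :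
    MonX_w i ε 0 = 0 := rfl

private theorem MonX_w_i {A : Type} [CommRing A] {m : ℕ} (i : Fin (m + 1)) (ε : Fin m → A) :
    MonX_w i ε i.succ = 1 := by
  unfold MonX_w
  rw [Fin.cons_succ, Fin.insertNth_apply_same]

private theorem MonX_w_s {A : Type} [CommRing A] {m : ℕ} (i : Fin (m + 1)) (ε : Fin m → A)
    (k : Fin m) : MonX_w i ε (i.succAbove k).succ = ε k := by
  unfold MonX_w
  rw [Fin.cons_succ, Fin.insertNth_apply_succAbove]

/-- the automorphism -/
private noncomputable def MonX_al (V : Type) [CommRing V] {m : ℕ} (i : Fin (m + 1))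
    (ε : Fin m → V) : MvPolynomial (Fin (m + 1)) V ≃ₐ[V] MvPolynomial (Fin (m + 1)) V :=
  AlgEquiv.ofAlgHom
    (aeval (i.insertNth (X 0) (fun k => X k.succ + C (ε k) * X 0) :
      Fin (m + 1) → MvPolynomial (Fin (m + 1)) V))
    (aeval (Fin.cons (X i) (fun k => X (i.succAbove k) - C (ε k) * X i) :
      Fin (m + 1) → MvPolynomial (Fin (m + 1)) V))
    (by
      refine MvPolynomial.algHom_ext fun p => ?_
      rw [AlgHom.comp_apply, aeval_X, AlgHom.id_apply]
      refine Fin.cases ?_ (fun k => ?_) p
      · rw [Fin.cons_zero, aeval_X, Fin.insertNth_apply_same]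
      · rw [Fin.cons_succ, map_sub, map_mul, aeval_X, aeval_X, Fin.insertNth_apply_same,
          Fin.insertNth_apply_succAbove, algHom_C]
        exact add_sub_cancel_right _ _)
    (by
      refine MvPolynomial.algHom_ext fun p => ?_
      rw [AlgHom.comp_apply, aeval_X, AlgHom.id_apply]
      rcases Fin.eq_self_or_eq_succAbove i p with rfl | ⟨k, rfl⟩
      · rw [Fin.insertNth_apply_same, aeval_X, Fin.cons_zero]
      · rw [Fin.insertNth_apply_succAbove, map_add, map_mul, aeval_X, aeval_X, Fin.cons_zero,
          Fin.cons_succ, algHom_C]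
        exact sub_add_cancel _ _)

/-- the isomorphism of the polynomial rings -/
private noncomputable def MonX_Ph (V : Type) [CommRing V] {m : ℕ} (i : Fin (m + 1))
    (ε : Fin m → V) : MvPolynomial (Fin (m + 1)) V ≃ₐ[V] Polynomial (MvPolynomial (Fin m) V) :=
  (MonX_al V i ε).trans (finSuccEquiv V m)

private theorem MonX_Ph_i (V : Type) [CommRing V] {m : ℕ} (i : Fin (m + 1)) (ε : Fin m → V) :
    MonX_Ph V i ε (X i) = Polynomial.X := by
  show finSuccEquiv V m (aeval (i.insertNth (X 0) (fun k => X k.succ + C (ε k) * X 0) :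
      Fin (m + 1) → MvPolynomial (Fin (m + 1)) V) (X i)) = _
  rw [aeval_X, Fin.insertNth_apply_same, finSuccEquiv_X_zero]

private theorem MonX_Ph_s (V : Type) [CommRing V] {m : ℕ} (i : Fin (m + 1)) (ε : Fin m → V)
    (k : Fin m) : MonX_Ph V i ε (X (i.succAbove k)) =
      Polynomial.C (X k) + Polynomial.C (C (ε k)) * Polynomial.X := by
  show finSuccEquiv V m (aeval (i.insertNth (X 0) (fun k => X k.succ + C (ε k) * X 0) :
      Fin (m + 1) → MvPolynomial (Fin (m + 1)) V) (X (i.succAbove k))) = _
  rw [aeval_X, Fin.insertNth_apply_succAbove, map_add, map_mul, finSuccEquiv_X_zero,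
    finSuccEquiv_X_succ]
  congr 2
  exact (finSuccEquiv V m).commutes (ε k)

/-- the homogeneous coordinates -/
private theorem MonX_vec {A : Type} [CommRing A] (V : Type) [CommRing V] [Algebra A V] {m : ℕ}
    (i : Fin (m + 1)) (ε : Fin m → A) :
    (Fin.cons 1 (fun p => MonX_Ph V i (fun k => algebraMap A V (ε k)) (X p)) :
      Fin (m + 1 + 1) → Polynomial (MvPolynomial (Fin m) V)) =
    (Polynomial.X : Polynomial (MvPolynomial (Fin m) V)) •
        (fun a => algebraMap A (Polynomial (MvPolynomial (Fin m) V)) (MonX_w i ε a)) +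
      ∑ k, (Polynomial.C (yv V m k) : Polynomial (MvPolynomial (Fin m) V)) •
        (fun a => algebraMap A (Polynomial (MvPolynomial (Fin m) V)) (MonX_v A i k a)) := by
  funext a
  rw [Pi.add_apply, Pi.smul_apply, Finset.sum_apply, Fin.sum_univ_succ]
  simp only [Pi.smul_apply, smul_eq_mul]
  refine Fin.cases ?_ (fun b => ?_) a
  · rw [Fin.cons_zero, MonX_w_zero, MonX_v_zero, Pi.single_eq_same, map_zero, map_one, mul_zero,
      zero_add, mul_one]
    have h1 : ∀ k : Fin m, MonX_v A i k.succ 0 = 0 := fun k => by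
      rw [MonX_v_succ, Pi.single_eq_of_ne (Fin.succ_ne_zero _).symm]
    simp only [h1, map_zero, mul_zero, Finset.sum_const_zero, add_zero]
    unfold yv
    rw [Fin.cons_zero, map_one]
  · rw [Fin.cons_succ, MonX_v_zero, Pi.single_eq_of_ne (Fin.succ_ne_zero _), map_zero, mul_zero,
      zero_add]
    rcases Fin.eq_self_or_eq_succAbove i b with rfl | ⟨k, rfl⟩
    · rw [MonX_Ph_i, MonX_w_i, map_one, mul_one]
      have h1 : ∀ k : Fin m, MonX_v A b k.succ b.succ = 0 := fun k => by
        rw [MonX_v_succ, Pi.single_eq_of_ne]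
        exact fun h => Fin.succAbove_ne b k (Fin.succ_injective _ h).symm
      simp only [h1, map_zero, mul_zero, Finset.sum_const_zero, add_zero]
    · rw [MonX_Ph_s, MonX_w_s, Finset.sum_eq_single k]
      · rw [MonX_v_succ, Pi.single_eq_same, map_one, mul_one]
        have h1 : algebraMap A (Polynomial (MvPolynomial (Fin m) V)) (ε k) =
            Polynomial.C (C (algebraMap A V (ε k))) := rfl
        rw [h1]
        unfold yv
        rw [Fin.cons_succ]
        ring
      · intro k' _ hk
        rw [MonX_v_succ, Pi.single_eq_of_ne, map_zero, mul_zero]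
        exact fun h => hk (Fin.succAbove_right_injective (Fin.succ_injective _ h)).symm
      · intro h
        exact absurd (Finset.mem_univ k) h

end crd

/-! ### the quadratic data -/

section dat

variable {A : Type} [CommRing A] {m : ℕ}

/-- the quadratic data -/
private noncomputable def MonX_q (f : MvPolynomial (Fin (m + 1)) A) (i : Fin (m + 1))
    (ε : Fin m → A) (u' : A) : QD A m where
  lam k := u' * (MonX_B f A (MonX_w i ε) (MonX_v A i k) + MonX_B f A (MonX_v A i k) (MonX_w i ε))
  gam k k' := u' * MonX_B f A (MonX_v A i k) (MonX_v A i k')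

private theorem MonX_alg {R : Type} [CommRing R] {κ : Type} [Fintype κ] (X u u' : R)
    (h : u' * u = 1) (c l : κ → R) (g : κ → κ → R) :
    X ^ 2 * u + X * ∑ k, c k * l k + ∑ k, ∑ k', c k * c k' * g k k' =
      u * (X ^ 2 + (∑ k, (u' * l k) * c k) * X + ∑ k, ∑ k', (u' * g k k') * (c k * c k')) := by
  have h1 : ∑ k, (u' * l k) * c k = u' * ∑ k, c k * l k := by
    rw [Finset.mul_sum]
    exact Finset.sum_congr rfl fun k _ => by ring
  have h2 : ∑ k, ∑ k', (u' * g k k') * (c k * c k') = u' * ∑ k, ∑ k', c k * c k' * g k k' := by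
    rw [Finset.mul_sum]
    refine Finset.sum_congr rfl fun k _ => ?_
    rw [Finset.mul_sum]
    exact Finset.sum_congr rfl fun k' _ => by ring
  rw [h1, h2]
  linear_combination (-(X * ∑ k, c k * l k + ∑ k, ∑ k', c k * c k' * g k k')) * h

private theorem MonX_eq (f : MvPolynomial (Fin (m + 1)) A) (hf : f.totalDegree ≤ 2)
    (i : Fin (m + 1)) (ε : Fin m → A) (u' : A) (hu' : u' * MonX_B f A (MonX_w i ε) (MonX_w i ε) = 1)
    (V : Type) [CommRing V] [Algebra A V] :
    MonX_Ph V i (fun k => algebraMap A V (ε k)) (MvPolynomial.map (algebraMap A V) f) =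
      algebraMap A (Polynomial (MvPolynomial (Fin m) V))
        (MonX_B f A (MonX_w i ε) (MonX_w i ε)) * (Polynomial.X ^ 2 +
            Polynomial.C ((MonX_q f i ε u').map (algebraMap A V)).l * Polynomial.X +
            Polynomial.C ((MonX_q f i ε u').map (algebraMap A V)).g :
              Polynomial (MvPolynomial (Fin m) V)) := by
  obtain ⟨ι, hι⟩ : ∃ ι : A →+* Polynomial (MvPolynomial (Fin m) V),
    ι = algebraMap A (Polynomial (MvPolynomial (Fin m) V)) := ⟨_, rfl⟩
  have h1 : MonX_Ph V i (fun k => algebraMap A V (ε k)) (MvPolynomial.map (algebraMap A V) f) =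
      aeval (fun p => MonX_Ph V i (fun k => algebraMap A V (ε k)) (X p)) f := by
    rw [← aeval_map_algebraMap V]
    exact DFunLike.congr_fun (aeval_unique
      (MonX_Ph V i (fun k => algebraMap A V (ε k))).toAlgHom) _
  have h2 : ∀ x y : Fin (m + 1 + 1) → A, MonX_B f (Polynomial (MvPolynomial (Fin m) V))
      (fun a => ι (x a)) (fun a => ι (y a)) = ι (MonX_B f A x y) := fun x y => by
    rw [hι]
    exact MonX_B_map f (Algebra.ofId A (Polynomial (MvPolynomial (Fin m) V))) x y
  have hl : Polynomial.C ((MonX_q f i ε u').map (algebraMap A V)).l =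
      ∑ k, (ι u' * (ι (MonX_B f A (MonX_w i ε) (MonX_v A i k)) +
        ι (MonX_B f A (MonX_v A i k) (MonX_w i ε)))) * Polynomial.C (yv V m k) := by
    have e1 : ∀ k, ι u' * (ι (MonX_B f A (MonX_w i ε) (MonX_v A i k)) +
        ι (MonX_B f A (MonX_v A i k) (MonX_w i ε))) = ι ((MonX_q f i ε u').lam k) := fun k => by
      rw [← map_add, ← map_mul]
      rfl
    simp only [e1]
    rw [hι]
    unfold QD.l QD.map
    rw [map_sum]
    exact Finset.sum_congr rfl fun k _ => map_mul _ _ _
  have hg : Polynomial.C ((MonX_q f i ε u').map (algebraMap A V)).g =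
      ∑ k, ∑ k', (ι u' * ι (MonX_B f A (MonX_v A i k) (MonX_v A i k'))) *
        (Polynomial.C (yv V m k) * Polynomial.C (yv V m k')) := by
    have e1 : ∀ k k', ι u' * ι (MonX_B f A (MonX_v A i k) (MonX_v A i k')) =
        ι ((MonX_q f i ε u').gam k k') := fun k k' => by
      rw [← map_mul]
      rfl
    simp only [e1]
    rw [hι]
    unfold QD.g QD.map
    rw [map_sum]
    refine Finset.sum_congr rfl fun k _ => ?_
    rw [map_sum]
    refine Finset.sum_congr rfl fun k' _ => ?_
    rw [map_mul, map_mul]
    rfl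
  have hu2 : ι u' * ι (MonX_B f A (MonX_w i ε) (MonX_w i ε)) = 1 := by
    rw [← map_mul, hu', map_one]
  rw [h1, MonX_aeval f hf, MonX_vec, ← hι, MonX_expand, hl, hg]
  simp only [h2]
  exact MonX_alg _ _ _ hu2 _ _ _

end dat

/-! ### the Clifford algebra -/

section cli

variable {A K : Type} [CommRing A] [Field K] [Algebra A K]

private theorem MonX_hform {n : ℕ} (f : MvPolynomial (Fin n) A) (x : Fin (n + 1) → K) :
    hform (MvPolynomial.map (algebraMap A K) f) x = MonX_B f K x x := by
  unfold hform
  rw [sum_apply, MonX_B_apply]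
  refine Finset.sum_congr rfl fun a _ => ?_
  rw [sum_apply]
  refine Finset.sum_congr rfl fun b _ => ?_
  unfold MonX_c
  split_ifs with h
  · rw [smul_apply, QuadraticMap.linMulLin_apply, coeff_map, smul_eq_mul]
    simp only [LinearMap.proj_apply]
    ring
  · rw [map_zero, mul_zero, zero_mul]
    rfl

private theorem MonX_polar {n : ℕ} (f : MvPolynomial (Fin n) A) (x y : Fin (n + 1) → K) :
    QuadraticMap.polar (hform (MvPolynomial.map (algebraMap A K) f)) x y =
      MonX_B f K x y + MonX_B f K y x := by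
  unfold QuadraticMap.polar
  rw [MonX_hform, MonX_hform, MonX_hform, MonX_add]
  ring

/-- the basis -/
private theorem MonX_basis {m : ℕ} (i : Fin (m + 1)) (ε : Fin m → A) :
    ∃ b : Module.Basis (Option (Fin (m + 1))) K (Fin (m + 1 + 1) → K),
      (b none = fun a => algebraMap A K (MonX_w i ε a)) ∧
      ∀ k, b (some k) = fun a => algebraMap A K (MonX_v A i k a) := by
  let v : Option (Fin (m + 1)) → (Fin (m + 1 + 1) → K) := fun o =>
    o.elim (fun a => algebraMap A K (MonX_w i ε a)) fun k a => algebraMap A K (MonX_v A i k a)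
  have hli : LinearIndependent K v := by
    rw [Fintype.linearIndependent_iff]
    intro g hg
    have h1 : ∀ a, g none * algebraMap A K (MonX_w i ε a) +
        (g (some 0) * algebraMap A K (MonX_v A i 0 a) +
          ∑ k : Fin m, g (some k.succ) * algebraMap A K (MonX_v A i k.succ a)) = 0 := by
      intro a
      have h2 := congrFun hg a
      rw [Fintype.sum_option, Fin.sum_univ_succ] at h2
      simpa [v] using h2
    have e0 : g none = 0 := by
      have h2 := h1 i.succ
      have h3 : ∀ k : Fin m, MonX_v A i k.succ i.succ = 0 := fun k => by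
        rw [MonX_v_succ, Pi.single_eq_of_ne]
        exact fun h => Fin.succAbove_ne i k (Fin.succ_injective _ h).symm
      rw [MonX_w_i, MonX_v_zero, Pi.single_eq_of_ne (Fin.succ_ne_zero _)] at h2
      simpa only [h3, map_zero, mul_zero, Finset.sum_const_zero, add_zero, map_one, mul_one]
        using h2
    have e1 : g (some 0) = 0 := by
      have h2 := h1 0
      have h3 : ∀ k : Fin m, MonX_v A i k.succ 0 = 0 := fun k => by
        rw [MonX_v_succ, Pi.single_eq_of_ne (Fin.succ_ne_zero _).symm]
      rw [MonX_w_zero, MonX_v_zero, Pi.single_eq_same] at h2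
      simpa only [h3, map_zero, mul_zero, Finset.sum_const_zero, add_zero, zero_add, map_one,
        mul_one] using h2
    have e2 : ∀ k : Fin m, g (some k.succ) = 0 := by
      intro k
      have h2 := h1 (i.succAbove k).succ
      rw [e0, e1, zero_mul, zero_mul, zero_add, zero_add, Finset.sum_eq_single k] at h2
      · rwa [MonX_v_succ, Pi.single_eq_same, map_one, mul_one] at h2
      · intro k' _ hk
        rw [MonX_v_succ, Pi.single_eq_of_ne, map_zero, mul_zero]
        exact fun h => hk (Fin.succAbove_right_injective (Fin.succ_injective _ h)).symm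
      · intro h
        exact absurd (Finset.mem_univ k) h
    rintro (_ | k)
    · exact e0
    · refine Fin.cases ?_ (fun k => ?_) k
      · exact e1
      · exact e2 k
  have hcard : Fintype.card (Option (Fin (m + 1))) =
      Module.finrank K (Fin (m + 1 + 1) → K) := by
    rw [Fintype.card_option, Fintype.card_fin, Module.finrank_fin_fun]
  refine ⟨basisOfLinearIndependentOfCardEqFinrank hli hcard, ?_, fun k => ?_⟩
  · rw [coe_basisOfLinearIndependentOfCardEqFinrank]
    rfl
  · rw [coe_basisOfLinearIndependentOfCardEqFinrank]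
    rfl

private theorem MonX_main (m : ℕ) (f : MvPolynomial (Fin (m + 1)) A) (hf : f.totalDegree ≤ 2)
    (i : Fin (m + 1)) (ε : Fin m → A) (hu : IsUnit (MonX_B f A (MonX_w i ε) (MonX_w i ε))) :
    ∃ (m' : ℕ) (q : QD A m'),
      (∀ (V : Type) [CommRing V] [Algebra A V],
        Nonempty ((MvPolynomial (Fin (m + 1)) V ⧸
            Ideal.span {MvPolynomial.map (algebraMap A V) f}) ≃+*
          (Polynomial (MvPolynomial (Fin m') V) ⧸ Ideal.span {(Polynomial.X ^ 2 +
            Polynomial.C (q.map (algebraMap A V)).l * Polynomial.X +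
            Polynomial.C (q.map (algebraMap A V)).g : Polynomial (MvPolynomial (Fin m') V))}))) ∧
      Nonempty (CliffordAlgebra.even (hform (MvPolynomial.map (algebraMap A K) f)) ≃ₐ[K]
        Lam (q.map (algebraMap A K))) := by
  obtain ⟨u', hu'⟩ := hu.exists_left_inv
  refine ⟨m, MonX_q f i ε u', ?_, ?_⟩
  · intro V _ _
    refine ⟨Ideal.quotientEquiv _ _
      (MonX_Ph V i (fun k => algebraMap A V (ε k))).toRingEquiv ?_⟩
    rw [Ideal.map_span, Set.image_singleton]
    have h1 := MonX_eq f hf i ε u' hu' V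
    have h2 : IsUnit (algebraMap A (Polynomial (MvPolynomial (Fin m) V))
        (MonX_B f A (MonX_w i ε) (MonX_w i ε))) := hu.map _
    have h3 := Ideal.span_singleton_mul_left_unit h2 (Polynomial.X ^ 2 +
            Polynomial.C ((MonX_q f i ε u').map (algebraMap A V)).l * Polynomial.X +
            Polynomial.C ((MonX_q f i ε u').map (algebraMap A V)).g :
              Polynomial (MvPolynomial (Fin m) V))
    rw [← h1] at h3
    exact h3.symm
  · obtain ⟨b, hb0, hb1⟩ := MonX_basis (K := K) i ε
    have hB : ∀ x y : Fin (m + 1 + 1) → A, MonX_B f K (fun a => algebraMap A K (x a))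
        (fun a => algebraMap A K (y a)) = algebraMap A K (MonX_B f A x y) := fun x y =>
      MonX_B_map f (Algebra.ofId A K) x y
    have hu2 : algebraMap A K (MonX_B f A (MonX_w i ε) (MonX_w i ε)) * algebraMap A K u' = 1 := by
      rw [← map_mul, mul_comm, hu', map_one]
    refine EvC (hform (MvPolynomial.map (algebraMap A K) f)) m b
      (algebraMap A K (MonX_B f A (MonX_w i ε) (MonX_w i ε))) (hu.map _).ne_zero ?_ _ ?_ ?_ ?_
    · rw [MonX_hform, hb0, hB]
    · intro k
      rw [MonX_polar, hb0, hb1, hB, hB]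
      show _ * algebraMap A K (u' * _) = _
      rw [map_mul, ← mul_assoc, hu2, one_mul, map_add]
    · intro k
      rw [MonX_hform, hb1, hB]
      show _ * algebraMap A K (u' * _) = _
      rw [map_mul, ← mul_assoc, hu2, one_mul]
    · intro k k' _
      rw [MonX_polar, hb1, hb1, hB, hB]
      show _ * (algebraMap A K (u' * _) + algebraMap A K (u' * _)) = _
      rw [map_mul, map_mul, ← mul_add, ← mul_assoc, hu2, one_mul]

end cli

theorem MonX {A K : Type} [CommRing A] [IsDomain A] [Field K] [Algebra A K] [IsFractionRing A K]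
    (n : ℕ) (f : MvPolynomial (Fin n) A) (hf : f.totalDegree ≤ 2)
    (hu : (∃ i, IsUnit (f.coeff (Finsupp.single i 2))) ∨ ∃ i j, i ≠ j ∧
      IsUnit (f.coeff (Finsupp.single i 2) + f.coeff (Finsupp.single j 2) +
        f.coeff (Finsupp.single i 1 + Finsupp.single j 1))) :
    ∃ (m : ℕ) (q : QD A m),
      (∀ (V : Type) [CommRing V] [Algebra A V],
        Nonempty ((MvPolynomial (Fin n) V ⧸ Ideal.span {MvPolynomial.map (algebraMap A V) f}) ≃+*
          (Polynomial (MvPolynomial (Fin m) V) ⧸ Ideal.span {(Polynomial.X ^ 2 +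
            Polynomial.C (q.map (algebraMap A V)).l * Polynomial.X +
            Polynomial.C (q.map (algebraMap A V)).g : Polynomial (MvPolynomial (Fin m) V))}))) ∧
      Nonempty (CliffordAlgebra.even (hform (MvPolynomial.map (algebraMap A K) f)) ≃ₐ[K]
        Lam (q.map (algebraMap A K))) := by
  rcases n with _ | m
  · rcases hu with ⟨i, _⟩ | ⟨i, _⟩
    · exact i.elim0
    · exact i.elim0
  have hs : ∀ i : Fin (m + 1), expo (m + 1) i.succ + expo (m + 1) i.succ = Finsupp.single i 2 := by
    intro i
    have h1 : expo (m + 1) i.succ = Finsupp.single i 1 := rfl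
    rw [h1, ← Finsupp.single_add]
  rcases hu with ⟨i, hi⟩ | ⟨i, j, hij, hi⟩
  · refine MonX_main m f hf i 0 ?_
    have h1 : MonX_w i (0 : Fin m → A) = Pi.single i.succ 1 := by
      funext a
      refine Fin.cases ?_ (fun b => ?_) a
      · rw [MonX_w_zero, Pi.single_eq_of_ne (Fin.succ_ne_zero i).symm]
      · rcases Fin.eq_self_or_eq_succAbove i b with rfl | ⟨k, rfl⟩
        · rw [MonX_w_i, Pi.single_eq_same]
        · rw [MonX_w_s, Pi.single_eq_of_ne]
          · rfl
          · exact fun h => Fin.succAbove_ne i k (Fin.succ_injective _ h)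
    rw [h1, MonX_B_single]
    unfold MonX_c
    rw [if_pos le_rfl, hs]
    exact hi
  · obtain ⟨k₀, rfl⟩ : ∃ k₀, j = i.succAbove k₀ := by
      rcases Fin.eq_self_or_eq_succAbove i j with h | h
      · exact absurd h.symm hij
      · exact h
    refine MonX_main m f hf i (Pi.single k₀ 1) ?_
    have h1 : MonX_w i (Pi.single k₀ 1 : Fin m → A) =
        Pi.single i.succ 1 + Pi.single (i.succAbove k₀).succ 1 := by
      funext a
      rw [Pi.add_apply]
      refine Fin.cases ?_ (fun b => ?_) a
      · rw [MonX_w_zero, Pi.single_eq_of_ne (Fin.succ_ne_zero i).symm,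
          Pi.single_eq_of_ne (Fin.succ_ne_zero _).symm, add_zero]
      · rcases Fin.eq_self_or_eq_succAbove i b with rfl | ⟨k, rfl⟩
        · rw [MonX_w_i, Pi.single_eq_same, Pi.single_eq_of_ne, add_zero]
          exact fun h => Fin.succAbove_ne b k₀ (Fin.succ_injective _ h).symm
        · rw [MonX_w_s, Pi.single_eq_of_ne (M := fun _ => A)
            (fun h => Fin.succAbove_ne i k (Fin.succ_injective _ h) :
              (i.succAbove k).succ ≠ i.succ), zero_add]
          by_cases hk : k = k₀
          · subst hk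
            rw [Pi.single_eq_same, Pi.single_eq_same]
          · rw [Pi.single_eq_of_ne hk, Pi.single_eq_of_ne]
            exact fun h => hk (Fin.succAbove_right_injective (Fin.succ_injective _ h))
    rw [h1, MonX_add, MonX_B_single, MonX_B_single, MonX_B_single, MonX_B_single]
    unfold MonX_c
    rw [if_pos le_rfl, if_pos le_rfl, hs, hs]
    have h2 : ∀ i : Fin (m + 1), expo (m + 1) i.succ = Finsupp.single i 1 := fun _ => rfl
    rw [h2, h2, add_comm (Finsupp.single (i.succAbove k₀) 1)]
    rcases lt_or_gt_of_ne hij with h3 | h3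
    · have h4 : i.succ ≤ (i.succAbove k₀).succ := Fin.succ_le_succ_iff.2 h3.le
      have h5 : ¬ (i.succAbove k₀).succ ≤ i.succ := fun h =>
        absurd (Fin.succ_le_succ_iff.1 h) (not_le.2 h3)
      rw [if_pos h4, if_neg h5]
      simp only [Algebra.algebraMap_self, RingHom.id_apply]
      have e : f.coeff (Finsupp.single i 2) + f.coeff (Finsupp.single i 1 +
          Finsupp.single (i.succAbove k₀) 1) +
          (0 + f.coeff (Finsupp.single (i.succAbove k₀) 2)) =
          f.coeff (Finsupp.single i 2) + f.coeff (Finsupp.single (i.succAbove k₀) 2) +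
            f.coeff (Finsupp.single i 1 + Finsupp.single (i.succAbove k₀) 1) := by ring
      rw [e]
      exact hi
    · have h4 : (i.succAbove k₀).succ ≤ i.succ := Fin.succ_le_succ_iff.2 h3.le
      have h5 : ¬ i.succ ≤ (i.succAbove k₀).succ := fun h =>
        absurd (Fin.succ_le_succ_iff.1 h) (not_le.2 h3)
      rw [if_pos h4, if_neg h5]
      simp only [Algebra.algebraMap_self, RingHom.id_apply]
      have e : f.coeff (Finsupp.single i 2) + 0 + (f.coeff (Finsupp.single i 1 +
          Finsupp.single (i.succAbove k₀) 1) +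
          f.coeff (Finsupp.single (i.succAbove k₀) 2)) =
          f.coeff (Finsupp.single i 2) + f.coeff (Finsupp.single (i.succAbove k₀) 2) +
            f.coeff (Finsupp.single i 1 + Finsupp.single (i.succAbove k₀) 1) := by ring
      rw [e]
      exact hi

end Pool.Agent.QCT
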