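import Pool.Agent.Helper67.Bass.Good
import Pool.Agent.BassH.Dim2

/-!
# QCT, module SPR: a finitely generated domain whose fraction field is `F(t)`

Proof. Adapt the proof of `RationalOverKroneckerLeOne.good` in `Pool/Agent/Helper67/Bass/Good.lean` (the case of one variable,
without the part about principal ideal domains). Let `g_1, …, g_k` generate `A` as a ring. Write
`g_i = p_i(t) / q_i(t)` with `p_i, q_i ∈ F[X]`, `q_i(t) ≠ 0` (`IntermediateField.mem_adjoin_simple_iff`). `R0` is the subring of `F` generated by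
the coefficients of all `p_i`, `q_i` (`Algebra.adjoin ℤ` of a finite set; finitely generated over `ℤ`), `φ : R0[X] → K` the evaluation at
`t`, injective since `t` is transcendental over `F`. `KroneckerLeOne (FractionRing R0)` by `KroneckerLeOne.of_hom` (`R0 ⊆ F`;
see `pid_aw` in `Aw.lean`). `Q = ∏ q_i`: the subring of all `y` with `y * φ Q ^ k ∈ φ.range` for some `k` (`aw φ.range (φ Q) _`) contains all `g_i`,
hence `A`. Every element of `K` is a quotient of elements of `A`, so of elements of `φ.range` (times powers of `φ Q`). For the last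
claim: `R0` is generated by finitely many elements, these and `t` are quotients `a / b` of elements of `A`; take for `s` the product of
the denominators (`exists_common` in `Good.lean` or `BassH.exists_aw`).
-/

set_option autoImplicit false

namespace Pool.Agent.QCT

open Function Polynomial Pool.Agent.Helper67.Bass

theorem SPR {A K : Type} [CommRing A] [IsDomain A] [Algebra.FiniteType ℤ A] [Field K] [Algebra A K]
    [IsFractionRing A K] (F : Subfield K) (hF : KroneckerLeOne F) (t : K)
    (ht : Transcendental F t) (htop : IntermediateField.adjoin F {t} = ⊤) :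
    ∃ (R0 : Type) (_ : CommRing R0) (_ : IsDomain R0) (_ : Algebra.FiniteType ℤ R0)
      (φ : R0[X] →+* K), Injective φ ∧ KroneckerLeOne (FractionRing R0) ∧
      (∃ i : R0 →+* F, ∀ r, φ (C r) = i r) ∧
      (∀ x : K, ∃ p q : R0[X], φ q ≠ 0 ∧ x * φ q = φ p) ∧
      (∃ Q : R0[X], φ Q ≠ 0 ∧ ∀ a : A, ∃ (k : ℕ) (p : R0[X]), algebraMap A K a * φ Q ^ k = φ p) ∧
      ∃ s : A, s ≠ 0 ∧ ∀ p : R0[X], ∃ (k : ℕ) (a : A),
        φ p * algebraMap A K s ^ k = algebraMap A K a := by
  classical
  obtain ⟨G, hG⟩ := (Algebra.FiniteType.out : (⊤ : Subalgebra ℤ A).FG)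
  have hrep : ∀ g : K, ∃ p q : F[X], aeval t q ≠ 0 ∧ g * aeval t q = aeval t p := by
    intro g
    have hg : g ∈ IntermediateField.adjoin F {t} := by
      rw [htop]; exact IntermediateField.mem_top
    obtain ⟨r, s, hrs⟩ := (IntermediateField.mem_adjoin_simple_iff F g).1 hg
    by_cases hs : aeval t s = 0
    · refine ⟨0, 1, ?_, ?_⟩
      · rw [map_one]; exact one_ne_zero
      · rw [hs, div_zero] at hrs
        rw [hrs, map_zero, zero_mul]
    · exact ⟨r, s, hs, by rw [hrs, div_mul_cancel₀ _ hs]⟩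
  choose p q hq hpq using fun a : A => hrep (algebraMap A K a)
  let S : Finset F := G.biUnion
    (fun g => (p g).support.image (p g).coeff ∪ (q g).support.image (q g).coeff)
  let R0 : Subalgebra ℤ F := Algebra.adjoin ℤ (S : Set F)
  have hR0 : Algebra.FiniteType ℤ R0 := (Subalgebra.fg_iff_finiteType R0).1 ⟨S, rfl⟩
  let i : R0 →+* F := R0.toSubring.subtype
  let φ : R0[X] →+* K := eval₂RingHom (F.subtype.comp i) t
  have hφC : ∀ r : R0, φ (C r) = (i r : F) := fun r => eval₂_C _ _
  have hφX : φ X = t := eval₂_X _ _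
  have hφmap : ∀ f : R0[X], φ f = aeval t (f.map i) := fun f => by
    rw [aeval_def, eval₂_map]
    rfl
  have hφinj : Injective φ := by
    intro f g hfg
    rw [hφmap, hφmap] at hfg
    have h2 : Injective (aeval t : F[X] →ₐ[F] K) := transcendental_iff_injective.1 ht
    exact map_injective i Subtype.val_injective (h2 hfg)
  have hmem : ∀ r : F[X], (∀ d ∈ r.support, r.coeff d ∈ S) → aeval t r ∈ φ.range := by
    intro r hr
    rw [aeval_def, eval₂_eq_sum, Polynomial.sum]
    refine sum_mem fun d hd => mul_mem ?_ (pow_mem (show t ∈ φ.range from ⟨X, hφX⟩) _)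
    exact ⟨C ⟨r.coeff d, Algebra.subset_adjoin (hr d hd)⟩, hφC _⟩
  have hpmem : ∀ g ∈ G, aeval t (p g) ∈ φ.range := by
    intro g hg
    apply hmem
    intro d hd
    exact Finset.mem_biUnion.2 ⟨g, hg, Finset.mem_union_left _ (Finset.mem_image_of_mem _ hd)⟩
  have hqmem : ∀ g ∈ G, aeval t (q g) ∈ φ.range := by
    intro g hg
    apply hmem
    intro d hd
    exact Finset.mem_biUnion.2 ⟨g, hg, Finset.mem_union_right _ (Finset.mem_image_of_mem _ hd)⟩
  set Q : K := ∏ g ∈ G, aeval t (q g) with hQ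
  have hQmem : Q ∈ φ.range := prod_mem (fun g hg => hqmem g hg)
  have hQ0 : Q ≠ 0 := Finset.prod_ne_zero_iff.2 (fun g _ => hq g)
  have hA : ∀ a : A, algebraMap A K a ∈ aw φ.range Q hQmem := by
    have h1 : (⊤ : Subalgebra ℤ A) ≤
        subalgebraOfSubring ((aw φ.range Q hQmem).comap (algebraMap A K)) := by
      rw [← hG, Algebra.adjoin_le_iff]
      intro g hg
      refine ⟨1, ?_⟩
      rw [pow_one, hQ, ← Finset.mul_prod_erase _ _ hg, ← mul_assoc, hpq g]
      exact mul_mem (hpmem g hg) (prod_mem (fun k hk => hqmem k (Finset.mem_of_mem_erase hk)))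
    exact fun a => h1 Algebra.mem_top
  obtain ⟨Q', hQ'⟩ := hQmem
  have hQ'0 : φ Q' ≠ 0 := by rw [hQ']; exact hQ0
  have hA' : ∀ a : A, ∃ (k : ℕ) (p : R0[X]), algebraMap A K a * φ Q' ^ k = φ p := fun a => by
    obtain ⟨k, f, hf⟩ := hA a
    exact ⟨k, f, by rw [hf, hQ']⟩
  -- denominators
  let B : Subring K := (algebraMap A K).range
  have hfrac : ∀ x : K, ∃ a ∈ B, ∃ b ∈ B, b ≠ 0 ∧ x * b = a := fun x => by
    obtain ⟨a, b, hb, hx⟩ := IsFractionRing.div_surjective (A := A) x
    have hb0 : algebraMap A K b ≠ 0 := by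
      intro h0
      exact nonZeroDivisors.ne_zero hb (IsFractionRing.injective A K (by rw [h0, map_zero]))
    exact ⟨_, ⟨a, rfl⟩, _, ⟨b, rfl⟩, hb0, by rw [← hx, div_mul_cancel₀ _ hb0]⟩
  obtain ⟨s, ⟨s0, hs0⟩, hsne, hX⟩ := exists_common B hfrac (S.image F.subtype ∪ {t})
  have hsB : s ∈ B := ⟨s0, hs0⟩
  have hR0le : ∀ r : R0, ((i r : F) : K) ∈ aw B s hsB := by
    have h1 : R0 ≤ subalgebraOfSubring ((aw B s hsB).comap F.subtype) := by
      rw [Algebra.adjoin_le_iff]
      intro x hx
      exact hX _ (Finset.mem_union_left _ (Finset.mem_image_of_mem _ hx))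
    exact fun r => h1 r.2
  have hφle : ∀ f : R0[X], φ f ∈ aw B s hsB := by
    intro f
    induction f using Polynomial.induction_on' with
    | add f g hf hg => rw [map_add]; exact add_mem hf hg
    | monomial n a =>
      rw [← C_mul_X_pow_eq_monomial, map_mul, map_pow, hφC, hφX]
      exact mul_mem (hR0le a) (pow_mem (hX _ (Finset.mem_union_right _
        (Finset.mem_singleton_self _))) _)
  refine ⟨R0, inferInstance, inferInstance, hR0, φ, hφinj, ?_, ⟨i, hφC⟩, ?_,
    ⟨Q', hQ'0, hA'⟩, ⟨s0, ?_, ?_⟩⟩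
  · exact KroneckerLeOne.of_hom (IsFractionRing.lift (A := R0) (K := FractionRing R0)
      (g := i) Subtype.val_injective) hF
  · intro x
    obtain ⟨a, b, hb, hx⟩ := IsFractionRing.div_surjective (A := A) x
    have hb0 : algebraMap A K b ≠ 0 := by
      intro h0
      exact nonZeroDivisors.ne_zero hb (IsFractionRing.injective A K (by rw [h0, map_zero]))
    obtain ⟨k, f, hf⟩ := hA' a
    obtain ⟨l, g, hg⟩ := hA' b
    refine ⟨f * Q' ^ l, g * Q' ^ k, ?_, ?_⟩
    · rw [map_mul, map_pow, ← hg]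
      exact mul_ne_zero (mul_ne_zero hb0 (pow_ne_zero _ hQ'0)) (pow_ne_zero _ hQ'0)
    · rw [map_mul, map_mul, map_pow, map_pow, ← hg, ← hf, ← hx]
      field_simp
  · rintro rfl
    rw [map_zero] at hs0
    exact hsne hs0.symm
  · intro f
    obtain ⟨k, a, ha⟩ := hφle f
    exact ⟨k, a, by rw [hs0, ha]⟩

end Pool.Agent.QCT
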