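import Pool.Agent.QCT.Defs
import Pool.Agent.QCB.QS

/-!
# QCT, module TER: nondegenerate ternary forms

Proof. `2 ≠ 0`: an orthogonal basis `v_0, v_1, v_2` (`LinearMap.BilinForm.exists_orthogonal_basis`), `α_i = Q(v_i) ≠ 0`. The algebra
homomorphism `ℍ[K,-α_0 α_1,-α_1 α_2] → even Q`, `i ↦ v_0 v_1`, `j ↦ v_1 v_2` (`QuaternionAlgebra.lift`) is surjective (`v_0 v_1 v_1 v_2 =
α_1 v_0 v_2`, and `even Q` is generated by products of two vectors) and injective (`ℍ[K,a,b]` is a simple ring: if `z ≠ 0` is in the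
kernel then `QS1` for `q = 0` and `N = ℍ/I`, or directly `a z + i z i = 2 a (z_0 + z_1 i)`, ..., gives a nonzero scalar in the kernel, but
`even Q` is nontrivial). So `even Q ≅ ℍ[K,a,b] = M_1(ℍ[K,a,b])`: `QuatSplit` with `r = 1`, `d = 1`, `r' = 0`.
-/

set_option autoImplicit false

namespace Pool.Agent.QCT

open Function Quaternion

/-- invariance of the hypothesis under isomorphisms -/
theorem QuatSplit.congr {K Λ Λ' : Type} [Field K] [Ring Λ] [Ring Λ'] [Algebra K Λ] [Algebra K Λ']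
    (e : Λ ≃ₐ[K] Λ') (h : QuatSplit K Λ) : QuatSplit K Λ' := by
  obtain ⟨r, d, a, b, r', d', π, hab, hsurj, n, hn⟩ := h
  refine ⟨r, d, a, b, r', d', π.comp (e.symm : Λ' →ₐ[K] Λ), hab, ?_, n, ?_⟩
  · intro y
    obtain ⟨x, hx⟩ := hsurj y
    refine ⟨e x, ?_⟩
    rw [AlgHom.comp_apply]
    simpa using hx
  · have key : ∀ n : ℕ, ∀ y ∈ (RingHom.ker (π.comp (e.symm : Λ' →ₐ[K] Λ))) ^ n,
        e.symm y ∈ (RingHom.ker π) ^ n := by
      intro n
      induction n with
      | zero =>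
        intro y _
        rw [Submodule.pow_zero, Submodule.one_eq_span]
        exact Submodule.mem_span_singleton.2 ⟨e.symm y, by rw [smul_eq_mul, mul_one]⟩
      | succ n ih =>
        intro y hy
        rw [Submodule.pow_succ] at hy ⊢
        have h1 : (RingHom.ker (π.comp (e.symm : Λ' →ₐ[K] Λ))) ^ n *
            (RingHom.ker (π.comp (e.symm : Λ' →ₐ[K] Λ))) ≤
            Ideal.comap (e.symm : Λ' ≃ₐ[K] Λ) ((RingHom.ker π) ^ n * RingHom.ker π) := by
          rw [Ideal.mul_le]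
          intro u hu v hv
          rw [Ideal.mem_comap, map_mul]
          refine Ideal.mul_mem_mul (ih u hu) ?_
          rw [RingHom.mem_ker] at hv ⊢
          exact hv
        exact h1 hy
    rw [Submodule.zero_eq_bot, eq_bot_iff]
    intro y hy
    have h1 := key n y hy
    rw [hn] at h1
    have h2 : e.symm y = 0 := h1
    have h3 : y = 0 := by
      rw [← e.apply_symm_apply y, h2, map_zero]
    rw [h3]
    exact Submodule.zero_mem _

/-- the quaternion algebra itself -/
private theorem TER_quat {K : Type} [Field K] (a b : K) (ha : a ≠ 0) (hb : b ≠ 0) :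
    QuatSplit K ℍ[K,a,b] := by
  refine ⟨1, fun _ => 1, fun _ => a, fun _ => b, 0, fun i => i.elim0,
    AlgHom.prod (AlgHom.pi fun _ => Matrix.scalarAlgHom (Fin 1) K)
      (AlgHom.pi fun i => i.elim0), fun _ => ⟨ha, hb⟩, ?_, 1, ?_⟩
  · rintro ⟨m, m'⟩
    refine ⟨m 0 0 0, ?_⟩
    refine Prod.ext ?_ ?_
    · funext i
      have hi : i = 0 := Subsingleton.elim _ _
      subst hi
      funext p q
      have hp : p = 0 := Subsingleton.elim (α := Fin 1) _ _
      have hq : q = 0 := Subsingleton.elim (α := Fin 1) _ _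
      rw [hp, hq]
      change Matrix.scalar (Fin 1) (m 0 0 0) 0 0 = m 0 0 0
      rw [Matrix.scalar_apply, Matrix.diagonal_apply_eq]
    · funext i
      exact i.elim0
  · rw [Submodule.pow_one, Submodule.zero_eq_bot, eq_bot_iff]
    intro z hz
    rw [RingHom.mem_ker] at hz
    have h1 := congrFun (congrArg Prod.fst hz) 0
    have h2 : Matrix.scalar (Fin 1) z 0 0 = (0 : ℍ[K,a,b]) := congrFun (congrFun h1 0) 0
    rw [Matrix.scalar_apply, Matrix.diagonal_apply_eq] at h2
    rw [h2]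
    exact Submodule.zero_mem _

/-- homomorphisms from a quaternion algebra to a nontrivial algebra are injective -/
private theorem TER_inj {K Λ : Type} [Field K] [Ring Λ] [Algebra K Λ] [Nontrivial Λ] (a b : K)
    (h2 : (2 : K) ≠ 0) (ha : a ≠ 0) (hb : b ≠ 0) (f : ℍ[K,a,b] →ₐ[K] Λ) : Injective f := by
  have h4 : (4 : K) ≠ 0 := by
    have : (4 : K) = 2 * 2 := by norm_num
    rw [this]
    exact mul_ne_zero h2 h2
  -- real parts of elements of the kernel vanish
  have hre : ∀ w : ℍ[K,a,b], f w = 0 → w.re = 0 := by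
    intro w hw
    have h1 : algebraMap K ℍ[K,a,b] (4 * a * b * w.re) =
        algebraMap K ℍ[K,a,b] b * (algebraMap K ℍ[K,a,b] a * w +
          (⟨0, 1, 0, 0⟩ : ℍ[K,a,b]) * (w * (⟨0, 1, 0, 0⟩ : ℍ[K,a,b]))) +
        (⟨0, 0, 1, 0⟩ : ℍ[K,a,b]) * ((algebraMap K ℍ[K,a,b] a * w +
          (⟨0, 1, 0, 0⟩ : ℍ[K,a,b]) * (w * (⟨0, 1, 0, 0⟩ : ℍ[K,a,b]))) *
            (⟨0, 0, 1, 0⟩ : ℍ[K,a,b])) := by
      rw [QuaternionAlgebra.algebraMap_eq, QuaternionAlgebra.algebraMap_eq,
        QuaternionAlgebra.algebraMap_eq]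
      ext <;> simp
      ring
    have h3 : f (algebraMap K ℍ[K,a,b] (4 * a * b * w.re)) = 0 := by
      rw [h1]
      simp only [map_add, map_mul, hw, mul_zero, zero_mul, add_zero]
    rw [AlgHom.commutes] at h3
    have h5 : 4 * a * b * w.re = 0 := by
      by_contra hne
      have h6 := (algebraMap K Λ).injective (a₁ := 4 * a * b * w.re) (a₂ := 0)
        (by rw [h3, map_zero])
      exact hne h6
    rcases mul_eq_zero.1 h5 with h | h
    · exact absurd h (mul_ne_zero (mul_ne_zero h4 ha) hb)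
    · exact h
  rw [injective_iff_map_eq_zero]
  intro z hz
  have e0 := hre z hz
  have e1 := hre ((⟨0, 1, 0, 0⟩ : ℍ[K,a,b]) * z) (by rw [map_mul, hz, mul_zero])
  have e2 := hre ((⟨0, 0, 1, 0⟩ : ℍ[K,a,b]) * z) (by rw [map_mul, hz, mul_zero])
  have e3 := hre ((⟨0, 0, 0, 1⟩ : ℍ[K,a,b]) * z) (by rw [map_mul, hz, mul_zero])
  have f1 : ((⟨0, 1, 0, 0⟩ : ℍ[K,a,b]) * z).re = a * z.imI := by simp
  have f2 : ((⟨0, 0, 1, 0⟩ : ℍ[K,a,b]) * z).re = b * z.imJ := by simp
  have f3 : ((⟨0, 0, 0, 1⟩ : ℍ[K,a,b]) * z).re = -(a * b) * z.imK := by simp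
  rw [f1] at e1
  rw [f2] at e2
  rw [f3] at e3
  ext
  · exact e0
  · exact (mul_eq_zero.1 e1).resolve_left ha
  · exact (mul_eq_zero.1 e2).resolve_left hb
  · exact (mul_eq_zero.1 e3).resolve_left (neg_ne_zero.2 (mul_ne_zero ha hb))

theorem TER {K : Type} [Field K] (h2 : (2 : K) ≠ 0) (Q : QuadraticForm K (Fin 3 → K))
    (hQ : (QuadraticMap.polarBilin Q).Nondegenerate) :
    QuatSplit K (CliffordAlgebra.even Q) := by
  classical
  let _ : Invertible (2 : K) := invertibleOfNonzero h2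
  obtain ⟨v', hv'⟩ := LinearMap.BilinForm.exists_orthogonal_basis
    (QuadraticForm.associated_isSymm K Q)
  have hfr : Module.finrank K (Fin 3 → K) = 3 := by simp
  let v : Module.Basis (Fin 3) K (Fin 3 → K) := v'.reindex (finCongr hfr)
  -- orthogonality
  have hort : ∀ i j, i ≠ j → Q.IsOrtho (v i) (v j) := by
    intro i j hij
    have h1 := hv' (i := (finCongr hfr).symm i) (j := (finCongr hfr).symm j)
      (fun h => hij ((finCongr hfr).symm.injective h))
    rw [← QuadraticMap.associated_isOrtho]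
    simpa [v] using h1
  have hpol : ∀ i j, i ≠ j → QuadraticMap.polar Q (v i) (v j) = 0 := fun i j hij =>
    (hort i j hij).polar_eq_zero
  -- nonzero values
  have hne : ∀ i, Q (v i) ≠ 0 := by
    intro i hi
    have h1 : v i = 0 := by
      apply hQ.1
      intro y
      have h3 : QuadraticMap.polarBilin Q (v i) = 0 := by
        apply v.ext
        intro j
        rw [QuadraticMap.polarBilin_apply_apply, LinearMap.zero_apply]
        by_cases hij : i = j
        · rw [← hij, QuadraticMap.polar_self, hi, smul_zero]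
        · exact hpol i j hij
      rw [h3, LinearMap.zero_apply]
    exact v.ne_zero i h1
  -- the generators
  have hmem : ∀ x y : Fin 3 → K, CliffordAlgebra.ι Q x * CliffordAlgebra.ι Q y ∈
      CliffordAlgebra.even Q := fun x y => CliffordAlgebra.ι_mul_ι_mem_evenOdd_zero Q x y
  set e : Fin 3 → CliffordAlgebra Q := fun i => CliffordAlgebra.ι Q (v i) with he
  have hsq : ∀ i, e i * e i = algebraMap K _ (Q (v i)) := fun i =>
    CliffordAlgebra.ι_sq_scalar Q (v i)
  have hsw : ∀ i j, i ≠ j → e i * e j = -(e j * e i) := fun i j hij =>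
    CliffordAlgebra.ι_mul_ι_comm_of_isOrtho (hort i j hij)
  -- products
  have p1 : (e 0 * e 1) * (e 0 * e 1) = algebraMap K _ (-(Q (v 0) * Q (v 1))) := by
    calc (e 0 * e 1) * (e 0 * e 1) = e 0 * (e 1 * e 0) * e 1 := by noncomm_ring
      _ = -((e 0 * e 0) * (e 1 * e 1)) := by rw [hsw 1 0 (by decide)]; noncomm_ring
      _ = _ := by rw [hsq, hsq, ← map_mul, ← map_neg]
  have p2 : (e 1 * e 2) * (e 1 * e 2) = algebraMap K _ (-(Q (v 1) * Q (v 2))) := by
    calc (e 1 * e 2) * (e 1 * e 2) = e 1 * (e 2 * e 1) * e 2 := by noncomm_ring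
      _ = -((e 1 * e 1) * (e 2 * e 2)) := by rw [hsw 2 1 (by decide)]; noncomm_ring
      _ = _ := by rw [hsq, hsq, ← map_mul, ← map_neg]
  have p3 : (e 0 * e 1) * (e 1 * e 2) = Q (v 1) • (e 0 * e 2) := by
    calc (e 0 * e 1) * (e 1 * e 2) = e 0 * (e 1 * e 1) * e 2 := by noncomm_ring
      _ = e 0 * (algebraMap K _ (Q (v 1))) * e 2 := by rw [hsq]
      _ = Q (v 1) • (e 0 * e 2) := by
        rw [← Algebra.commutes, mul_assoc, ← Algebra.smul_def]
  have p4 : (e 1 * e 2) * (e 0 * e 1) = -(Q (v 1) • (e 0 * e 2)) := by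
    calc (e 1 * e 2) * (e 0 * e 1) = e 1 * (e 2 * e 0) * e 1 := by noncomm_ring
      _ = -(e 1 * e 0 * (e 2 * e 1)) := by rw [hsw 2 0 (by decide)]; noncomm_ring
      _ = (e 1 * e 0) * (e 1 * e 2) := by rw [hsw 2 1 (by decide)]; noncomm_ring
      _ = -((e 0 * e 1) * (e 1 * e 2)) := by rw [hsw 1 0 (by decide)]; noncomm_ring
      _ = _ := by rw [p3]
  set a : K := -(Q (v 0) * Q (v 1)) with ha
  set b : K := -(Q (v 1) * Q (v 2)) with hb
  have ha0 : a ≠ 0 := neg_ne_zero.2 (mul_ne_zero (hne 0) (hne 1))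
  have hb0 : b ≠ 0 := neg_ne_zero.2 (mul_ne_zero (hne 1) (hne 2))
  let B : QuaternionAlgebra.Basis (CliffordAlgebra.even Q) a 0 b :=
    { i := ⟨e 0 * e 1, hmem _ _⟩
      j := ⟨e 1 * e 2, hmem _ _⟩
      k := ⟨Q (v 1) • (e 0 * e 2), Subalgebra.smul_mem _ (hmem _ _) _⟩
      i_mul_i := by
        apply Subtype.ext
        rw [zero_smul, add_zero]
        change (e 0 * e 1) * (e 0 * e 1) = a • (1 : CliffordAlgebra Q)
        rw [p1, Algebra.algebraMap_eq_smul_one]
      j_mul_j := by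
        apply Subtype.ext
        change (e 1 * e 2) * (e 1 * e 2) = b • (1 : CliffordAlgebra Q)
        rw [p2, Algebra.algebraMap_eq_smul_one]
      i_mul_j := Subtype.ext p3
      j_mul_i := by
        apply Subtype.ext
        rw [zero_smul, zero_sub]
        exact p4 }
  let f : ℍ[K,a,b] →ₐ[K] CliffordAlgebra.even Q := B.liftHom
  have hfi : f ⟨0, 1, 0, 0⟩ = B.i := by
    simp [f, QuaternionAlgebra.Basis.lift]
  have hfj : f ⟨0, 0, 1, 0⟩ = B.j := by
    simp [f, QuaternionAlgebra.Basis.lift]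
  have hfk : f ⟨0, 0, 0, 1⟩ = B.k := by
    simp [f, QuaternionAlgebra.Basis.lift]
  have hnt : Nontrivial (CliffordAlgebra.even Q) := inferInstance
  have hinj : Injective f := TER_inj a b h2 ha0 hb0 f
  -- the range as a subalgebra of the Clifford algebra
  let S : Subalgebra K (CliffordAlgebra Q) := ((CliffordAlgebra.even Q).val.comp f).range
  have h01 : e 0 * e 1 ∈ S := ⟨⟨0, 1, 0, 0⟩, by
    change ((f ⟨0, 1, 0, 0⟩ : CliffordAlgebra.even Q) : CliffordAlgebra Q) = _
    rw [hfi]⟩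
  have h12 : e 1 * e 2 ∈ S := ⟨⟨0, 0, 1, 0⟩, by
    change ((f ⟨0, 0, 1, 0⟩ : CliffordAlgebra.even Q) : CliffordAlgebra Q) = _
    rw [hfj]⟩
  have h02' : Q (v 1) • (e 0 * e 2) ∈ S := ⟨⟨0, 0, 0, 1⟩, by
    change ((f ⟨0, 0, 0, 1⟩ : CliffordAlgebra.even Q) : CliffordAlgebra Q) = _
    rw [hfk]⟩
  have h02 : e 0 * e 2 ∈ S := by
    have := Subalgebra.smul_mem S h02' (Q (v 1))⁻¹
    rwa [smul_smul, inv_mul_cancel₀ (hne 1), one_smul] at this
  have hii : ∀ i, e i * e i ∈ S := fun i => by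
    rw [hsq]
    exact Subalgebra.algebraMap_mem S _
  have hall : ∀ i j, e i * e j ∈ S := by
    intro i j
    by_cases hij : i = j
    · rw [hij]
      exact hii j
    · have hsymm : ∀ p q, p ≠ q → e p * e q ∈ S → e q * e p ∈ S := by
        intro p q hpq hm
        rw [hsw q p (Ne.symm hpq)]
        exact Subalgebra.neg_mem S hm
      fin_cases i <;> fin_cases j
      · exact absurd rfl hij
      · exact h01
      · exact h02
      · exact hsymm 0 1 (by decide) h01
      · exact absurd rfl hij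
      · exact h12
      · exact hsymm 0 2 (by decide) h02
      · exact hsymm 1 2 (by decide) h12
      · exact absurd rfl hij
  have hvec : ∀ x y : Fin 3 → K, CliffordAlgebra.ι Q x * CliffordAlgebra.ι Q y ∈ S := by
    intro x y
    rw [← v.sum_repr x, ← v.sum_repr y, map_sum, map_sum, Finset.sum_mul_sum]
    refine Subalgebra.sum_mem S fun i _ => Subalgebra.sum_mem S fun j _ => ?_
    rw [map_smul, map_smul, smul_mul_assoc, mul_smul_comm]
    exact Subalgebra.smul_mem S (Subalgebra.smul_mem S (hall i j) _) _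
  have hsurj : Surjective f := by
    rintro ⟨x, hx⟩
    have hxS : x ∈ S := by
      have hx' : x ∈ CliffordAlgebra.evenOdd Q 0 := hx
      clear hx
      induction x, hx' using CliffordAlgebra.even_induction with
      | algebraMap r => exact Subalgebra.algebraMap_mem S r
      | add x y hx hy ihx ihy => exact Subalgebra.add_mem S ihx ihy
      | ι_mul_ι_mul m₁ m₂ x hx ih => exact Subalgebra.mul_mem S (hvec m₁ m₂) ih
    obtain ⟨z, hz⟩ := hxS
    exact ⟨z, Subtype.ext hz⟩
  exact QuatSplit.congr (AlgEquiv.ofBijective f ⟨hinj, hsurj⟩) (TER_quat a b ha0 hb0)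

end Pool.Agent.QCT
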