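import Pool.Agent.QCT.TOPK
import Pool.Agent.QCT.FIN
import Pool.Agent.BassH.Closed

/-!
# QCT, module TOP: the theorem over a finitely generated ring of Kronecker dimension two
-/

set_option autoImplicit false
set_option linter.style.haveILetI false

namespace Pool.Agent.QCT

open Pool.Agent.TQF Pool.Agent.QCB Function TensorProduct MvPolynomial Pool.Agent.Helper11
open Pool.Agent.Helper67.Bass Quaternion
open BassH (FG0)

/-- the hypersurface `f = 0` over `A` -/
abbrev HS {A : Type} [CommRing A] {n : ℕ} (f : MvPolynomial (Fin n) A) : Type :=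
  MvPolynomial (Fin n) A ⧸ Ideal.span {f}

theorem TOP_equiv {A B : Type} [CommRing A] [CommRing B] (e : A ≃+* B) {n : ℕ}
    (f : MvPolynomial (Fin n) A) (h : FG0 (HS f)) :
    FG0 (HS (MvPolynomial.map (e : A →+* B) f)) := by
  refine BassH.closed_equiv (HS f) _ ?_ h
  refine Ideal.quotientEquiv _ _ (MvPolynomial.mapEquiv (Fin n) e) ?_
  rw [Ideal.map_span, Set.image_singleton]
  rfl

section ind

variable {S : Type} [CommRing S] {n : ℕ}

/-- the hypersurface over `S / I` -/
abbrev HI (I : Ideal S) (f : MvPolynomial (Fin n) S) : Type :=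
  HS (MvPolynomial.map (Ideal.Quotient.mk I) f)

theorem TOP_quot (f : MvPolynomial (Fin n) S) (I : Ideal S) (a : S)
    (h : FG0 (HI (I ⊔ Ideal.span {a}) f)) :
    FG0 (HI I f ⧸ Ideal.span {Ideal.Quotient.mk
      (Ideal.span {MvPolynomial.map (Ideal.Quotient.mk I) f}) (C (Ideal.Quotient.mk I a))}) := by
  obtain ⟨e⟩ := FIN_quot (Ideal.Quotient.mk I a) n (MvPolynomial.map (Ideal.Quotient.mk I) f)
  refine BassH.closed_equiv (HS (MvPolynomial.map (Ideal.Quotient.mk
    (Ideal.span {Ideal.Quotient.mk I a})) (MvPolynomial.map (Ideal.Quotient.mk I) f))) _ e ?_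
  have hI : Ideal.span {Ideal.Quotient.mk I a} =
      (Ideal.span {a}).map (Ideal.Quotient.mk I) := by
    rw [Ideal.map_span, Set.image_singleton]
  let e1 : (S ⧸ (I ⊔ Ideal.span {a})) ≃+* ((S ⧸ I) ⧸ Ideal.span {Ideal.Quotient.mk I a}) :=
    (DoubleQuot.quotQuotEquivQuotSup I (Ideal.span {a})).symm.trans (Ideal.quotEquivOfEq hI.symm)
  have h1 := TOP_equiv e1 _ h
  rw [MvPolynomial.map_map] at h1
  rw [MvPolynomial.map_map]
  have h2 : (e1 : (S ⧸ (I ⊔ Ideal.span {a})) →+* _).comp
      (Ideal.Quotient.mk (I ⊔ Ideal.span {a})) =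
      (Ideal.Quotient.mk (Ideal.span {Ideal.Quotient.mk I a})).comp (Ideal.Quotient.mk I) := by
    ext x
    rfl
  rwa [h2] at h1

theorem TOP_ind [IsNoetherianRing S] (f : MvPolynomial (Fin n) S)
    (h : ∀ (P : Ideal S) [P.IsPrime], ∃ (x : S ⧸ P) (V : Type) (_ : CommRing V)
      (_ : Algebra (S ⧸ P) V), x ≠ 0 ∧ IsLocalization.Away x V ∧
        FG0 (HS (MvPolynomial.map (algebraMap (S ⧸ P) V)
          (MvPolynomial.map (Ideal.Quotient.mk P) f)))) : FG0 (HS f) := by
  have key : ∀ I : Ideal S, FG0 (HI I f) := by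
    refine IsNoetherian.induction (P := fun I : Ideal S => FG0 (HI I f)) ?_
    intro I ih
    have hlt : ∀ x : S, x ∉ I → I < I ⊔ Ideal.span {x} := by
      intro x hx
      refine lt_of_le_of_ne le_sup_left fun he => hx ?_
      have h2 : x ∈ I ⊔ Ideal.span {x} :=
        le_sup_right (a := I) (Ideal.mem_span_singleton_self x)
      exact he.symm ▸ h2
    by_cases hp : Ideal.IsPrime I
    · obtain ⟨x, V, _, _, hx, hloc, hfg⟩ := h I
      obtain ⟨s, rfl⟩ := Ideal.Quotient.mk_surjective x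
      have hs : s ∉ I := fun h0 => hx (Ideal.Quotient.eq_zero_iff_mem.2 h0)
      obtain ⟨alg, hl⟩ := FIN_loc (Ideal.Quotient.mk I s) n
        (MvPolynomial.map (Ideal.Quotient.mk I) f) (V := V)
      exact BassH.closed_of_away (HI I f) _ (Ideal.Quotient.mk _ (C (Ideal.Quotient.mk I s)))
        (TOP_quot f I s (ih _ (hlt s hs))) hfg
    by_cases htop : I = ⊤
    · subst htop
      haveI : Subsingleton (S ⧸ (⊤ : Ideal S)) := Ideal.Quotient.subsingleton_iff.mpr rfl
      haveI : Subsingleton (HI (⊤ : Ideal S) f) :=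
        Function.Surjective.subsingleton (Ideal.Quotient.mk_surjective (I := Ideal.span
          {MvPolynomial.map (Ideal.Quotient.mk (⊤ : Ideal S)) f}))
      exact BassH.closed_subs _
    have h1 : ∃ a b : S, a * b ∈ I ∧ a ∉ I ∧ b ∉ I := by
      by_contra hcon
      push Not at hcon
      refine hp ⟨htop, fun {a b} hab => ?_⟩
      by_cases ha : a ∈ I
      · exact Or.inl ha
      · exact Or.inr (hcon a b hab ha)
    obtain ⟨a, b, hab, ha, hb⟩ := h1
    haveI : IsNoetherianRing (HI I f) := inferInstance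
    let J : S → Ideal (HI I f) := fun a => Ideal.span {Ideal.Quotient.mk
      (Ideal.span {MvPolynomial.map (Ideal.Quotient.mk I) f}) (C (Ideal.Quotient.mk I a))}
    refine BassH.closed_of_mul (HI I f) (J a) (J b) ?_ (TOP_quot f I a (ih _ (hlt a ha)))
      (TOP_quot f I b (ih _ (hlt b hb)))
    show Ideal.span {_} * Ideal.span {_} = ⊥
    rw [Ideal.span_singleton_mul_span_singleton, Ideal.span_singleton_eq_bot, ← map_mul,
      ← C_mul, ← map_mul, Ideal.Quotient.eq_zero_iff_mem.mpr hab, C_0, map_zero]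
  have h1 := TOP_equiv (RingEquiv.quotientBot S) _ (key ⊥)
  rw [MvPolynomial.map_map] at h1
  have h2 : ((RingEquiv.quotientBot S : (S ⧸ (⊥ : Ideal S)) ≃+* S) : (S ⧸ (⊥ : Ideal S)) →+* S).comp
      (Ideal.Quotient.mk (⊥ : Ideal S)) = RingHom.id S := by
    ext x
    rfl
  rwa [h2, MvPolynomial.map_id] at h1

end ind

end Pool.Agent.QCT
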