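import Pool.Agent.QCT.TOPV
import Pool.Agent.QCT.LPID
import Pool.Agent.QCT.SPR

/-!
# QCT, module TOPK: the generic part over a domain with fraction field `F(t)`
-/

set_option autoImplicit false
set_option linter.style.haveILetI false

namespace Pool.Agent.QCT

open Pool.Agent.TQF Pool.Agent.QCB Function TensorProduct MvPolynomial Pool.Agent.Helper11
open Pool.Agent.Helper67.Bass Quaternion

/-- two domains with a common localisation inside a field -/
theorem TOPK_trans {A C' K : Type} [CommRing A] [IsDomain A] [CommRing C'] [IsDomain C'] [Field K]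
    [Algebra A K] [Algebra C' K] (hA : Injective (algebraMap A K))
    (hC : Injective (algebraMap C' K)) (Q : C') (hQ : Q ≠ 0)
    (hAQ : ∀ a : A, ∃ (k : ℕ) (p : C'), algebraMap A K a * algebraMap C' K Q ^ k =
      algebraMap C' K p)
    (s0 : A) (hs0 : s0 ≠ 0) (hs : ∀ p : C', ∃ (k : ℕ) (a : A),
      algebraMap C' K p * algebraMap A K s0 ^ k = algebraMap A K a) (s' : C') (hs' : s' ≠ 0) :
    ∃ s : A, s ≠ 0 ∧ ∀ (x : A) (V : Type) [CommRing V] [Algebra A V] [IsLocalization.Away x V],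
      x ≠ 0 → s ∣ x → ∃ (_ : Algebra C' V) (x' : C'), x' ≠ 0 ∧ s' ∣ x' ∧ Q ∣ x' ∧
        IsLocalization.Away x' V ∧ ∃ j : V →+* K, Injective j ∧
          (∀ a, j (algebraMap A V a) = algebraMap A K a) ∧
          ∀ c, j (algebraMap C' V c) = algebraMap C' K c := by
  have hQ' : algebraMap C' K Q ≠ 0 := (map_ne_zero_iff _ hC).2 hQ
  have hs0' : algebraMap A K s0 ≠ 0 := (map_ne_zero_iff _ hA).2 hs0
  have hs'' : algebraMap C' K s' ≠ 0 := (map_ne_zero_iff _ hC).2 hs'
  obtain ⟨m, α, hα⟩ := hs (s' * Q)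
  have hα0 : α ≠ 0 := by
    rintro rfl
    rw [map_zero, map_mul] at hα
    exact mul_ne_zero (mul_ne_zero hs'' hQ') (pow_ne_zero _ hs0') hα
  refine ⟨s0 * α, mul_ne_zero hs0 hα0, ?_⟩
  intro x V _ _ _ hx hsx
  have hx' : algebraMap A K x ≠ 0 := (map_ne_zero_iff _ hA).2 hx
  have hux : IsUnit (algebraMap A K x) := isUnit_iff_ne_zero.2 hx'
  let j : V →+* K := IsLocalization.Away.lift (S := V) x hux
  have hjA : ∀ a, j (algebraMap A V a) = algebraMap A K a :=
    fun a => IsLocalization.Away.lift_eq x hux a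
  have hxV : IsUnit (algebraMap A V x) := IsLocalization.Away.algebraMap_isUnit x
  have hj : Injective j := by
    rw [injective_iff_map_eq_zero]
    intro v hv
    obtain ⟨n, a, hva⟩ := IsLocalization.Away.surj x v
    have h1 : algebraMap A K a = 0 := by rw [← hjA, ← hva, map_mul, hv, zero_mul]
    have h2 : a = 0 := (map_eq_zero_iff _ hA).1 h1
    rw [h2, map_zero] at hva
    exact ((hxV.pow n).mul_left_eq_zero).1 hva
  have hu1 : IsUnit (algebraMap A V (s0 * α)) := isUnit_of_dvd_unit (map_dvd _ hsx) hxV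
  rw [map_mul] at hu1
  have hus0 : IsUnit (algebraMap A V s0) := isUnit_of_mul_isUnit_left hu1
  have huα : IsUnit (algebraMap A V α) := isUnit_of_mul_isUnit_right hu1
  have hrange : ∀ c, algebraMap C' K c ∈ j.range := by
    intro c
    obtain ⟨k, a, ha⟩ := hs c
    obtain ⟨w, hw⟩ := hus0.exists_right_inv
    refine ⟨algebraMap A V a * w ^ k, ?_⟩
    have h1 : algebraMap A K s0 * j w = 1 := by rw [← hjA, ← map_mul, hw, map_one]
    rw [map_mul, hjA, ← ha, map_pow, mul_assoc, ← mul_pow, h1, one_pow, mul_one]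
  let e : V ≃+* j.range := RingEquiv.ofBijective j.rangeRestrict
    ⟨fun a b h => hj (congrArg Subtype.val h), j.rangeRestrict_surjective⟩
  let ψ : C' →+* V := (e.symm : j.range →+* V).comp ((algebraMap C' K).codRestrict j.range hrange)
  have hψ : ∀ c, j (ψ c) = algebraMap C' K c := by
    intro c
    have h1 : e (ψ c) = ⟨algebraMap C' K c, hrange c⟩ := e.apply_symm_apply _
    exact congrArg Subtype.val h1
  letI : Algebra C' V := ψ.toAlgebra
  have halg : ∀ c, algebraMap C' V c = ψ c := fun c => rfl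
  obtain ⟨k, xh, hxh⟩ := hAQ x
  have hxh0 : xh ≠ 0 := by
    rintro rfl
    rw [map_zero] at hxh
    exact mul_ne_zero hx' (pow_ne_zero _ hQ') hxh
  -- units of `V`
  have hunit : ∀ v w : V, j v * j w = 1 → IsUnit v := by
    intro v w h
    rw [← map_mul, ← map_one j] at h
    exact isUnit_iff_exists_inv.2 ⟨w, hj h⟩
  have huQs : IsUnit (ψ s' * ψ Q) := by
    have h1 : ψ s' * ψ Q * algebraMap A V s0 ^ m = algebraMap A V α := by
      apply hj
      rw [map_mul, map_mul, map_pow, hψ, hψ, hjA, hjA, ← hα, map_mul]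
    have h2 : IsUnit (ψ s' * ψ Q * algebraMap A V s0 ^ m) := by rw [h1]; exact huα
    exact isUnit_of_mul_isUnit_left h2
  have huQ : IsUnit (ψ Q) := isUnit_of_mul_isUnit_right huQs
  have hus' : IsUnit (ψ s') := isUnit_of_mul_isUnit_left huQs
  have huxh : IsUnit (ψ xh) := by
    have h1 : ψ xh = algebraMap A V x * ψ Q ^ k := by
      apply hj
      rw [map_mul, map_pow, hψ, hψ, hjA, hxh]
    rw [h1]
    exact hxV.mul (huQ.pow k)
  refine ⟨inferInstance, s' * Q * xh, mul_ne_zero (mul_ne_zero hs' hQ) hxh0,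
    ⟨Q * xh, by ring⟩, ⟨s' * xh, by ring⟩, ?_, j, hj, hjA, hψ⟩
  refine IsLocalization.Away.mk _ ?_ (fun v => ?_) (fun a b h => ?_)
  · rw [halg, map_mul, map_mul]
    exact huQs.mul huxh
  · obtain ⟨l, a, hva⟩ := IsLocalization.Away.surj x v
    obtain ⟨k', p, hp⟩ := hAQ a
    refine ⟨l + k', p * Q ^ (k * l) * (s' ^ (l + k') * Q ^ l * xh ^ k'), ?_⟩
    apply hj
    have hva' : j v * algebraMap A K x ^ l = algebraMap A K a := by
      rw [← hjA, ← hjA, ← map_pow, ← map_mul, hva]
    simp only [halg, map_mul, map_pow, hψ]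
    rw [← hp, ← hva', ← hxh]
    ring
  · rw [halg, halg] at h
    refine ⟨0, ?_⟩
    rw [pow_zero, one_mul, one_mul]
    apply hC
    rw [← hψ, ← hψ, h]

/-- a rational function field in one variable over the fraction field of a finite domain has
Kronecker dimension at most one -/
theorem TOPK_fin (hKt : St_Kt) {R0 K : Type} [CommRing R0] [IsDomain R0] [Finite R0] [Field K]
    (φ : Polynomial R0 →+* K) (hφ : Injective φ)
    (hfrac : ∀ x : K, ∃ p q : Polynomial R0, φ q ≠ 0 ∧ x * φ q = φ p) : KroneckerLeOne K := by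
  letI := (Finite.isField_of_domain R0).toField
  have h1 := (hKt R0).1 ⊥
  let ψ : Polynomial R0 →+* FractionRing (Polynomial R0 ⧸ (⊥ : Ideal (Polynomial R0))) :=
    (algebraMap _ _).comp (Ideal.Quotient.mk ⊥)
  have hψ : Injective ψ := by
    have h2 : Injective (Ideal.Quotient.mk (⊥ : Ideal (Polynomial R0))) := by
      rw [RingHom.injective_iff_ker_eq_bot, Ideal.mk_ker]
    exact (IsFractionRing.injective (Polynomial R0 ⧸ (⊥ : Ideal (Polynomial R0)))
      (FractionRing (Polynomial R0 ⧸ (⊥ : Ideal (Polynomial R0))))).comp h2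
  letI : Algebra (Polynomial R0) K := φ.toAlgebra
  haveI : IsFractionRing (Polynomial R0) K := by
    refine { map_units := ?_, surj := ?_, exists_of_eq := ?_ }
    · intro y
      rw [isUnit_iff_ne_zero]
      exact (map_ne_zero_iff _ hφ).2 (nonZeroDivisors.ne_zero y.2)
    · intro z
      obtain ⟨p, q, hq, h⟩ := hfrac z
      have hq0 : q ≠ 0 := fun h0 => hq (by rw [h0, map_zero])
      exact ⟨(p, ⟨q, mem_nonZeroDivisors_of_ne_zero hq0⟩), h⟩
    · intro x y h
      exact ⟨1, by rw [hφ h]⟩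
  exact KroneckerLeOne.of_hom (IsFractionRing.lift (A := Polynomial R0) (K := K) (g := ψ) hψ) h1

theorem TOPK (hK : St_LocK) (hC : St_LocC) (hGm : St_Gm) (hF : St_LamF) (hLin : St_Lin)
    (hKt : St_Kt) (hO : ∀ (R0 : Type) [CommRing R0] [IsDomain R0] [Algebra.FiniteType ℤ R0],
      KroneckerLeOne (FractionRing R0) → OrdH R0 (FractionRing R0))
    {A K : Type} [CommRing A] [IsDomain A] [Algebra.FiniteType ℤ A] [Field K] [Algebra A K]
    [IsFractionRing A K] (h2 : (2 : A) ≠ 0) (F : Subfield K) (hFK : KroneckerLeOne F) (t : K)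
    (ht : Transcendental F t) (htop : IntermediateField.adjoin F {t} = ⊤)
    (hNK : ¬ KroneckerLeOne K) (n : ℕ)
    (f : MvPolynomial (Fin n) A) (hf : f.totalDegree ≤ 2)
    (hS : QuatSplit K (CliffordAlgebra.even (hform (MvPolynomial.map (algebraMap A K) f)))) :
    ∃ (x : A) (V : Type) (_ : CommRing V) (_ : Algebra A V), x ≠ 0 ∧
      IsLocalization.Away x V ∧ AddGroup.FG (G0 (MvPolynomial (Fin n) V ⧸
        Ideal.span {MvPolynomial.map (algebraMap A V) f})) := by
  haveI : IsNoetherianRing A := Algebra.FiniteType.isNoetherianRing ℤ A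
  obtain ⟨R0, _, _, _, φ, hφ, hkr, ⟨i, hi⟩, hfrac, ⟨Q, hQ, hAQ⟩, s0, hs0, hs⟩ :=
    SPR (A := A) F hFK t ht htop
  have hinf : Infinite R0 := by
    by_contra h
    haveI : Finite R0 := not_infinite_iff_finite.1 h
    exact hNK (TOPK_fin hKt φ hφ hfrac)
  have hAK : Injective (algebraMap A K) := IsFractionRing.injective A K
  have h20 : (2 : R0) ≠ 0 := by
    intro h
    apply h2
    apply hAK
    rw [map_ofNat, map_zero]
    have h1 : φ (Polynomial.C 2) = 0 := by rw [h, map_zero, map_zero]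
    rwa [Polynomial.C_ofNat, map_ofNat] at h1
  have hL : LeftPID R0 := LPID hC R0 (hO R0 hkr) h20
  letI : Algebra (Polynomial R0) K := φ.toAlgebra
  have hCK : Injective (algebraMap (Polynomial R0) K) := hφ
  have hQ0 : Q ≠ 0 := fun h => hQ (by rw [h, map_zero])
  have trans := TOPK_trans (A := A) (C' := Polynomial R0) (K := K) hAK hCK Q hQ0 hAQ s0 hs0 hs
  -- finite generation of the base
  have hA' : ∃ s : A, s ≠ 0 ∧ ∀ (x : A) (V : Type) [CommRing V] [Algebra A V]
      [IsLocalization.Away x V], s ∣ x → FinGn V := by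
    obtain ⟨s', hs', h⟩ := TOPV_zero hkr
    obtain ⟨s, hs, h3⟩ := trans s' hs'
    refine ⟨s, hs, ?_⟩
    intro x V _ _ _ hsx
    by_cases hx : x = 0
    · haveI : Subsingleton V := by
        have h1 : IsUnit (algebraMap A V x) := IsLocalization.Away.algebraMap_isUnit x
        rw [hx, map_zero] at h1
        exact isUnit_zero_iff.1 h1 |> fun h => subsingleton_of_zero_eq_one h
      exact FinGn.of_subsingleton V
    · obtain ⟨_, x', hx', hd, _, hV, _⟩ := h3 x V hx hsx
      exact h x' V hd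
  -- quaternion algebras
  have hQ' : ∀ a b : A, a ≠ 0 → b ≠ 0 → ∃ s : A, s ≠ 0 ∧ ∀ (x : A) (V : Type) [CommRing V]
      [Algebra A V] [IsLocalization.Away x V], x ≠ 0 → s ∣ x →
        GFG ℍ[V,algebraMap A V a,algebraMap A V b] := by
    have sq : ∀ a : A, a ≠ 0 → ∃ (k : ℕ) (a' : Polynomial R0), a' ≠ 0 ∧
        algebraMap (Polynomial R0) K a' = algebraMap A K a * (algebraMap (Polynomial R0) K Q ^ k) ^ 2 := by
      intro a ha
      obtain ⟨k, p, hp⟩ := hAQ a
      refine ⟨k, p * Q ^ k, mul_ne_zero ?_ (pow_ne_zero _ hQ0), ?_⟩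
      · rintro rfl
        rw [map_zero] at hp
        exact mul_ne_zero ((map_ne_zero_iff _ hAK).2 ha) (pow_ne_zero _ hQ) hp
      · have hp' : algebraMap A K a * algebraMap (Polynomial R0) K Q ^ k =
          algebraMap (Polynomial R0) K p := hp
        rw [map_mul, ← hp', map_pow]
        ring
    intro a b ha hb
    obtain ⟨k, a', ha', haa⟩ := sq a ha
    obtain ⟨l, b', hb', hbb⟩ := sq b hb
    obtain ⟨s', hs', h⟩ := TOPV_quat hkr h20 hL a' b' ha' hb'
    obtain ⟨s, hs, h3⟩ := trans s' hs'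
    refine ⟨s, hs, ?_⟩
    intro x V _ _ _ hx hsx
    obtain ⟨_, x', hx', hd, hQd, hV, j, hj, hjA, hjC⟩ := h3 x V hx hsx
    have hG := h x' V hx' hd
    have huQ : IsUnit (algebraMap (Polynomial R0) V Q) :=
      isUnit_of_dvd_unit (map_dvd _ hQd) (IsLocalization.Away.algebraMap_isUnit x')
    have e1 : algebraMap (Polynomial R0) V a' =
        (algebraMap (Polynomial R0) V Q ^ k) ^ 2 * algebraMap A V a := by
      apply hj
      rw [hjC, haa, map_mul, map_pow, map_pow, hjC, hjA]
      ring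
    have e2 : algebraMap (Polynomial R0) V b' =
        (algebraMap (Polynomial R0) V Q ^ l) ^ 2 * algebraMap A V b := by
      apply hj
      rw [hjC, hbb, map_mul, map_pow, map_pow, hjC, hjA]
      ring
    rw [e1, e2] at hG
    obtain ⟨e3⟩ := QI1 (algebraMap A V a) ((algebraMap (Polynomial R0) V Q ^ l) ^ 2 *
      algebraMap A V b) (algebraMap (Polynomial R0) V Q ^ k) (huQ.pow k)
    obtain ⟨e4⟩ := QI2 (algebraMap A V a) (algebraMap A V b)
      (algebraMap (Polynomial R0) V Q ^ l) (huQ.pow l)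
    exact GFG.of_equiv (e3.trans e4) hG
  by_cases h : (∀ i, f.coeff (Finsupp.single i 2) = 0) ∧
      ∀ i j, i ≠ j → f.coeff (Finsupp.single i 1 + Finsupp.single j 1) = 0
  · exact TOPV_linear hLin hA' n f hf h.1 h.2
  · have hu : ∃ u : A, u ≠ 0 ∧ ((∃ i, f.coeff (Finsupp.single i 2) = u) ∨
        ∃ i j, i ≠ j ∧ f.coeff (Finsupp.single i 2) + f.coeff (Finsupp.single j 2) +
          f.coeff (Finsupp.single i 1 + Finsupp.single j 1) = u) := by
      by_cases h1 : ∀ i, f.coeff (Finsupp.single i 2) = 0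
      · rw [not_and_or] at h
        rcases h with h | h
        · exact absurd h1 h
        · push Not at h
          obtain ⟨i, j, hij, h⟩ := h
          exact ⟨_, h, Or.inr ⟨i, j, hij, by rw [h1, h1, zero_add, zero_add]⟩⟩
      · push Not at h1
        obtain ⟨i, hi⟩ := h1
        exact ⟨_, hi, Or.inl ⟨i, rfl⟩⟩
    obtain ⟨u, hu0, hu⟩ := hu
    exact TOPV_quad hK hC hGm hF hA' hQ' n f hf u hu0 hu hS

end Pool.Agent.QCT
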