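import Pool.Agent.QCT.GNC
import Pool.Agent.QCT.GQ
import Pool.Agent.QCT.MonX
import Pool.Agent.QCT.TER
import Pool.Agent.QCB.QORD

/-!
# QCT, module TOPV: the generic part of the theorem

Proof. `A = R[X]`, a noetherian domain, `K` its fraction field. (0) There is `s_0 ≠ 0` with `GFG (A_s')` and `(modC A_s').FinG` for all
multiples `s'` (`exists_pid` for `R`, so `R_r` is a principal ideal domain, `FinGn` of `R_r[X]` and its localisations:
`FinGn.of_pid`, `FinGn.mvPolynomial` or the polynomial version, `FinGn.away`; `St_T0`-like comparison, `EGFG.of_finG`,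
`EGFG.modC_iff`).
(1) If all quadratic coefficients of `f` vanish: `f = 0`: `V = A_{s_0}`, a polynomial ring over `V`; some linear coefficient `≠ 0`: invert
it and use `St_Lin`; `f` a nonzero constant: invert it, the zero ring.
(2) Otherwise some `u = coeff (2 e_i) f` or `u = coeff (2 e_i) f + coeff (2 e_j) f + coeff (e_i + e_j) f` is nonzero. `A_1 = A_u`; `MonX` over `A_1` gives
`m`, `q`. By `LamBC` and the second part of `MonX` (`MvPolynomial.map_map`) `K ⊗ Lam q ≅ even (hform f_K)`, so `QuatSplit` holds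
(`QuatSplit.congr`). `GNC` over `A_1` (its `hQ` follows from `QORD`, its `hA` from (0); elements of `A_1` are elements of `A` up to units;
`Module.Finite A_1 (Lam q)` is `St_LamF`) gives `s ∈ A_1` with `GFG ((A_1)_s ⊗ Lam q)`; take `V = (A_1)_s` with `s` also a multiple of `s_0`.
`GLam`: `EGFG (cC (q.map _))`; `GQ` over `V`; `GT`; transport by the isomorphism of `MonX`.
-/

set_option autoImplicit false

namespace Pool.Agent.QCT

open Pool.Agent.TQF Pool.Agent.QCB Function TensorProduct MvPolynomial Pool.Agent.Helper11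
open Pool.Agent.Helper67.Bass


/-! ### finite generation of categories of modules -/

theorem TOPV_T0 {B : Type} [CommRing B] (h : FinGn B) : (modC B).FinG := by
  obtain ⟨T, hT, hgen⟩ := h
  refine ⟨(fun M : FGMod B => (LMod.of B M : LMod B)) '' T, hT.image _, ?_⟩
  intro P hP hU
  have h2 : Two3 (fun M : FGMod B => P (LMod.of B M)) :=
    { iso := fun M N e h => LMod.t3_iso hP e h
      ext := fun M' M M'' f g hf hg hfg h1 h2 => hP.ext _ _ _ ⟨f, g, hf, hg, hfg⟩ h1 h2
      coker := fun M' M M'' f g hf hg hfg h1 h2 => hP.coker _ _ _ ⟨f, g, hf, hg, hfg⟩ h1 h2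
      ker := fun M' M M'' f g hf hg hfg h1 h2 => hP.ker _ _ _ ⟨f, g, hf, hg, hfg⟩ h1 h2
      zero := fun M hM => hP.zero _ hM }
  have h3 := hgen _ h2 (fun N hN => hU _ ⟨N, hN, rfl⟩)
  exact fun X => h3 (FGMod.of B X)

/-- localizations of localizations -/
theorem TOPV_away {P B A : Type} [CommRing P] [CommRing B] [CommRing A] [Algebra P A]
    [Algebra P B] [Algebra B A] [IsScalarTower P B A] (x s : P) [IsLocalization.Away x B]
    [IsLocalization.Away s A] : IsLocalization.Away (algebraMap P B s) A := by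
  refine IsLocalization.Away.mk _ ?_ (fun z => ?_) (fun a b h => ?_)
  · rw [← IsScalarTower.algebraMap_apply P B A]
    exact IsLocalization.Away.algebraMap_isUnit s
  · obtain ⟨n, a, h⟩ := IsLocalization.Away.surj s z
    refine ⟨n, algebraMap P B a, ?_⟩
    rw [← IsScalarTower.algebraMap_apply P B A, ← IsScalarTower.algebraMap_apply P B A]
    exact h
  · obtain ⟨n, y, hy⟩ := IsLocalization.Away.surj x (a - b)
    have h1 : algebraMap P A y = algebraMap P A 0 := by
      rw [IsScalarTower.algebraMap_apply P B A, ← hy, map_mul, map_sub, h, sub_self, zero_mul,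
        map_zero]
    obtain ⟨k, hk⟩ := IsLocalization.Away.exists_of_eq s h1
    refine ⟨k, ?_⟩
    have h2 : algebraMap P B s ^ k * (a - b) * algebraMap P B x ^ n = 0 := by
      rw [mul_assoc, hy, ← map_pow, ← map_mul, hk, mul_zero, map_zero]
    have h3 : algebraMap P B s ^ k * (a - b) = 0 := by
      have h4 : IsUnit (algebraMap P B x ^ n) := (IsLocalization.Away.algebraMap_isUnit x).pow n
      exact (h4.mul_left_eq_zero).1 h2
    rw [mul_sub, sub_eq_zero] at h3
    exact h3

theorem TOPV_fin {P B A : Type} [CommRing P] [CommRing B] [CommRing A] [Algebra P A]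
    [Algebra P B] (x s : P) [IsLocalization.Away x B] [IsLocalization.Away s A] (h : x ∣ s)
    (hB : FinGn B) : FinGn A := by
  have hu : IsUnit (algebraMap P A x) :=
    isUnit_of_dvd_unit (map_dvd _ h) (IsLocalization.Away.algebraMap_isUnit s)
  let _ : Algebra B A := (IsLocalization.Away.lift (S := B) x hu).toAlgebra
  have _ : IsScalarTower P B A := IsScalarTower.of_algebraMap_eq fun y =>
    (IsLocalization.Away.lift_eq (S := B) x hu y).symm
  have _ := TOPV_away (B := B) (A := A) x s
  exact FinGn.away (algebraMap P B s) hB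

theorem TOPV_zero {R : Type} [CommRing R] [IsDomain R] [Algebra.FiniteType ℤ R]
    (hR : KroneckerLeOne (FractionRing R)) : ∃ s : Polynomial R, s ≠ 0 ∧
      ∀ (x : Polynomial R) (V : Type) [CommRing V] [Algebra (Polynomial R) V]
        [IsLocalization.Away x V], s ∣ x → FinGn V := by
  obtain ⟨r, hr, hpid⟩ := exists_pid R (FractionRing R) hR
  have hdom : IsDomain (Localization.Away r) := IsLocalization.Away.isDomain _ hr
  have h1 : FinGn (MvPolynomial PUnit.{1} (Localization.Away r)) :=
    (FinGn.of_pid (Localization.Away r)).mvPolynomial PUnit.{1}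
  have h2 : FinGn (Polynomial (Localization.Away r)) :=
    FinGn.of_equiv (MvPolynomial.uniqueAlgEquiv (Localization.Away r) PUnit.{1}).toRingEquiv h1
  let _ : Algebra (Polynomial R) (Polynomial (Localization.Away r)) :=
    Polynomial.algebra R (Localization.Away r)
  have h3 : IsLocalization.Away (Polynomial.C r : Polynomial R)
      (Polynomial (Localization.Away r)) := by
    have := Polynomial.isLocalization (Submonoid.powers r) (Localization.Away r)
    rw [Submonoid.map_powers] at this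
    exact this
  refine ⟨Polynomial.C r, ?_, fun x V _ _ _ h => TOPV_fin (Polynomial.C r) x h h2⟩
  rw [Ne, Polynomial.C_eq_zero]
  exact hr

theorem TOPV_deg {A B : Type} [CommRing A] [CommRing B] (φ : A →+* B) {n : ℕ}
    (f : MvPolynomial (Fin n) A) : (MvPolynomial.map φ f).totalDegree ≤ f.totalDegree :=
  Finset.sup_mono (MvPolynomial.support_map_subset φ f)

/-! ### quaternion algebras -/

open Quaternion

theorem TOPV_ring {B B' : Type} [CommRing B] [CommRing B'] (e : B ≃+* B') (a b : B)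
    (h : GFG ℍ[B,a,b]) : GFG ℍ[B',e a,e b] := by
  let φ : ℍ[B,a,b] ≃+* ℍ[B',e a,e b] :=
    { toFun := fun x => ⟨e x.re, e x.imI, e x.imJ, e x.imK⟩
      invFun := fun x => ⟨e.symm x.re, e.symm x.imI, e.symm x.imJ, e.symm x.imK⟩
      left_inv := fun x => by ext <;> simp
      right_inv := fun x => by ext <;> simp
      map_mul' := fun x y => by ext <;> simp
      map_add' := fun x y => by ext <;> simp }
  exact GFG.of_equiv φ h

/-- a localization of `A_u` is a localization of `A` -/
theorem TOPV_tower {A A₁ V : Type} [CommRing A] [IsDomain A] [CommRing A₁]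
    [Algebra A A₁] (u : A) (hu : u ≠ 0) [IsLocalization.Away u A₁] [CommRing V]
    [Algebra A₁ V] [Algebra A V] [IsScalarTower A A₁ V] (s : A) (y : A₁) (hy : y ≠ 0)
    (h : algebraMap A A₁ s ∣ y) [IsLocalization.Away y V] :
    ∃ x : A, x ≠ 0 ∧ s ∣ x ∧ IsLocalization.Away x V := by
  obtain ⟨c, rfl⟩ := h
  obtain ⟨k, c', hc⟩ := IsLocalization.Away.surj u c
  have hun : IsUnit (algebraMap A A₁ u ^ k) := (IsLocalization.Away.algebraMap_isUnit u).pow k
  have key : algebraMap A A₁ s * c * algebraMap A A₁ u ^ k = algebraMap A A₁ (s * c') := by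
    rw [mul_assoc, hc, map_mul]
  refine ⟨u * (s * c'), mul_ne_zero hu ?_, (Dvd.intro _ rfl : s ∣ s * c').mul_left u, ?_⟩
  · intro h0
    rw [h0, map_zero] at key
    exact hy ((hun.mul_left_eq_zero).1 key)
  · refine IsLocalization.Away.mul_of_associated u (s * c') (algebraMap A A₁ s * c) ?_
    refine Associated.symm ⟨hun.unit, ?_⟩
    rw [IsUnit.unit_spec]
    exact key

theorem TOPV_quat {R : Type} [CommRing R] [IsDomain R] [Algebra.FiniteType ℤ R]
    [Infinite R] (hR : KroneckerLeOne (FractionRing R)) (h2 : (2 : R) ≠ 0) (hL : LeftPID R)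
    (a b : Polynomial R) (ha : a ≠ 0) (hb : b ≠ 0) : ∃ s : Polynomial R, s ≠ 0 ∧
      ∀ (x : Polynomial R) (V : Type) [CommRing V] [Algebra (Polynomial R) V]
        [IsLocalization.Away x V], x ≠ 0 → s ∣ x →
          GFG ℍ[V,algebraMap (Polynomial R) V a,algebraMap (Polynomial R) V b] := by
  obtain ⟨s, hs, h⟩ := QORD hR h2 hL a b ha hb
  refine ⟨s, hs, fun x V _ _ _ hx hsx => ?_⟩
  obtain ⟨-, -, h3⟩ := h x hx hsx
  let e := IsLocalization.algEquiv (Submonoid.powers x) (Localization.Away x) V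
  have h4 := TOPV_ring e.toRingEquiv _ _ h3
  have e1 : ∀ y, e.toRingEquiv (algebraMap (Polynomial R) (Localization.Away x) y) =
      algebraMap (Polynomial R) V y := fun y => e.commutes y
  rw [e1, e1] at h4
  exact h4

/-- up to squares of units every element of `A_u` comes from `A` -/
theorem TOPV_sq {A A₁ : Type} [CommRing A] [IsDomain A] [CommRing A₁]
    [Algebra A A₁] (u : A) [IsLocalization.Away u A₁] (a : A₁) (ha : a ≠ 0) :
    ∃ a' : A, a' ≠ 0 ∧ ∃ w : A₁, IsUnit w ∧ a = w ^ 2 * algebraMap A A₁ a' := by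
  obtain ⟨k, a', h⟩ := IsLocalization.Away.surj u a
  obtain ⟨v, hv⟩ := (IsLocalization.Away.algebraMap_isUnit (S := A₁) u).pow k
  have h1 : algebraMap A A₁ (a' * u ^ k) = (v : A₁) ^ 2 * a := by
    rw [map_mul, ← h, map_pow, ← hv]
    ring
  refine ⟨a' * u ^ k, ?_, ((v⁻¹ : A₁ˣ) : A₁), Units.isUnit _, ?_⟩
  · intro h0
    rw [h0, map_zero] at h1
    have h2 : IsUnit ((v : A₁) ^ 2) := (Units.isUnit v).pow 2
    exact ha ((h2.mul_right_eq_zero).1 h1.symm)
  · rw [h1, ← mul_assoc, ← mul_pow, Units.inv_mul, one_pow, one_mul]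

section quad

variable {A : Type} [CommRing A] [IsDomain A] [IsNoetherianRing A]

theorem TOPV_quad (hK : St_LocK) (hC : St_LocC) (hGm : St_Gm) (hF : St_LamF)
    {K : Type} [Field K] [Algebra A K] [IsFractionRing A K]
    (hA : ∃ s : A, s ≠ 0 ∧ ∀ (x : A) (V : Type) [CommRing V] [Algebra A V]
      [IsLocalization.Away x V], s ∣ x → FinGn V)
    (hQ : ∀ a b : A, a ≠ 0 → b ≠ 0 → ∃ s : A, s ≠ 0 ∧ ∀ (x : A) (V : Type) [CommRing V]
      [Algebra A V] [IsLocalization.Away x V], x ≠ 0 → s ∣ x →
        GFG ℍ[V,algebraMap A V a,algebraMap A V b])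
    (n : ℕ) (f : MvPolynomial (Fin n) A) (hf : f.totalDegree ≤ 2) (u : A) (hu0 : u ≠ 0)
    (hu : (∃ i, f.coeff (Finsupp.single i 2) = u) ∨ ∃ i j, i ≠ j ∧
      f.coeff (Finsupp.single i 2) + f.coeff (Finsupp.single j 2) +
        f.coeff (Finsupp.single i 1 + Finsupp.single j 1) = u)
    (hS : QuatSplit K (CliffordAlgebra.even (hform (MvPolynomial.map (algebraMap A K) f)))) :
    ∃ (x : A) (V : Type) (_ : CommRing V) (_ : Algebra A V), x ≠ 0 ∧
      IsLocalization.Away x V ∧ AddGroup.FG (G0 (MvPolynomial (Fin n) V ⧸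
        Ideal.span {MvPolynomial.map (algebraMap A V) f})) := by
  obtain ⟨s₀, hs₀, hA⟩ := hA
  obtain ⟨A₁, _, _, _⟩ : ∃ (A₁ : Type) (_ : CommRing A₁) (_ : Algebra A A₁),
      IsLocalization.Away u A₁ := ⟨Localization.Away u, inferInstance, inferInstance, inferInstance⟩
  have _ : IsDomain A₁ := IsLocalization.Away.isDomain (R := A) _ hu0
  have _ : IsNoetherianRing A₁ :=
    IsLocalization.isNoetherianRing (Submonoid.powers u) A₁ inferInstance
  have hinj : Injective (algebraMap A A₁) :=
    IsLocalization.injective A₁ (powers_le_nonZeroDivisors_of_noZeroDivisors hu0)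
  have hunit : IsUnit (algebraMap A A₁ u) := IsLocalization.Away.algebraMap_isUnit u
  have huK : IsUnit (algebraMap A K u) := by
    rw [isUnit_iff_ne_zero, Ne, map_eq_zero_iff _ (IsFractionRing.injective A K)]
    exact hu0
  let _ : Algebra A₁ K := (IsLocalization.Away.lift (S := A₁) u huK).toAlgebra
  have _ : IsScalarTower A A₁ K := IsScalarTower.of_algebraMap_eq fun y =>
    (IsLocalization.Away.lift_eq (S := A₁) u huK y).symm
  have _ : IsFractionRing A₁ K :=
    IsFractionRing.isFractionRing_of_isDomain_of_isLocalization (Submonoid.powers u) A₁ K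
  obtain ⟨m, q, hiso, ⟨e⟩⟩ := MonX (A := A₁) (K := K) n (MvPolynomial.map (algebraMap A A₁) f)
    ((TOPV_deg (algebraMap A A₁) f).trans hf) (by
      simp only [MvPolynomial.coeff_map, ← map_add]
      rcases hu with ⟨i, hi⟩ | ⟨i, j, hij, h⟩
      · exact Or.inl ⟨i, by rw [hi]; exact hunit⟩
      · exact Or.inr ⟨i, j, hij, by rw [h]; exact hunit⟩)
  rw [MvPolynomial.map_map, ← IsScalarTower.algebraMap_eq] at e
  obtain ⟨e2⟩ := LamBC (K := K) m q
  have hS' : QuatSplit K (K ⊗[A₁] Lam q) := (hS.congr e).congr e2.symm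
  have _ : Module.Finite A₁ (Lam q) := hF A₁ m q
  have hA' : ∃ s : A₁, s ≠ 0 ∧ ∀ s' : A₁, s' ≠ 0 → s ∣ s' → GFG (Localization.Away s') := by
    refine ⟨algebraMap A A₁ s₀, (map_ne_zero_iff _ hinj).2 hs₀, fun s' hs' hd => ?_⟩
    obtain ⟨x, hx, hd', hV⟩ := TOPV_tower (V := Localization.Away s') u hu0 s₀ s' hs' hd
    exact (EGFG.modC_iff _).1 (EGFG.of_finG _ (TOPV_T0 (hA x (Localization.Away s') hd')))
  have hQ' : ∀ a b : A₁, a ≠ 0 → b ≠ 0 → ∃ s : A₁, s ≠ 0 ∧ ∀ s' : A₁, s' ≠ 0 → s ∣ s' →
      GFG ℍ[Localization.Away s',algebraMap A₁ (Localization.Away s') a,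
        algebraMap A₁ (Localization.Away s') b] := by
    intro a b ha hb
    obtain ⟨a', ha', w, hw, rfl⟩ := TOPV_sq u a ha
    obtain ⟨b', hb', z, hz, rfl⟩ := TOPV_sq u b hb
    obtain ⟨s, hs, h⟩ := hQ a' b' ha' hb'
    refine ⟨algebraMap A A₁ s, (map_ne_zero_iff _ hinj).2 hs, fun s' hs' hd => ?_⟩
    obtain ⟨x, hx, hd', hV⟩ := TOPV_tower (V := Localization.Away s') u hu0 s s' hs' hd
    have h1 := h x (Localization.Away s') hx hd'
    rw [IsScalarTower.algebraMap_apply A A₁ (Localization.Away s') a',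
      IsScalarTower.algebraMap_apply A A₁ (Localization.Away s') b'] at h1
    rw [map_mul, map_mul, map_pow, map_pow]
    obtain ⟨e3⟩ := QI1 (algebraMap A₁ (Localization.Away s') (algebraMap A A₁ a'))
      (algebraMap A₁ (Localization.Away s') z ^ 2 *
        algebraMap A₁ (Localization.Away s') (algebraMap A A₁ b'))
      (algebraMap A₁ (Localization.Away s') w) (hw.map _)
    obtain ⟨e4⟩ := QI2 (algebraMap A₁ (Localization.Away s') (algebraMap A A₁ a'))
      (algebraMap A₁ (Localization.Away s') (algebraMap A A₁ b'))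
      (algebraMap A₁ (Localization.Away s') z) (hz.map _)
    exact GFG.of_equiv (e3.trans e4).symm h1
  obtain ⟨s, hs, hG⟩ := GNC hK hC (A := A₁) (K := K) hA' hQ' (Lam q) hS'
  obtain ⟨k, s₁, hs₁⟩ := IsLocalization.Away.surj u s
  have hy : algebraMap A A₁ (s₁ * s₀) ≠ 0 := by
    rw [map_mul, ← hs₁]
    exact mul_ne_zero (mul_ne_zero hs (pow_ne_zero _ hunit.ne_zero))
      ((map_ne_zero_iff _ hinj).2 hs₀)
  have hsy : s ∣ algebraMap A A₁ (s₁ * s₀) := by
    rw [map_mul, ← hs₁, mul_assoc]
    exact Dvd.intro _ rfl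
  have h1 := hG _ hy hsy
  obtain ⟨V, _, _, _, _, hV, hG'⟩ : ∃ (V : Type) (_ : CommRing V) (_ : Algebra A₁ V)
      (_ : Algebra A V) (_ : IsScalarTower A A₁ V),
      IsLocalization.Away (algebraMap A A₁ (s₁ * s₀)) V ∧ GFG (V ⊗[A₁] Lam q) :=
    ⟨Localization.Away (algebraMap A A₁ (s₁ * s₀)), inferInstance, inferInstance, inferInstance,
      inferInstance, inferInstance, h1⟩
  have hx : IsLocalization.Away (s₁ * s₀ * u) V := IsLocalization.Away.mul A₁ V u (s₁ * s₀)
  have hfV : FinGn V := hA (s₁ * s₀ * u) V ⟨s₁ * u, by ring⟩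
  have _ : IsNoetherianRing V :=
    IsLocalization.isNoetherianRing (Submonoid.powers (s₁ * s₀ * u)) V inferInstance
  have h3 : EGFG (qC (q.map (algebraMap A₁ V)).l (q.map (algebraMap A₁ V)).g) :=
    GQ hGm V m (q.map (algebraMap A₁ V)) (TOPV_T0 hfV) (GLam hF A₁ V m q hG')
  have h4 := GT (MvPolynomial (Fin m) V) _ _ h3
  obtain ⟨e3⟩ := hiso V
  rw [MvPolynomial.map_map, ← IsScalarTower.algebraMap_eq] at e3
  refine ⟨s₁ * s₀ * u, V, inferInstance, inferInstance, mul_ne_zero (mul_ne_zero ?_ hs₀) hu0, hx,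
    BassH.closed_equiv _ _ e3.symm h4⟩
  rintro rfl
  rw [zero_mul, map_zero] at hy
  exact hy rfl

end quad

theorem TOPV_deg2 {n : ℕ} (d : Fin n →₀ ℕ) (h : d.degree = 2) :
    ∃ i j, d = Finsupp.single i 1 + Finsupp.single j 1 := by
  have step : ∀ (k : ℕ) (d : Fin n →₀ ℕ), d.degree = k + 1 →
      ∃ i d', d = Finsupp.single i 1 + d' ∧ d'.degree = k := by
    intro k d hd
    have hne : d ≠ 0 := by
      rintro rfl
      rw [map_zero] at hd
      omega
    obtain ⟨i, hi⟩ := Finsupp.ne_iff.1 hne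
    have hle : Finsupp.single i 1 ≤ d := by
      rw [Finsupp.single_le_iff]
      exact Nat.one_le_iff_ne_zero.2 hi
    obtain ⟨d', rfl⟩ := exists_add_of_le hle
    refine ⟨i, d', rfl, ?_⟩
    rw [map_add, Finsupp.degree_single] at hd
    omega
  obtain ⟨i, d', rfl, h1⟩ := step 1 d h
  obtain ⟨j, d'', rfl, h2⟩ := step 0 d' h1
  rw [Finsupp.degree_eq_zero_iff] at h2
  exact ⟨i, j, by rw [h2, add_zero]⟩

theorem TOPV_linear (hLin : St_Lin) {A : Type} [CommRing A] [IsDomain A]
    [IsNoetherianRing A]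
    (hA : ∃ s : A, s ≠ 0 ∧ ∀ (x : A) (V : Type) [CommRing V] [Algebra A V]
      [IsLocalization.Away x V], s ∣ x → FinGn V)
    (n : ℕ) (f : MvPolynomial (Fin n) A) (hf : f.totalDegree ≤ 2)
    (h1 : ∀ i, f.coeff (Finsupp.single i 2) = 0)
    (h2 : ∀ i j, i ≠ j → f.coeff (Finsupp.single i 1 + Finsupp.single j 1) = 0) :
    ∃ (x : A) (V : Type) (_ : CommRing V) (_ : Algebra A V), x ≠ 0 ∧
      IsLocalization.Away x V ∧ AddGroup.FG (G0 (MvPolynomial (Fin n) V ⧸
        Ideal.span {MvPolynomial.map (algebraMap A V) f})) := by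
  obtain ⟨s₀, hs₀, hA⟩ := hA
  have hdeg : f.totalDegree ≤ 1 := by
    by_contra hcon
    have h3 : f.totalDegree = 2 := by omega
    have h4 : f ≠ 0 := by
      rintro rfl
      rw [MvPolynomial.totalDegree_zero] at h3
      omega
    obtain ⟨d, hd, h5⟩ := Finset.exists_mem_eq_sup f.support
      (MvPolynomial.support_nonempty.2 h4) (fun s => s.sum fun _ e => e)
    have h6 : d.degree = 2 := by
      rw [← h3]
      exact h5.symm
    obtain ⟨i, j, rfl⟩ := TOPV_deg2 d h6
    rw [MvPolynomial.mem_support_iff] at hd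
    by_cases hij : i = j
    · subst hij
      rw [← Finsupp.single_add] at hd
      exact hd (h1 i)
    · exact hd (h2 i j hij)
  by_cases hl : ∃ i, f.coeff (Finsupp.single i 1) ≠ 0
  · obtain ⟨i, hi⟩ := hl
    set v := f.coeff (Finsupp.single i 1) with hv
    obtain ⟨V, _, _, hV⟩ : ∃ (V : Type) (_ : CommRing V) (_ : Algebra A V),
        IsLocalization.Away (v * s₀) V :=
      ⟨Localization.Away (v * s₀), inferInstance, inferInstance, inferInstance⟩
    have hfV : FinGn V := hA (v * s₀) V (Dvd.intro_left _ rfl)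
    have _ : IsNoetherianRing V :=
      IsLocalization.isNoetherianRing (Submonoid.powers (v * s₀)) V inferInstance
    obtain ⟨m, ⟨e⟩⟩ := hLin V n (MvPolynomial.map (algebraMap A V) f)
      ((TOPV_deg _ f).trans hdeg) ⟨i, by
        rw [MvPolynomial.coeff_map]
        exact isUnit_of_dvd_unit (map_dvd _ (Dvd.intro _ rfl))
          (IsLocalization.Away.algebraMap_isUnit (v * s₀))⟩
    exact ⟨v * s₀, V, inferInstance, inferInstance, mul_ne_zero hi hs₀, hV,
      (FinGn.of_equiv e.symm (hfV.mvPolynomial (Fin m))).fg⟩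
  · push Not at hl
    have hfC : f = MvPolynomial.C (f.coeff 0) := by
      ext d
      rw [MvPolynomial.coeff_C]
      split_ifs with h0
      · rw [← h0]
      · by_contra hcon
        have h3 : d.degree ≤ 1 := (MvPolynomial.le_totalDegree
          (MvPolynomial.mem_support_iff.2 hcon)).trans hdeg
        have h4 : d.degree ≠ 0 := by
          rw [Ne, Finsupp.degree_eq_zero_iff]
          exact fun h => h0 h.symm
        obtain ⟨i, hi⟩ := Finsupp.ne_iff.1 (fun h : d = 0 => h0 h.symm)
        have hle : Finsupp.single i 1 ≤ d := by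
          rw [Finsupp.single_le_iff]
          exact Nat.one_le_iff_ne_zero.2 hi
        obtain ⟨d', rfl⟩ := exists_add_of_le hle
        rw [map_add, Finsupp.degree_single] at h3
        have h5 : d'.degree = 0 := by omega
        rw [Finsupp.degree_eq_zero_iff] at h5
        rw [h5, add_zero] at hcon
        exact hcon (hl i)
    by_cases hc : f.coeff 0 = 0
    · obtain ⟨V, _, _, hV⟩ : ∃ (V : Type) (_ : CommRing V) (_ : Algebra A V),
          IsLocalization.Away s₀ V :=
        ⟨Localization.Away s₀, inferInstance, inferInstance, inferInstance⟩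
      have hfV : FinGn V := hA s₀ V dvd_rfl
      have _ : IsNoetherianRing V :=
        IsLocalization.isNoetherianRing (Submonoid.powers s₀) V inferInstance
      refine ⟨s₀, V, inferInstance, inferInstance, hs₀, hV, ?_⟩
      have h3 : Ideal.span {MvPolynomial.map (algebraMap A V) f} = ⊥ := by
        rw [hfC, hc, map_zero, map_zero]
        exact Ideal.span_singleton_eq_bot.2 rfl
      rw [h3]
      exact (FinGn.of_equiv (RingEquiv.quotientBot _).symm (hfV.mvPolynomial (Fin n))).fg
    · set v := f.coeff 0 with hv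
      obtain ⟨V, _, _, hV⟩ : ∃ (V : Type) (_ : CommRing V) (_ : Algebra A V),
          IsLocalization.Away v V :=
        ⟨Localization.Away v, inferInstance, inferInstance, inferInstance⟩
      refine ⟨v, V, inferInstance, inferInstance, hc, hV, ?_⟩
      have h3 : Ideal.span {MvPolynomial.map (algebraMap A V) f} = ⊤ := by
        rw [hfC, MvPolynomial.map_C, Ideal.span_singleton_eq_top]
        exact (IsLocalization.Away.algebraMap_isUnit v).map _
      have _ : Subsingleton (MvPolynomial (Fin n) V ⧸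
          Ideal.span {MvPolynomial.map (algebraMap A V) f}) :=
        Ideal.Quotient.subsingleton_iff.2 h3
      exact (FinGn.of_subsingleton _).fg

theorem TOPV (hK : St_LocK) (hC : St_LocC) (hGm : St_Gm) (hF : St_LamF) (hLin : St_Lin)
    {R : Type} [CommRing R] [IsDomain R] [Algebra.FiniteType ℤ R] [Infinite R]
    (hR : KroneckerLeOne (FractionRing R)) (h2 : (2 : R) ≠ 0) (hL : LeftPID R) (n : ℕ)
    (f : MvPolynomial (Fin n) (Polynomial R)) (hf : f.totalDegree ≤ 2)
    (hS : QuatSplit (FractionRing (Polynomial R)) (CliffordAlgebra.even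
      (hform (MvPolynomial.map (algebraMap (Polynomial R) (FractionRing (Polynomial R))) f)))) :
    ∃ (x : Polynomial R) (V : Type) (_ : CommRing V) (_ : Algebra (Polynomial R) V), x ≠ 0 ∧
      IsLocalization.Away x V ∧ AddGroup.FG (G0 (MvPolynomial (Fin n) V ⧸
        Ideal.span {MvPolynomial.map (algebraMap (Polynomial R) V) f})) := by
  have hRn : IsNoetherianRing R := Algebra.FiniteType.isNoetherianRing ℤ R
  by_cases h : (∀ i, f.coeff (Finsupp.single i 2) = 0) ∧
      ∀ i j, i ≠ j → f.coeff (Finsupp.single i 1 + Finsupp.single j 1) = 0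
  · exact TOPV_linear hLin (TOPV_zero hR) n f hf h.1 h.2
  · have hu : ∃ u : Polynomial R, u ≠ 0 ∧ ((∃ i, f.coeff (Finsupp.single i 2) = u) ∨
        ∃ i j, i ≠ j ∧ f.coeff (Finsupp.single i 2) + f.coeff (Finsupp.single j 2) +
          f.coeff (Finsupp.single i 1 + Finsupp.single j 1) = u) := by
      by_cases h1 : ∀ i, f.coeff (Finsupp.single i 2) = 0
      · rw [not_and_or] at h
        rcases h with h | h
        · exact absurd h1 h
        · push Not at h
          obtain ⟨i, j, hij, h⟩ := h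
          exact ⟨_, h, Or.inr ⟨i, j, hij, by rw [h1, h1, zero_add, zero_add]⟩⟩
      · push Not at h1
        obtain ⟨i, hi⟩ := h1
        exact ⟨_, hi, Or.inl ⟨i, rfl⟩⟩
    obtain ⟨u, hu0, hu⟩ := hu
    exact TOPV_quad hK hC hGm hF (TOPV_zero hR)
      (fun a b ha hb => TOPV_quat hR h2 hL a b ha hb) n f hf u hu0 hu hS


end Pool.Agent.QCT
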